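import Pool.Agent.H92P.Ch
import Pool.Agent.H92.Fin

/-!
# Admissible places for an odd prime, and the factors of the twisted sums
-/

set_option autoImplicit false
set_option linter.unusedSectionVars false

namespace Pool.Agent.H92P

open Finset NumberField IsDedekindDomain Filter Topology
open Pool.Agent.K4H55.BI Pool.Agent.K4H55.CX
open Pool.Agent.Y683.CG
open Pool.Agent.H92
open scoped ComplexConjugate

/-- roots of unity of `p`-power order are congruent to one modulo the primes above `p` -/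
lemma lam_powp {p : ℕ} (hp : p.Prime) (lam : Ideal (integralClosure ℤ ℂ)) (hlam : lam.IsPrime)
    (h2 : (p : integralClosure ℤ ℂ) ∈ lam) (k : ℕ) (z : integralClosure ℤ ℂ)
    (hz : z ^ p ^ k = 1) : z - 1 ∈ lam := by
  have : Fact p.Prime := ⟨hp⟩
  have h3 : ((p : ℕ) : integralClosure ℤ ℂ ⧸ lam) = 0 := by
    have h4 := Ideal.Quotient.eq_zero_iff_mem.2 h2
    rwa [map_natCast] at h4
  have : CharP (integralClosure ℤ ℂ ⧸ lam) p := (CharP.charP_iff_prime_eq_zero hp).2 h3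
  have h4 : ((Ideal.Quotient.mk lam) (z - 1)) ^ p ^ k = 0 := by
    rw [map_sub, map_one, sub_pow_char_pow, one_pow, ← map_pow, hz, map_one, sub_self]
  exact Ideal.Quotient.eq_zero_iff_mem.1 (pow_eq_zero_iff (pow_pos hp.pos k).ne' |>.1 h4)

lemma exists_lam_maxp {p : ℕ} (hp : p.Prime) : ∃ lam : Ideal (integralClosure ℤ ℂ), lam.IsMaximal ∧
    ((p : ℕ) : integralClosure ℤ ℂ) ∈ lam := by
  have h1 : Ideal.span {((p : ℕ) : integralClosure ℤ ℂ)} ≠ ⊤ := by
    intro h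
    rw [Ideal.span_singleton_eq_top] at h
    obtain ⟨u, hu⟩ := h.exists_right_inv
    have hpC : ((p : ℕ) : ℂ) ≠ 0 := by exact_mod_cast hp.ne_zero
    have h2 : (u : ℂ) = algebraMap ℚ ℂ (1 / p) := by
      have h3 := congrArg Subtype.val hu
      push_cast at h3
      rw [map_div₀, map_one, map_natCast, eq_div_iff hpC, mul_comm]
      exact h3
    have h3 : IsIntegral ℤ ((1 : ℚ) / p) := by
      rw [← isIntegral_algebraMap_iff (algebraMap ℚ ℂ).injective, ← h2]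
      exact u.2
    obtain ⟨q, hq⟩ := IsIntegrallyClosed.isIntegral_iff.1 h3
    have hpQ : ((p : ℕ) : ℚ) ≠ 0 := by exact_mod_cast hp.ne_zero
    have h4 : q * (p : ℤ) = 1 := by
      have h5 : ((q : ℤ) : ℚ) * p = 1 := by
        have h6 : ((q : ℤ) : ℚ) = 1 / p := hq
        rw [h6]
        field_simp
      exact_mod_cast h5
    have h5 : (p : ℤ) ∣ 1 := ⟨q, by rw [mul_comm]; exact h4.symm⟩
    exact hp.one_lt.ne' (by exact_mod_cast Int.eq_one_of_dvd_one (by positivity) h5)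
  obtain ⟨m, hm, hle⟩ := Ideal.exists_le_maximal _ h1
  exact ⟨m, hm, hle (Ideal.subset_span rfl)⟩

variable {K : Type} [Field K] [NumberField K] [hP : IsPrincipalIdealRing (𝓞 K)] {σ : K →+* ℂ}
  {δ : K} {n : 𝓞 K} {c : Ideal (𝓞 K) → ℂ}

/-- admissible places -/
def Adp (p : ℕ) (n : 𝓞 K) (c : Ideal (𝓞 K) → ℂ) (v : HeightOneSpectrum (𝓞 K)) : Prop :=
  (2 : 𝓞 K) ∉ v.asIdeal ∧ n ∉ v.asIdeal ∧ ∃ m : ℤ, c v.asIdeal = m ∧ ¬ (p : ℤ) ∣ m - 2

lemma fam_adp {p : ℕ} [DecidableEq (𝓞 K)] {T : Finset (HeightOneSpectrum (𝓞 K))} (hT : ∀ v ∈ T, Adp p n c v) :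
    Fam (T.image gen) :=
  fam_of (A := {v | (2 : 𝓞 K) ∉ v.asIdeal}) (fun _ hv => hv) (fun v hv => (hT v hv).1)

lemma nn_adp {p : ℕ} [DecidableEq (𝓞 K)] {T : Finset (HeightOneSpectrum (𝓞 K))} (hT : ∀ v ∈ T, Adp p n c v) :
    ∀ p ∈ T.image gen, ¬ p ∣ n := by
  intro p hp hd
  obtain ⟨v, hv, rfl⟩ := mem_image.1 hp
  exact (hT v hv).2.1 (gen_dvd.1 hd)

lemma levp {p : ℕ} (h : IQ K σ δ) {C : ℝ} {w : ℂ} {M : Submodule ℤ ℂ}
    (hMG : MG (ordK h) n (fun x => c (Ideal.span {x})) C w M)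
    [DecidableEq (HeightOneSpectrum (𝓞 K))] {T : Finset (HeightOneSpectrum (𝓞 K))} {Y : 𝓞 K → ℂ}
    (hYp : ∀ x y, (∀ v ∈ T, x - y ∈ v.asIdeal) → Y x = Y y)
    (hYm : ∀ x y, Y (x * y) = Y x * Y y) (R : Finset (HeightOneSpectrum (𝓞 K))) :
    Disjoint R T → (∀ v ∈ R ∪ T, Adp p n c v) → (∀ v ∈ R, Y (gen v) * conj (Y (gen v)) = 1) →
    H92.val h c (R ∪ T) Y = (∏ v ∈ R, (c v.asIdeal - Y (gen v) - conj (Y (gen v)))) * H92.val h c T Y := by
  classical
  induction R using Finset.induction_on with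
  | empty =>
    intro _ _ _
    rw [Finset.empty_union, Finset.prod_empty, one_mul]
  | insert q R hq ih =>
    intro hd hA hY
    have hqT : q ∉ T := fun h => Finset.disjoint_left.1 hd (Finset.mem_insert_self q R) h
    have hqRT : q ∉ R ∪ T := by simp [hq, hqT]
    have h1 := ih (hd.mono_left (Finset.subset_insert q R))
      (fun v hv => hA v (by
        rw [Finset.insert_union]
        exact Finset.mem_insert_of_mem hv))
      (fun v hv => hY v (Finset.mem_insert_of_mem hv))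
    rw [Finset.insert_union] at hA ⊢
    have h2 : gen q ∉ (R ∪ T).image gen := by
      intro hmem
      obtain ⟨v, hv, he⟩ := mem_image.1 hmem
      exact hqRT (gen_inj he ▸ hv)
    have h3 := stX_step hMG (S := (R ∪ T).image gen) (q := gen q) h2
      (by rw [← image_insert]; exact fam_adp hA) (by rw [← image_insert]; exact nn_adp hA)
      (X := Y) (fun x y hxy => hYp x y fun v hv => gen_dvd.1 ((dvd_md (mem_image_of_mem _
        (mem_union_right _ hv))).trans hxy)) hYm (hY q (mem_insert_self q R))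
    have h4 : H92.val h c (insert q (R ∪ T)) Y = (c q.asIdeal - Y (gen q) - conj (Y (gen q))) *
        H92.val h c (R ∪ T) Y := by
      unfold H92.val
      rw [image_insert, h3]
      simp only [gen_span]
    rw [h4, h1, Finset.prod_insert hq, mul_assoc]

/-- the factors are congruent -/
lemma fac_q2p {p : ℕ} (hpp : p.Prime) (h : IQ K σ δ) {C : ℝ} {w : ℂ} {M : Submodule ℤ ℂ}
    (hMG : MG (ordK h) n (fun x => c (Ideal.span {x})) C w M) {b : ℕ}
    {𝔪 : Ideal (integralClosure ℤ ℂ)} (hp : 𝔪.IsPrime) (h2 : (p : integralClosure ℤ ℂ) ∈ 𝔪)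
    {v : HeightOneSpectrum (𝓞 K)} (hv : Adp p n c v) {ζ : ℂ} (hζ : ζ ^ p ^ b = 1) :
    Q2 (Lat h n c (p ^ b)) 𝔪 (c v.asIdeal - ζ - conj ζ) (c v.asIdeal - 1 - 1) := by
  obtain ⟨-, hn, m, hm, hmo⟩ := hv
  have he : 0 < p ^ b := pow_pos hpp.pos b
  have hc := lat_hecke h hMG (e := p ^ b) hn
  have hζ' := conj_root hζ
  have hone : (1 : ℂ) ∈ mulR (Lat h n c (p ^ b)) := Subalgebra.one_mem _
  set z : integralClosure ℤ ℂ := ⟨ζ, root_int he hζ⟩ with hz
  set z' : integralClosure ℤ ℂ := ⟨conj ζ, root_int he hζ'⟩ with hz'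
  have m1 := lam_powp hpp 𝔪 hp h2 b z (Subtype.ext hζ)
  have m2 := lam_powp hpp 𝔪 hp h2 b z' (Subtype.ext hζ')
  refine ⟨Subalgebra.sub_mem _ (Subalgebra.sub_mem _ hc (lat_root h hζ)) (lat_root h hζ'),
    Subalgebra.sub_mem _ (Subalgebra.sub_mem _ hc hone) hone,
    (m : integralClosure ℤ ℂ) - z - z', (m : integralClosure ℤ ℂ) - 1 - 1, ?_, ?_, ?_, ?_⟩
  · rw [hm, hz, hz']
    push_cast
    rfl
  · rw [hm]
    push_cast
    rfl
  · have e : (m : integralClosure ℤ ℂ) - z - z' - ((m : integralClosure ℤ ℂ) - 1 - 1) =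
        -((z - 1) + (z' - 1)) := by ring
    rw [e]
    exact 𝔪.neg_mem (𝔪.add_mem m1 m2)
  · intro hmem
    have hpZ : Prime (p : ℤ) := Nat.prime_iff_prime_int.1 hpp
    obtain ⟨r, s, hrs⟩ := (hpZ.irreducible.coprime_iff_not_dvd.2 hmo)
    apply hp.ne_top
    rw [Ideal.eq_top_iff_one]
    have e : (1 : integralClosure ℤ ℂ) = (p : integralClosure ℤ ℂ) * (r : integralClosure ℤ ℂ) +
        (s : integralClosure ℤ ℂ) * ((m : integralClosure ℤ ℂ) - 1 - 1) := by
      have h1 : ((r * p + s * (m - 2) : ℤ) : integralClosure ℤ ℂ) = ((1 : ℤ) : integralClosure ℤ ℂ) :=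
        by rw [hrs]
      push_cast at h1
      linear_combination -h1
    rw [e]
    exact 𝔪.add_mem (𝔪.mul_mem_right _ h2) (𝔪.mul_mem_left _ hmem)

end Pool.Agent.H92P
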