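import Pool.Agent.H92.Sums

/-!
# Characters of finite order of an imaginary quadratic field, and groups of them
-/

set_option autoImplicit false
set_option linter.unusedSectionVars false

namespace Pool.Agent.H92P

open Finset NumberField IsDedekindDomain Filter Topology
open Pool.Agent.K4H55.BI Pool.Agent.K4H55.BK Pool.Agent.K4H55.CX
open scoped ComplexConjugate

section one

variable {K : Type} [Field K] [NumberField K]

/-- primitive characters modulo the product of the `v ∈ T`, trivial on the units, of finite order -/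
structure CP (T : Finset (HeightOneSpectrum (𝓞 K))) (χ : 𝓞 K → ℂ) : Prop where
  one : χ 1 = 1
  mul : ∀ x y, χ (x * y) = χ x * χ y
  zero : ∀ x, χ x = 0 ↔ ∃ v ∈ T, x ∈ v.asIdeal
  prd : ∀ x y, (∀ v ∈ T, x - y ∈ v.asIdeal) → χ x = χ y
  unit : ∀ u, IsUnit u → χ u = 1
  prim : ∀ v ∈ T, ∃ x, (∀ v' ∈ T, v' ≠ v → x - 1 ∈ v'.asIdeal) ∧ χ x ≠ 0 ∧ χ x ≠ 1
  pow : ∃ m : ℕ, 0 < m ∧ ∀ x, χ x ≠ 0 → χ x ^ m = 1

variable [hP : IsPrincipalIdealRing (𝓞 K)] {σ : K →+* ℂ} {δ : K} {n : 𝓞 K}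
  {c : Ideal (𝓞 K) → ℂ} {T : Finset (HeightOneSpectrum (𝓞 K))} {χ : 𝓞 K → ℂ}

lemma CP.ne_iff (h : CP T χ) (x : 𝓞 K) : χ x ≠ 0 ↔ ∀ v ∈ T, x ∉ v.asIdeal := by
  rw [Ne, h.zero]
  push Not
  rfl

lemma CP.hc [DecidableEq (𝓞 K)] (h : CP T χ) : Hc (T.image gen) χ := by
  classical
  have hne : ∀ x, (∀ p ∈ T.image gen, ¬ p ∣ x) → χ x ≠ 0 := by
    intro x hx
    rw [h.ne_iff]
    exact fun v hv hm => hx _ (Finset.mem_image_of_mem _ hv) (gen_dvd.2 hm)
  refine ⟨fun x y hxy => h.prd x y fun v hv => ?_, h.mul, h.one, fun x p hp hd => ?_,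
    fun x hx => ?_, fun p hp => ?_⟩
  · exact gen_dvd.1 ((dvd_md (Finset.mem_image_of_mem _ hv)).trans hxy)
  · obtain ⟨v, hv, rfl⟩ := Finset.mem_image.1 hp
    exact (h.zero x).2 ⟨v, hv, gen_dvd.1 hd⟩
  · obtain ⟨k, hk0, hk⟩ := h.pow
    have h1 := hk x (hne x hx)
    have h2 : ‖χ x‖ = 1 := Complex.norm_eq_one_of_pow_eq_one h1 hk0.ne'
    rw [Complex.mul_conj, Complex.normSq_eq_norm_sq, h2]
    norm_num
  · obtain ⟨v, hv, rfl⟩ := Finset.mem_image.1 hp
    obtain ⟨x, h1, h2, h3⟩ := h.prim v hv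
    refine ⟨x, md ((T.erase v).image gen), ?_, ?_, fun q hq hd => ?_, h3⟩
    · unfold md
      rw [Finset.prod_image fun _ _ _ _ h => gen_inj h, Finset.prod_image fun _ _ _ _ h => gen_inj h,
        Finset.mul_prod_erase T gen hv]
    · exact md_gen_dvd _ fun v' hv' => h1 v' (Finset.mem_of_mem_erase hv')
        (Finset.ne_of_mem_erase hv')
    · obtain ⟨v', hv', rfl⟩ := Finset.mem_image.1 hq
      exact (h.ne_iff x).1 h2 v' hv' (gen_dvd.1 hd)

/-- integrality of the Gauss sum -/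
lemma gx_int (h : IQ K σ δ) [DecidableEq (𝓞 K)] (hχ : CP T χ) (hT : Fam (T.image gen)) :
    IsIntegral ℤ (gx (ordK h) (T.image gen) (br χ) 1) := by
  classical
  set D := ordK h with hD
  set m := md (T.image gen) with hm
  have hm0 : m ≠ 0 := hT.md_ne
  have hιm : D.ι m ≠ 0 := fun h => hm0 (D.inj (by rw [h, map_zero]))
  obtain ⟨k, hk0, hk⟩ := hχ.pow
  have hpow : ∀ (N : ℕ) (z : ℂ), ee D.δ z ^ N = ee D.δ (N * z) := by
    intro N z
    induction N with
    | zero => rw [pow_zero, Nat.cast_zero, zero_mul, ee_zero]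
    | succ N ih =>
      rw [pow_succ, ih, ← ee_add]
      congr 1
      push_cast
      ring
  unfold gx
  refine IsIntegral.sum _ fun x _ => IsIntegral.mul ?_ ?_
  · by_cases h0 : χ x = 0
    · show IsIntegral ℤ (conj (χ x))
      rw [h0, map_zero]
      exact isIntegral_zero
    · refine IsIntegral.of_pow hk0 ?_
      show IsIntegral ℤ ((conj (χ x)) ^ k)
      rw [← map_pow, hk x h0, map_one]
      exact isIntegral_one
  · have hN : (m : 𝓞 K) ∣ ((Ideal.absNorm (Ideal.span {m}) : ℕ) : 𝓞 K) := by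
      rw [← Ideal.mem_span_singleton]
      exact Ideal.absNorm_mem _
    have hN0 : 0 < Ideal.absNorm (Ideal.span {m}) := by
      rw [Nat.pos_iff_ne_zero, Ne, Ideal.absNorm_eq_zero_iff, Ideal.span_singleton_eq_bot]
      exact hm0
    obtain ⟨y, hy⟩ := hN
    refine IsIntegral.of_pow hN0 ?_
    rw [hpow]
    have e : ((Ideal.absNorm (Ideal.span {m}) : ℕ) : ℂ) * (D.ι (1 * x) / D.ι m) = D.ι (y * x) := by
      have e1 : ((Ideal.absNorm (Ideal.span {m}) : ℕ) : ℂ) = D.ι m * D.ι y := by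
        rw [← map_mul, ← hy, map_natCast]
      rw [e1, one_mul, map_mul]
      field_simp
    rw [e, D.dual1]
    exact isIntegral_one


end one

section grp

variable {K : Type} [Field K] [NumberField K] [hP : IsPrincipalIdealRing (𝓞 K)]
  {X : Type} [CommGroup X]
  {T : X → Finset (HeightOneSpectrum (𝓞 K))} {χ : X → 𝓞 K → ℂ}

/-- a group of characters -/
structure CGp (T : X → Finset (HeightOneSpectrum (𝓞 K))) (χ : X → 𝓞 K → ℂ) : Prop where
  ch : ∀ g, CP (T g) (χ g)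
  mul : ∀ g h x, χ g x ≠ 0 → χ h x ≠ 0 → χ (g * h) x = χ g x * χ h x

lemma CGp.triv (h : CGp T χ) (x : 𝓞 K) : χ 1 x = 1 := by
  have h1 : ∀ x, χ 1 x ≠ 0 → χ 1 x = 1 := by
    intro x hx
    have h2 := h.mul 1 1 x hx hx
    rw [mul_one] at h2
    have h3 : χ 1 x * (χ 1 x - 1) = 0 := by linear_combination -h2
    rcases mul_eq_zero.1 h3 with h4 | h4
    · exact absurd h4 hx
    · exact sub_eq_zero.1 h4
  have hT : T 1 = ∅ := by
    rw [Finset.eq_empty_iff_forall_notMem]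
    intro v hv
    obtain ⟨y, -, h2, h3⟩ := (h.ch 1).prim v hv
    exact h3 (h1 y h2)
  apply h1
  rw [(h.ch 1).ne_iff, hT]
  exact fun v hv => absurd hv (Finset.notMem_empty v)

lemma CGp.T1 (h : CGp T χ) : T 1 = ∅ := by
  rw [Finset.eq_empty_iff_forall_notMem]
  intro v hv
  obtain ⟨y, -, h2, h3⟩ := (h.ch 1).prim v hv
  exact h3 (h.triv y)

lemma CGp.supp [DecidableEq (HeightOneSpectrum (𝓞 K))] (h : CGp T χ) (g g' : X) :
    T (g * g') ⊆ T g ∪ T g' := by
  classical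
  intro v hv
  by_contra hcon
  rw [mem_union, not_or] at hcon
  obtain ⟨x, h1, h2, h3⟩ := (h.ch (g * g')).prim v hv
  obtain ⟨y, hy1, hy2⟩ := H92.exists_crt ((T g ∪ T g' ∪ T (g * g')).erase v) (notMem_erase v _) x
  have e1 : χ (g * g') y = χ (g * g') x := by
    refine (h.ch _).prd y x fun v' hv' => ?_
    by_cases hvv : v' = v
    · rw [hvv]; exact hy1
    · have h4 := hy2 v' (mem_erase.2 ⟨hvv, mem_union_right _ hv'⟩)
      have h5 := h1 v' hv' hvv
      have h6 : y - x = (y - 1) - (x - 1) := by ring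
      rw [h6]
      exact v'.asIdeal.sub_mem h4 h5
  have e2 : χ g y = 1 := by
    rw [← (h.ch g).one]
    refine (h.ch g).prd y 1 fun v' hv' => hy2 v' (mem_erase.2 ⟨?_, mem_union_left _
      (mem_union_left _ hv')⟩)
    rintro rfl
    exact hcon.1 hv'
  have e3 : χ g' y = 1 := by
    rw [← (h.ch g').one]
    refine (h.ch g').prd y 1 fun v' hv' => hy2 v' (mem_erase.2 ⟨?_, mem_union_left _
      (mem_union_right _ hv')⟩)
    rintro rfl
    exact hcon.2 hv'
  apply h3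
  rw [← e1, h.mul g g' y (by rw [e2]; exact one_ne_zero) (by rw [e3]; exact one_ne_zero), e2, e3,
    one_mul]

lemma CGp.root (h : CGp T χ) {e : ℕ} (g : X) (hg : g ^ e = 1) {x : 𝓞 K} (hx : χ g x ≠ 0) :
    χ g x ^ e = 1 := by
  have h1 : ∀ j : ℕ, χ (g ^ j) x = χ g x ^ j := by
    intro j
    induction j with
    | zero => rw [pow_zero, pow_zero, h.triv]
    | succ j ih =>
      rw [pow_succ, pow_succ, h.mul _ _ x (by rw [ih]; exact pow_ne_zero j hx) hx, ih]
  rw [← h1, hg, h.triv]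

end grp

section field

variable {K : Type} [Field K] [NumberField K] [hP : IsPrincipalIdealRing (𝓞 K)] {σ : K →+* ℂ}
  {δ : K} {n : 𝓞 K} {c : Ideal (𝓞 K) → ℂ} {𝒢 : Type} [CommGroup 𝒢] [Finite 𝒢]
  {T : 𝒢 → Finset (HeightOneSpectrum (𝓞 K))} {χ : 𝒢 → 𝓞 K → ℂ}

/-- a group of characters -/
structure CFp (T : 𝒢 → Finset (HeightOneSpectrum (𝓞 K))) (χ : 𝒢 → 𝓞 K → ℂ) : Prop where
  ch : ∀ g, CP (T g) (χ g)
  mul : ∀ g h x, χ g x ≠ 0 → χ h x ≠ 0 → χ (g * h) x = χ g x * χ h x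

lemma CFp.triv (h : CFp T χ) (x : 𝓞 K) : χ 1 x = 1 := by
  have h1 : ∀ x, χ 1 x ≠ 0 → χ 1 x = 1 := by
    intro x hx
    have h2 := h.mul 1 1 x hx hx
    rw [mul_one] at h2
    have h3 : χ 1 x * (χ 1 x - 1) = 0 := by linear_combination -h2
    rcases mul_eq_zero.1 h3 with h4 | h4
    · exact absurd h4 hx
    · exact sub_eq_zero.1 h4
  have hT : T 1 = ∅ := by
    rw [Finset.eq_empty_iff_forall_notMem]
    intro v hv
    obtain ⟨y, -, h2, h3⟩ := (h.ch 1).prim v hv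
    exact h3 (h1 y h2)
  apply h1
  rw [(h.ch 1).ne_iff, hT]
  exact fun v hv => absurd hv (Finset.notMem_empty v)

/-- the characters prime to `x` -/
def CFp.sub (h : CFp T χ) (x : 𝓞 K) : Subgroup 𝒢 where
  carrier := {g | χ g x ≠ 0}
  mul_mem' := fun {g g'} hg hg' => by
    show χ (g * g') x ≠ 0
    rw [h.mul g g' x hg hg']
    exact mul_ne_zero hg hg'
  one_mem' := by
    show χ 1 x ≠ 0
    rw [h.triv]
    exact one_ne_zero
  inv_mem' := fun {g} hg => by
    show χ g⁻¹ x ≠ 0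
    have h1 : ∀ j : ℕ, χ (g ^ j) x ≠ 0 := by
      intro j
      induction j with
      | zero => rw [pow_zero, h.triv]; exact one_ne_zero
      | succ j ih =>
        rw [pow_succ, h.mul _ _ x ih hg]
        exact mul_ne_zero ih hg
    have h2 : g⁻¹ = g ^ (orderOf g - 1) := by
      have h3 : 0 < orderOf g := orderOf_pos g
      rw [inv_eq_iff_mul_eq_one, ← pow_succ', Nat.sub_add_cancel h3, pow_orderOf_eq_one]
    rw [h2]
    exact h1 _

/-- evaluation at `x` -/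
def CFp.ev (h : CFp T χ) (x : 𝓞 K) : h.sub x →* ℂ where
  toFun := fun g => χ g x
  map_one' := h.triv x
  map_mul' := fun g g' => h.mul g g' x g.2 g'.2

lemma CFp.card_ev (h : CFp T χ) (x : 𝓞 K) : Nat.card (Set.range (h.ev x)) = ord χ x := by
  unfold ord
  refine Nat.card_congr (Equiv.setCongr ?_)
  ext z
  constructor
  · rintro ⟨g, rfl⟩
    exact ⟨g.2, g, rfl⟩
  · rintro ⟨hz, g, rfl⟩
    exact ⟨⟨g, hz⟩, rfl⟩

theorem CFp.prod (h : CFp T χ) (x : 𝓞 K) [Fintype 𝒢] :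
    ∃ r : ℕ, r * ord χ x = Nat.card {g // χ g x ≠ 0} ∧ 0 < ord χ x ∧
      ∀ (m : ℕ) (a : Fin m → ℂ) (F : ℂ → ℂ), F 0 = 1 → (∀ z, F z = (∏ i, (1 - a i * z))⁻¹) →
        ∏ g, F (χ g x) = ((∏ i, (1 - a i ^ ord χ x))⁻¹) ^ r := by
  classical
  have hfin : Fintype (h.sub x) := Fintype.ofFinite _
  obtain ⟨r, h1, h2, h3⟩ := prod_grp (h.ev x)
  rw [h.card_ev] at h1 h2 h3
  refine ⟨r, h1, h2, fun m a F hF0 hF => ?_⟩
  have h4 : ∏ g, F (χ g x) = ∏ g : h.sub x, F (χ g x) := by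
    have h5 : ∏ g ∈ Finset.univ.filter (fun g : 𝒢 => g ∈ h.sub x), F (χ g x) =
        ∏ g : h.sub x, F (χ g x) := Finset.prod_subtype _ (fun g => by simp) _
    rw [← h5]
    symm
    refine Finset.prod_subset (Finset.filter_subset _ _) fun g _ hg => ?_
    have h6 : χ g x = 0 := by
      by_contra h7
      exact hg (Finset.mem_filter.2 ⟨Finset.mem_univ _, h7⟩)
    rw [h6, hF0]
  have h5 : ∏ g : h.sub x, F (χ g x) = ∏ g : h.sub x, (∏ i, (1 - a i * χ g x))⁻¹ :=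
    Finset.prod_congr rfl fun g _ => hF _
  rw [h4, h5, Finset.prod_inv_distrib, inv_pow, Finset.prod_comm, ← Finset.prod_pow]
  congr 1
  exact Finset.prod_congr rfl fun i _ => h3 (a i)

/-- the product of the Euler factors -/
theorem CFp.local (h : CFp T χ) (v : HeightOneSpectrum (𝓞 K)) [Fintype 𝒢] (n : 𝓞 K)
    (c : Ideal (𝓞 K) → ℂ) (s : ℂ) {m : ℕ}
    (hm : m * ord χ (gen v) = Nat.card {g // χ g (gen v) ≠ 0}) :
    ∏ g, efx n c (χ g) s v = facF n c v (Ideal.absNorm v.asIdeal ^ ord χ (gen v)) s ^ m := by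
  classical
  obtain ⟨r, h1, h2, h3⟩ := h.prod (gen v)
  have hrm : r = m := Nat.eq_of_mul_eq_mul_right h2 (h1.trans hm.symm)
  subst hrm
  set f := ord χ (gen v) with hf
  set q := Ideal.absNorm v.asIdeal with hq
  have hq1 : 1 < q := by
    have h5 : q ≠ 0 := by
      rw [hq, Ne, Ideal.absNorm_eq_zero_iff]
      exact v.ne_bot
    have h6 : q ≠ 1 := by
      rw [hq, Ne, Ideal.absNorm_eq_one_iff]
      exact v.isPrime.ne_top
    omega
  have hqf : q ^ f ≠ 0 := pow_ne_zero f (by omega)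
  have hlog : Nat.log q (q ^ f) = f := Nat.log_pow hq1 f
  unfold facF
  rw [← hq, hlog]
  by_cases hn : n ∈ v.asIdeal
  · rw [if_pos hn, cpow_f, ← mul_pow]
    have h4 := h3 1 (fun _ => c v.asIdeal * (q : ℂ) ^ (-s))
      (fun z => (1 - c v.asIdeal * (q : ℂ) ^ (-s) * z)⁻¹) (by simp) (fun z => by simp)
    simp only [Finset.univ_unique, Finset.prod_const, Finset.card_singleton, pow_one] at h4
    rw [← h4]
    refine Finset.prod_congr rfl fun g _ => ?_
    unfold efx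
    rw [if_pos hn, ← hq, add_zero]
    congr 2
    ring
  · rw [if_neg hn, cpow_two _ hqf, cpow_f]
    obtain ⟨α, β, hα, hβ⟩ := exists_ab (c v.asIdeal) q
    have e1 : luc (c v.asIdeal) (q : ℂ) f = α ^ f + β ^ f := by
      rw [← hα, ← hβ, luc_eq]
    have h4 := h3 2 ![α * (q : ℂ) ^ (-s), β * (q : ℂ) ^ (-s)]
      (fun z => ((1 - α * (q : ℂ) ^ (-s) * z) * (1 - β * (q : ℂ) ^ (-s) * z))⁻¹) (by simp)
      (fun z => by simp)
    rw [Fin.prod_univ_two] at h4
    simp only [Matrix.cons_val_zero, Matrix.cons_val_one, Matrix.cons_val_fin_one] at h4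
    rw [e1]
    have e2 : 1 - (α ^ f + β ^ f) * ((q : ℂ) ^ (-s)) ^ f +
        ((q ^ f : ℕ) : ℂ) * (((q : ℂ) ^ (-s)) ^ f) ^ 2 =
        (1 - (α * (q : ℂ) ^ (-s)) ^ f) * (1 - (β * (q : ℂ) ^ (-s)) ^ f) := by
      rw [mul_pow, mul_pow]
      push_cast
      rw [← hβ, mul_pow]
      ring
    rw [e2, ← h4]
    refine Finset.prod_congr rfl fun g _ => ?_
    unfold efx
    rw [if_neg hn, ← hq, cpow_two _ (by omega), ← hα]
    congr 1
    rw [← hβ]
    ring




/-- the product of the factors above `v` -/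
lemma above_prod {F : Type} [Field F] [NumberField F] [Algebra K F] (hcf : CFp T χ) (hl : Law F χ) [Fintype 𝒢] (v : HeightOneSpectrum (𝓞 K)) (s : ℂ) :
    ∏ᶠ u : {u : HeightOneSpectrum (𝓞 F) //
      u.asIdeal.comap (algebraMap (𝓞 K) (𝓞 F)) = v.asIdeal},
        facF n c v (Ideal.absNorm u.1.asIdeal) s = ∏ g, efx n c (χ g) s v := by
  classical
  have h1 := hl.card v
  rw [hcf.local v n c s h1]
  set m := Nat.card {u : HeightOneSpectrum (𝓞 F) //
      u.asIdeal.comap (algebraMap (𝓞 K) (𝓞 F)) = v.asIdeal} with hm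
  have hpos : 0 < Nat.card {g // χ g (gen v) ≠ 0} := by
    have : Nonempty {g // χ g (gen v) ≠ 0} := ⟨⟨1, by rw [hcf.triv]; exact one_ne_zero⟩⟩
    exact Nat.card_pos
  have hm0 : m ≠ 0 := by
    intro h0
    rw [h0, zero_mul] at h1
    omega
  have hfin : Finite {u : HeightOneSpectrum (𝓞 F) //
      u.asIdeal.comap (algebraMap (𝓞 K) (𝓞 F)) = v.asIdeal} := Nat.finite_of_card_ne_zero hm0
  have : Fintype {u : HeightOneSpectrum (𝓞 F) //
      u.asIdeal.comap (algebraMap (𝓞 K) (𝓞 F)) = v.asIdeal} := Fintype.ofFinite _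
  rw [finprod_eq_prod_of_fintype, Finset.prod_congr rfl fun u _ => by rw [hl.norm v u.1 u.2],
    Finset.prod_const, Finset.card_univ, ← Nat.card_eq_fintype_card]


end field

end Pool.Agent.H92P
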