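import Pool.Agent.H92P.Gk2
import Pool.Graph.R_pool_sql_team_seeded_b677cdb8.E8helper21.Pm
import Pool.Graph.R_seed8.TH841.NF.ShaN

/-!
# Comparison of the points of a curve over `k` with the points of its base change to `K`
-/

set_option autoImplicit false
set_option linter.all false

open NumberField IsDedekindDomain WithZero WeierstrassCurve WeierstrassCurve.Affine Polynomial
open scoped Classical

namespace Pool.Agent.H92P

open Pool.Agent.TH115.GD hiding sh
open Pool.Agent.E8helper21 (castPt castPt_some castPt_symm_some)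

section cmp

variable {k K : Type} [Field k] [Field K] [Algebra k K] {V : WeierstrassCurve k}
  {W : WeierstrassCurve K} (hW : V.map (algebraMap k K) = W)

include hW in
theorem bc_eq (L : Type) [Field L] [Algebra k L] [Algebra K L] [IsScalarTower k K L] :
    W.baseChange L = V.baseChange L := by
  subst hW
  show (V.map (algebraMap k K)).map (algebraMap K L) = V.map (algebraMap k L)
  rw [WeierstrassCurve.map_map, ← IsScalarTower.algebraMap_eq k K L]

/-- The comparison of the points. -/
noncomputable def tq (L : Type) [Field L] [Algebra k L] [Algebra K L] [IsScalarTower k K L] :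
    Pool.Agent.TH841.SH.D.Pt W L →+ Pt V L where
  toFun := castPt (bc_eq hW L)
  map_zero' := (castPt (bc_eq hW L)).map_zero
  map_add' := fun P Q => (castPt (bc_eq hW L)).map_add P Q

theorem tq_inj (L : Type) [Field L] [Algebra k L] [Algebra K L] [IsScalarTower k K L] :
    Function.Injective (tq hW L) := (castPt (bc_eq hW L)).injective

theorem tq_surj (L : Type) [Field L] [Algebra k L] [Algebra K L] [IsScalarTower k K L]
    (Q : Pt V L) : ∃ P : Pool.Agent.TH841.SH.D.Pt W L, tq hW L P = Q :=
  (castPt (bc_eq hW L)).surjective Q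

theorem tq_act {L L' : Type} [Field L] [Field L'] [Algebra k L] [Algebra K L] [Algebra k L']
    [Algebra K L'] [IsScalarTower k K L] [IsScalarTower k K L'] (φ : L →ₐ[K] L') (ψ : L →ₐ[k] L')
    (h : ∀ x, φ x = ψ x) (P : Pool.Agent.TH841.SH.D.Pt W L) :
    tq hW L' (Pool.Agent.TH841.SH.D.act W φ P) = act V ψ (tq hW L P) := by
  rcases P with _ | ⟨x, y, hxy⟩
  · have e0 : tq hW L (0 : Pool.Agent.TH841.SH.D.Pt W L) = 0 := map_zero _
    show tq hW L' (Pool.Agent.TH841.SH.D.act W φ 0) = act V ψ (tq hW L 0)
    rw [e0, map_zero, map_zero, map_zero]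
  · have hL := bc_eq hW L
    have hL' := bc_eq hW L'
    have h1 : (V.baseChange L).toAffine.Nonsingular x y := hL ▸ hxy
    have e1 : tq hW L (Point.some x y hxy) = Point.some x y h1 := castPt_some hL x y hxy h1
    have h2 : (W.baseChange L').toAffine.Nonsingular (φ x) (φ y) :=
      (WeierstrassCurve.Affine.baseChange_nonsingular (W := W.toAffine) (R := K) φ.injective x y).2 hxy
    have h3 : (V.baseChange L').toAffine.Nonsingular (φ x) (φ y) := hL' ▸ h2
    have e2 : tq hW L' (Point.some (φ x) (φ y) h2) = Point.some (φ x) (φ y) h3 :=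
      castPt_some hL' _ _ h2 h3
    rw [e1]
    obtain ⟨h4, h5⟩ := act_some V ψ h1
    rw [h5]
    refine Eq.trans ?_ (e2.trans ?_)
    · rfl
    · rw [Point.some.injEq]
      exact ⟨h x, h y⟩

end cmp

end Pool.Agent.H92P
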