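import Pool.Agent.H92P.MultiP
import Pool.Agent.H92.Cyc

/-!
# The ring `ℤ[ζ]` for a root of unity `ζ` of order `p^b`, and congruences
-/

set_option autoImplicit false
set_option linter.unusedSectionVars false

namespace Pool.Agent.H92P

open Finset
open Pool.Agent.Y683.CG
open Pool.Agent.H92

/-- coprime to `p` -/
lemma cop_p {p : ℕ} {x : integralClosure ℤ ℂ} (h : ∀ lam : Ideal (integralClosure ℤ ℂ),
    lam.IsPrime → (p : integralClosure ℤ ℂ) ∈ lam → x ∉ lam) : IsCoprime x p := by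
  by_contra hcon
  obtain ⟨m, hm, hle⟩ := Ideal.exists_le_maximal (Ideal.span {x, (p : integralClosure ℤ ℂ)}) (by
    rw [Ne, Ideal.eq_top_iff_one, Ideal.mem_span_pair]
    rintro ⟨p, q, hpq⟩
    exact hcon ⟨p, q, hpq⟩)
  exact h m hm.isPrime (hle (Ideal.subset_span (by simp))) (hle (Ideal.subset_span (by simp)))

lemma notMem_of_copp {p : ℕ} {x : integralClosure ℤ ℂ} (h : IsCoprime x p)
    {lam : Ideal (integralClosure ℤ ℂ)} (hlam : lam.IsPrime)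
    (h2 : (p : integralClosure ℤ ℂ) ∈ lam) : x ∉ lam := by
  intro hx
  obtain ⟨p, q, hpq⟩ := h
  apply hlam.ne_top
  rw [Ideal.eq_top_iff_one, ← hpq]
  exact lam.add_mem (lam.mul_mem_left _ hx) (lam.mul_mem_left _ h2)

lemma copp_ne {p : ℕ} (hp : p.Prime) {x : integralClosure ℤ ℂ} (h : IsCoprime x p) : x ≠ 0 := by
  obtain ⟨lam, hlam, h2⟩ := exists_lam_maxp hp
  rintro rfl
  exact notMem_of_copp h hlam.isPrime h2 lam.zero_mem

/-- central values which are not zero -/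
lemma ne_of_unitp {p : ℕ} (hp : p.Prime) {G1 B : ℂ} {τ x : integralClosure ℤ ℂ} {k : ℤ} {m : ℕ}
    (hx : IsCoprime x p) (hB : B ≠ 0) (h : k * (τ : ℂ) * G1 = x * B ^ m) : G1 ≠ 0 := by
  rintro rfl
  rw [mul_zero] at h
  have h1 : (x : ℂ) ≠ 0 := fun h0 => copp_ne hp hx (Subtype.ext h0)
  exact mul_ne_zero h1 (pow_ne_zero m hB) h.symm

/-- integers prime to `p` -/
lemma int_notMem {p : ℕ} (hp : p.Prime) {j : ℤ} (hj : ¬ (p : ℤ) ∣ j)
    {lam : Ideal (integralClosure ℤ ℂ)} (hlam : lam.IsPrime)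
    (h2 : (p : integralClosure ℤ ℂ) ∈ lam) : (j : integralClosure ℤ ℂ) ∉ lam := by
  intro hmem
  have hpZ : Prime (p : ℤ) := Nat.prime_iff_prime_int.1 hp
  obtain ⟨r, s, hrs⟩ := (hpZ.irreducible.coprime_iff_not_dvd.2 hj)
  apply hlam.ne_top
  rw [Ideal.eq_top_iff_one]
  have e : (1 : integralClosure ℤ ℂ) = (p : integralClosure ℤ ℂ) * (r : integralClosure ℤ ℂ) +
      (s : integralClosure ℤ ℂ) * (j : integralClosure ℤ ℂ) := by
    have h1 : ((r * p + s * j : ℤ) : integralClosure ℤ ℂ) = ((1 : ℤ) : integralClosure ℤ ℂ) :=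
      by rw [hrs]
    push_cast at h1
    linear_combination -h1
  rw [e]
  exact lam.add_mem (lam.mul_mem_right _ h2) (lam.mul_mem_left _ hmem)

lemma rz_intp {ζ : ℂ} {m : ℕ} (hm : 0 < m) (hζ : ζ ^ m = 1) {r : ℂ} (hr : r ∈ RZ ζ) :
    r ∈ integralClosure ℤ ℂ := by
  have h1 : RZ ζ ≤ integralClosure ℤ ℂ := by
    refine Algebra.adjoin_le ?_
    rintro x rfl
    exact root_int hm hζ
  exact h1 hr

/-- `1 - ζ^a` is a unit times `1 - ζ` -/
lemma one_sub_pow {ζ : ℂ} {N : ℕ} (hN : 1 < N) (hζ : IsPrimitiveRoot ζ N) {a : ℕ}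
    (ha : a.Coprime N) : ∃ u ∈ RZ ζ, ∃ v ∈ RZ ζ, u * v = 1 ∧ 1 - ζ ^ a = (1 - ζ) * u := by
  obtain ⟨a', ha'⟩ : ∃ a' : ℕ, a * a' % N = 1 := by
    obtain ⟨m, hm⟩ := Nat.exists_mul_mod_eq_one_of_coprime ha hN
    exact ⟨m, hm.2⟩
  have e1 : (ζ ^ a) ^ a' = ζ := by
    rw [← pow_mul, ← Nat.mod_add_div (a * a') N, ha', pow_add, pow_mul, hζ.pow_eq_one, one_pow,
      pow_one, mul_one]
  obtain ⟨w, hw, h2⟩ := geo ζ a
  obtain ⟨w', hw', h3⟩ := geo (ζ ^ a) a'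
  rw [e1] at h3
  have hne : 1 - ζ ≠ 0 := by
    intro h0
    exact hζ.ne_one hN (sub_eq_zero.1 h0).symm
  refine ⟨w, by rw [hw]; exact geo_mem (rz_self ζ) a, w', by
    rw [hw']; exact geo_mem (Subalgebra.pow_mem _ (rz_self ζ) a) a', ?_, h2⟩
  apply mul_left_cancel₀ hne
  rw [mul_one]
  linear_combination -h3 - w' * h2

/-- `p` is a power of `1 - ζ` times a unit -/
lemma tw_p {p : ℕ} (hp : p.Prime) {ζ : ℂ} {b : ℕ} (hζ : IsPrimitiveRoot ζ (p ^ (b + 1))) :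
    ∃ u ∈ RZ ζ, ∃ v ∈ RZ ζ, u * v = 1 ∧
      (p : ℂ) = (1 - ζ) ^ (primitiveRoots (p ^ (b + 1)) ℂ).card * u := by
  classical
  have hN : 1 < p ^ (b + 1) := Nat.one_lt_pow (Nat.succ_ne_zero b) hp.one_lt
  have : Fact p.Prime := ⟨hp⟩
  have h1 : ∏ μ ∈ primitiveRoots (p ^ (b + 1)) ℂ, (1 - μ) = (p : ℂ) := by
    have h2 := congrArg (Polynomial.eval 1)
      (Polynomial.cyclotomic_eq_prod_X_sub_primitiveRoots hζ)
    rw [Polynomial.eval_one_cyclotomic_prime_pow, Polynomial.eval_prod] at h2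
    rw [h2]
    exact prod_congr rfl fun μ _ => by simp
  have h2 : ∀ μ ∈ primitiveRoots (p ^ (b + 1)) ℂ, ∃ u ∈ RZ ζ, ∃ v ∈ RZ ζ, u * v = 1 ∧
      1 - μ = (1 - ζ) * u := by
    intro μ hμ
    have h3 := (mem_primitiveRoots (by omega)).1 hμ
    obtain ⟨i, -, hi, rfl⟩ := (hζ.isPrimitiveRoot_iff).1 h3
    exact one_sub_pow hN hζ hi
  have h3 : ∀ S : Finset ℂ, S ⊆ primitiveRoots (p ^ (b + 1)) ℂ → ∃ u ∈ RZ ζ, ∃ v ∈ RZ ζ,
      u * v = 1 ∧ ∏ μ ∈ S, (1 - μ) = (1 - ζ) ^ S.card * u := by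
    intro S
    induction S using Finset.induction_on with
    | empty =>
      intro _
      exact ⟨1, Subalgebra.one_mem _, 1, Subalgebra.one_mem _, by norm_num, by simp⟩
    | insert μ S hμ ih =>
      intro hS
      obtain ⟨u, hu, v, hv, huv, e⟩ := ih ((subset_insert _ _).trans hS)
      obtain ⟨u', hu', v', hv', huv', e'⟩ := h2 μ (hS (mem_insert_self _ _))
      refine ⟨u * u', Subalgebra.mul_mem _ hu hu', v * v', Subalgebra.mul_mem _ hv hv', ?_, ?_⟩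
      · linear_combination (u' * v') * huv + huv'
      · rw [prod_insert hμ, card_insert_of_notMem hμ, e, e', pow_succ]
        ring
  obtain ⟨u, hu, v, hv, huv, e⟩ := h3 _ subset_rfl
  exact ⟨u, hu, v, hv, huv, by rw [← h1, e]⟩

lemma card_pos' {p : ℕ} (hp : p.Prime) {ζ : ℂ} {b : ℕ} (hζ : IsPrimitiveRoot ζ (p ^ (b + 1))) :
    0 < (primitiveRoots (p ^ (b + 1)) ℂ).card :=
  card_pos.2 ⟨ζ, (mem_primitiveRoots (pow_pos hp.pos _)).2 hζ⟩

/-- the residue classes -/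
lemma rz_casesp {p : ℕ} (hp : p.Prime) {ζ : ℂ} {b : ℕ} (hζ : IsPrimitiveRoot ζ (p ^ (b + 1)))
    {r : ℂ} (hr : r ∈ RZ ζ) :
    (∃ m : ℤ, ¬ (p : ℤ) ∣ m ∧ ∃ t ∈ RZ ζ, r = m + (1 - ζ) * t) ∨ ∃ t ∈ RZ ζ, r = (1 - ζ) * t := by
  obtain ⟨m, t, ht, rfl⟩ := rz_mod hr
  by_cases hm : (p : ℤ) ∣ m
  · right
    obtain ⟨u, hu, v, hv, huv, h2⟩ := tw_p hp hζ
    have h1 : (1 - ζ) ∈ RZ ζ := Subalgebra.sub_mem _ (Subalgebra.one_mem _) (rz_self ζ)
    obtain ⟨k, hk⟩ : ∃ k, (primitiveRoots (p ^ (b + 1)) ℂ).card = k + 1 :=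
      ⟨(primitiveRoots (p ^ (b + 1)) ℂ).card - 1, by
        have := card_pos' hp hζ
        omega⟩
    have h3 : (p : ℂ) = (1 - ζ) * ((1 - ζ) ^ k * u) := by
      rw [h2, hk, pow_succ]
      ring
    have h4 : (1 - ζ) ^ k * u ∈ RZ ζ := Subalgebra.mul_mem _ (Subalgebra.pow_mem _ h1 k) hu
    obtain ⟨q, hq⟩ := hm
    refine ⟨q * ((1 - ζ) ^ k * u) + t, Subalgebra.add_mem _ (Subalgebra.mul_mem _ (rz_cast ζ q) h4)
      ht, ?_⟩
    rw [hq]
    push_cast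
    linear_combination (q : ℂ) * h3
  · exact Or.inl ⟨m, hm, t, ht, rfl⟩

/-- the decomposition with a bounded exponent -/
lemma rz_decp {p : ℕ} (hp : p.Prime) {ζ : ℂ} {b : ℕ} (hζ : IsPrimitiveRoot ζ (p ^ (b + 1)))
    (M : ℕ) {r : ℂ} (hr : r ∈ RZ ζ) :
    (∃ k < M, ∃ m : ℤ, ¬ (p : ℤ) ∣ m ∧ ∃ t ∈ RZ ζ, r = (1 - ζ) ^ k * (m + (1 - ζ) * t)) ∨
      ∃ t ∈ RZ ζ, r = (1 - ζ) ^ M * t := by
  induction M with
  | zero => exact Or.inr ⟨r, hr, by simp⟩
  | succ M ih =>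
    rcases ih with ⟨k, hk, m, hm, t, ht, e⟩ | ⟨t, ht, e⟩
    · exact Or.inl ⟨k, by omega, m, hm, t, ht, e⟩
    · rcases rz_casesp hp hζ ht with ⟨m, hm, t', ht', e'⟩ | ⟨t', ht', e'⟩
      · exact Or.inl ⟨M, by omega, m, hm, t', ht', by rw [e, e']⟩
      · exact Or.inr ⟨t', ht', by rw [e, e', pow_succ]; ring⟩

/-- `1 - ζ` is in all the primes above `p` -/
lemma pi_memp {p : ℕ} (hp : p.Prime) {ζ : ℂ} {b : ℕ} (hζ : IsPrimitiveRoot ζ (p ^ (b + 1)))
    {lam : Ideal (integralClosure ℤ ℂ)}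
    (hlam : lam.IsPrime) (h2 : (p : integralClosure ℤ ℂ) ∈ lam) {π : integralClosure ℤ ℂ}
    (hπ : (π : ℂ) = 1 - ζ) : π ∈ lam := by
  have h1 := lam_powp hp lam hlam h2 (b + 1) ⟨ζ, root_int (pow_pos hp.pos _) hζ.pow_eq_one⟩
    (Subtype.ext hζ.pow_eq_one)
  have e : π = -((⟨ζ, root_int (pow_pos hp.pos _) hζ.pow_eq_one⟩ : integralClosure ℤ ℂ) - 1) := by
    apply Subtype.ext
    push_cast
    rw [hπ]
    ring
  rw [e]
  exact lam.neg_mem h1

variable {Λ : Submodule ℤ ℂ} {𝔪 : Ideal (integralClosure ℤ ℂ)} {Fil : ℕ → Submodule ℤ ℂ}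

/-- **The ratio.** -/
theorem ratiop {p : ℕ} (hpp : p.Prime) (hF : FilX Λ 𝔪 Fil) (hp : 𝔪.IsPrime)
    (h2 : (p : integralClosure ℤ ℂ) ∈ 𝔪)
    {ζ : ℂ} {b : ℕ} (hζ : IsPrimitiveRoot ζ (p ^ (b + 1))) (hR : RZ ζ ≤ mulR Λ) {ω : ℂ}
    (hω : ω ∈ Λ) (a : ℕ)
    {j : ℤ} (hj : ¬ (p : ℤ) ∣ j) {M : ℕ} (hx0 : ((p : ℂ) ^ a * (j : ℂ)) * ω ∉ Fil M) {y : ℂ}
    (hy : y ∈ RZ ζ)
    {E E' : ℂ} (hE : E ∈ mulR Λ) (hE' : E' ∈ mulR Λ) {X X' : integralClosure ℤ ℂ}
    (hX : (X : ℂ) = E) (hX' : (X' : ℂ) = E') (hXm : X ∉ 𝔪) (hXm' : X' ∉ 𝔪)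
    (hc : E * (y * ω) - E' * (((p : ℂ) ^ a * (j : ℂ)) * ω) ∈ Fil M) :
    ∃ x : integralClosure ℤ ℂ, IsCoprime x p ∧ y = (p : ℂ) ^ a * x := by
  have hζ' := hζ.pow_eq_one
  have hpos : 0 < p ^ (b + 1) := pow_pos hpp.pos _
  obtain ⟨u, hu, v, hv, huv, h3⟩ := tw_p hpp hζ
  set f : ℕ := (primitiveRoots (p ^ (b + 1)) ℂ).card with hf
  set π : ℂ := 1 - ζ with hπ
  have hπR : π ∈ RZ ζ := Subalgebra.sub_mem _ (Subalgebra.one_mem _) (rz_self ζ)
  set N : ℕ := f * a with hN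
  have h2a : (p : ℂ) ^ a = π ^ N * u ^ a := by
    rw [h3, mul_pow, ← pow_mul]
  -- lifts
  set up : ∀ r ∈ RZ ζ, integralClosure ℤ ℂ := fun r hr => ⟨r, rz_intp hpos hζ' hr⟩ with hup
  have hupc : ∀ (r : ℂ) (hr : r ∈ RZ ζ), ((up r hr : integralClosure ℤ ℂ) : ℂ) = r :=
    fun r hr => rfl
  have hπm : ∀ lam : Ideal (integralClosure ℤ ℂ), lam.IsPrime →
      (p : integralClosure ℤ ℂ) ∈ lam → up π hπR ∈ lam := fun lam hlam h2 =>
    pi_memp hpp hζ hlam h2 (hupc π hπR)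
  have huv' : up u hu * up v hv = 1 := Subtype.ext huv
  have hun : ∀ lam : Ideal (integralClosure ℤ ℂ), lam.IsPrime → up u hu ∉ lam := by
    intro lam hlam h
    exact hlam.ne_top ((Ideal.eq_top_iff_one _).2 (by
      rw [← huv']
      exact lam.mul_mem_right _ h))
  have hvn : ∀ lam : Ideal (integralClosure ℤ ℂ), lam.IsPrime → up v hv ∉ lam := by
    intro lam hlam h
    exact hlam.ne_top ((Ideal.eq_top_iff_one _).2 (by
      rw [← huv']
      exact lam.mul_mem_left _ h))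
  have honep : ∀ lam : Ideal (integralClosure ℤ ℂ), lam.IsPrime →
      (p : integralClosure ℤ ℂ) ∈ lam → ∀ m : ℤ, ¬ (p : ℤ) ∣ m → ∀ t : integralClosure ℤ ℂ,
      (m : integralClosure ℤ ℂ) + up π hπR * t ∉ lam := by
    intro lam hlam h2 m hm t h
    have h4 := lam.sub_mem h (lam.mul_mem_right t (hπm lam hlam h2))
    rw [add_sub_cancel_right] at h4
    exact int_notMem hpp hm hlam h2 h4
  have hjm : ∀ lam : Ideal (integralClosure ℤ ℂ), lam.IsPrime →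
      (p : integralClosure ℤ ℂ) ∈ lam → (j : integralClosure ℤ ℂ) ∉ lam :=
    fun lam hlam h2 => int_notMem hpp hj hlam h2
  have hjR : (j : ℂ) ∈ RZ ζ := rz_cast ζ j
  rcases rz_decp hpp hζ (N + 1) hy with ⟨k, hk, m, hm, t, ht, e⟩ | ⟨t, ht, e⟩
  · rcases Nat.lt_or_ge k N with hkN | hkN
    · -- the value has too small a valuation
      exfalso
      obtain ⟨l, hl⟩ : ∃ l, N = k + 1 + l := ⟨N - k - 1, by omega⟩
      set s : ℂ := π ^ (l + 1) * u ^ a * j with hs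
      have hsR : s ∈ RZ ζ := Subalgebra.mul_mem _ (Subalgebra.mul_mem _
        (Subalgebra.pow_mem _ hπR _) (Subalgebra.pow_mem _ hu _)) hjR
      have h5 : ((p : ℂ) ^ a * (j : ℂ)) * ω = s * (π ^ k * ω) := by
        rw [h2a, hs, hl]
        ring
      set g : ℂ := E * (m + π * t) - E' * s with hg
      have hgR : g ∈ mulR Λ := Subalgebra.sub_mem _ (Subalgebra.mul_mem _ hE
        (hR (Subalgebra.add_mem _ (rz_cast ζ m) (Subalgebra.mul_mem _ hπR ht))))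
        (Subalgebra.mul_mem _ hE' (hR hsR))
      have h6 : π ^ k * ω ∈ Λ := hR (Subalgebra.pow_mem _ hπR _) ω hω
      have h7 : g * (π ^ k * ω) ∈ Fil M := by
        have h8 : g * (π ^ k * ω) = E * (y * ω) - E' * (((p : ℂ) ^ a * (j : ℂ)) * ω) := by
          rw [h5, e, hg]
          ring
        rw [h8]
        exact hc
      have h8 : π ^ k * ω ∈ Fil M := by
        refine hF.unit M g hgR ⟨X * ((m : integralClosure ℤ ℂ) + up π hπR * up t ht) -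
          X' * (up π hπR *
          (up π hπR ^ l * up u hu ^ a * (j : integralClosure ℤ ℂ))), ?_, ?_⟩ _ h6 h7
        · push_cast
          rw [hX, hX', hupc π hπR, hupc t ht, hupc u hu, hg, hs]
          ring
        · intro hmem
          have h9 := 𝔪.add_mem hmem (𝔪.mul_mem_left X' (𝔪.mul_mem_right
            (up π hπR ^ l * up u hu ^ a * (j : integralClosure ℤ ℂ)) (hπm 𝔪 hp h2)))
          rw [sub_add_cancel] at h9
          rcases hp.mem_or_mem h9 with h10 | h10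
          · exact hXm h10
          · exact honep 𝔪 hp h2 m hm _ h10
      apply hx0
      rw [h5]
      exact hF.mul M s (hR hsR) _ h8
    · -- equal valuations
      have hkN' : k = N := by omega
      subst hkN'
      refine ⟨up v hv ^ a * ((m : integralClosure ℤ ℂ) + up π hπR * up t ht),
        cop_p fun lam hlam hl2 hx => ?_, ?_⟩
      · rcases hlam.mem_or_mem hx with h10 | h10
        · exact hvn lam hlam (hlam.mem_of_pow_mem _ h10)
        · exact honep lam hlam hl2 m hm _ h10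
      · push_cast
        rw [hupc π hπR, hupc t ht, hupc v hv, e, h2a]
        have h11 : u ^ a * v ^ a = 1 := by rw [← mul_pow, huv, one_pow]
        linear_combination (-(π ^ N * (m + π * t))) * h11
  · -- too large a valuation
    exfalso
    set s : ℂ := u ^ a * j with hs
    have hsR : s ∈ RZ ζ := Subalgebra.mul_mem _ (Subalgebra.pow_mem _ hu _) hjR
    have h5 : ((p : ℂ) ^ a * (j : ℂ)) * ω = s * (π ^ N * ω) := by
      rw [h2a, hs]
      ring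
    set g : ℂ := E' * s - E * (π * t) with hg
    have hgR : g ∈ mulR Λ := Subalgebra.sub_mem _ (Subalgebra.mul_mem _ hE' (hR hsR))
      (Subalgebra.mul_mem _ hE (hR (Subalgebra.mul_mem _ hπR ht)))
    have h6 : π ^ N * ω ∈ Λ := hR (Subalgebra.pow_mem _ hπR _) ω hω
    have h7 : g * (π ^ N * ω) ∈ Fil M := by
      have h8 : g * (π ^ N * ω) = -(E * (y * ω) - E' * (((p : ℂ) ^ a * (j : ℂ)) * ω)) := by
        rw [h5, e, hg]
        ring
      rw [h8]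
      exact Submodule.neg_mem _ hc
    have h8 : π ^ N * ω ∈ Fil M := by
      refine hF.unit M g hgR ⟨X' * (up u hu ^ a * (j : integralClosure ℤ ℂ)) -
        X * (up π hπR * up t ht), ?_, ?_⟩ _ h6 h7
      · push_cast
        rw [hX, hX', hupc π hπR, hupc t ht, hupc u hu, hg, hs]
      · intro hmem
        have h9 := 𝔪.add_mem hmem (𝔪.mul_mem_left X (𝔪.mul_mem_right (up t ht) (hπm 𝔪 hp h2)))
        rw [sub_add_cancel] at h9
        rcases hp.mem_or_mem h9 with h10 | h10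
        · exact hXm' h10
        · rcases hp.mem_or_mem h10 with h11 | h11
          · exact hun 𝔪 hp (hp.mem_of_pow_mem _ h11)
          · exact hjm 𝔪 hp h2 h11
    apply hx0
    rw [h5]
    exact hF.mul M s (hR hsR) _ h8

end Pool.Agent.H92P
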