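import Pool.Graph.R_pool_sql_team_seeded_b677cdb8.E8helper21.FixP
import Pool.Graph.R_seed8.Y125.DQ.Abs
import Pool.Graph.R_seed8.Y809.BS.Inv

/-!
# From the classes over a number field `k` to the `p`-extension `K`: no point of order `p`,
divisible points.  (A version over `k` of the argument of E8helper21 over the rational numbers.)
-/

set_option autoImplicit false
set_option linter.all false

open NumberField IsDedekindDomain WithZero WeierstrassCurve WeierstrassCurve.Affine Polynomial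
open scoped Classical

namespace Pool.Agent.H92P

open Pool.Agent.TH115.GD hiding sh
open Pool.Agent.E8helper21 (exists_fixedP finite_p div_of_card tors_of_card)
open Pool.Agent.Y125.DQ
open Pool.Agent.Y809.BS (tw tw_coc tw_one tw_mul tw_inner galK galL exists_place conj_loc
  cj cj_spec cj_unique cj_mul cj_one loc_zero' loc_congr)

section
variable (k K : Type) [Field k] [NumberField k] [Field K] [NumberField K] [Algebra k K]

theorem presK [IsGalois k K] : Preserves k K (AlgebraicClosure K) := fun τ x =>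
  ⟨τ.restrictNormal K x, (AlgEquiv.restrictNormal_commutes τ K x).symm⟩

instance galk : IsGalois k (AlgebraicClosure K) := by
  haveI : Algebra.IsAlgebraic k (AlgebraicClosure K) :=
    Algebra.IsAlgebraic.trans k K (AlgebraicClosure K)
  haveI : IsAlgClosure k (AlgebraicClosure K) := ⟨inferInstance, inferInstance⟩
  haveI : Normal k (AlgebraicClosure K) := IsAlgClosure.normal k _
  exact ⟨⟩

end

theorem fix_gen {k E Ω : Type*} [Field k] [Field E] [Field Ω] [Algebra k E] [Algebra k Ω]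
    (i : E →ₐ[k] Ω) {α : E} (hα : IntermediateField.adjoin k {α} = ⊤) (ρ : Ω →ₐ[k] Ω)
    (h : ρ (i α) = i α) (y : E) : ρ (i y) = i y := by
  have hy : y ∈ (⊤ : IntermediateField k E) := trivial
  rw [← hα] at hy
  refine IntermediateField.adjoin_induction k
    (p := fun y _ => ρ (i y) = i y) ?_ ?_ ?_ ?_ ?_ hy
  · intro y hy
    rw [Set.mem_singleton_iff] at hy
    subst hy
    exact h
  · intro y
    rw [AlgHom.commutes, AlgHom.commutes]
  · intro x y _ _ hx hy
    rw [map_add, map_add, hx, hy]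
  · intro x _ hx
    rw [map_inv₀, map_inv₀, hx]
  · intro x y _ _ hx hy
    rw [map_mul, map_mul, hx, hy]

section

variable {k K : Type} [Field k] [NumberField k] [Field K] [NumberField K] [Algebra k K]
  {V : WeierstrassCurve k}

/-- A cocycle of the Galois group of `k` is locally constant if its restriction to `K` is so. -/
theorem lc_of {g : (AlgebraicClosure K ≃ₐ[k] AlgebraicClosure K) → Pt V (AlgebraicClosure K)}
    (hmul : ∀ σ τ, g (σ * τ) = g σ + act V (ak σ) (g τ))
    (h : IsLocallyConstant fun σ : AlgebraicClosure K ≃ₐ[K] AlgebraicClosure K =>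
      g (σ.restrictScalars k)) : IsLocallyConstant g := by
  have hopen : {σ : AlgebraicClosure K ≃ₐ[K] AlgebraicClosure K | g (σ.restrictScalars k) = 0} ∈
      nhds (1 : AlgebraicClosure K ≃ₐ[K] AlgebraicClosure K) :=
    (h.isOpen_fiber 0).mem_nhds (coc_one hmul)
  obtain ⟨E, hE, hEs⟩ := (krullTopology_mem_nhds_one_iff K (AlgebraicClosure K) _).1 hopen
  haveI : Algebra.IsSeparable K E := inferInstance
  obtain ⟨α, hα⟩ := Field.exists_primitive_element K E
  obtain ⟨β, hβ⟩ := Field.exists_primitive_element k K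
  have hgen : ∀ ρ : AlgebraicClosure K ≃ₐ[K] AlgebraicClosure K, ρ (α : AlgebraicClosure K) = α →
      g (ρ.restrictScalars k) = 0 := by
    intro ρ hρ
    apply hEs
    show ρ ∈ E.fixingSubgroup
    rw [IntermediateField.mem_fixingSubgroup_iff]
    intro x hx
    exact fix_gen E.val hα ρ.toAlgHom hρ ⟨x, hx⟩
  set U : Set (AlgebraicClosure K ≃ₐ[k] AlgebraicClosure K) :=
    (MulAction.stabilizer (AlgebraicClosure K ≃ₐ[k] AlgebraicClosure K) (α : AlgebraicClosure K) :
      Set (AlgebraicClosure K ≃ₐ[k] AlgebraicClosure K)) ∩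
    (MulAction.stabilizer (AlgebraicClosure K ≃ₐ[k] AlgebraicClosure K)
      (algebraMap K (AlgebraicClosure K) β) :
      Set (AlgebraicClosure K ≃ₐ[k] AlgebraicClosure K)) with hU
  haveI : Algebra.IsAlgebraic k (AlgebraicClosure K) :=
    Algebra.IsAlgebraic.trans k K (AlgebraicClosure K)
  have hUopen : IsOpen U :=
    (stabilizer_isOpen_of_isIntegral (K := k) (α : AlgebraicClosure K)).inter
      (stabilizer_isOpen_of_isIntegral (K := k) (algebraMap K (AlgebraicClosure K) β))
  have hU0 : ∀ τ ∈ U, g τ = 0 := by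
    rintro τ ⟨h1, h2⟩
    have h3 : τ (algebraMap K (AlgebraicClosure K) β) = algebraMap K (AlgebraicClosure K) β := h2
    have h4 : ∀ x : K, τ (algebraMap K (AlgebraicClosure K) x) =
        algebraMap K (AlgebraicClosure K) x := fun x =>
      fix_gen (IsScalarTower.toAlgHom k K (AlgebraicClosure K)) hβ τ.toAlgHom h3 x
    exact hgen (AlgEquiv.ofRingEquiv (f := τ.toRingEquiv) h4) h1
  rw [IsLocallyConstant.iff_exists_open]
  intro τ
  refine ⟨(fun x => τ⁻¹ * x) ⁻¹' U, hUopen.preimage (continuous_const.mul continuous_id), ?_, ?_⟩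
  · show τ⁻¹ * τ ∈ U
    rw [inv_mul_cancel]
    exact ⟨(MulAction.stabilizer _ _).one_mem, (MulAction.stabilizer _ _).one_mem⟩
  · intro τ' hτ'
    have h1 : τ' = τ * (τ⁻¹ * τ') := by group
    rw [h1, hmul, hU0 _ hτ', map_zero, add_zero]

variable (K V)

/-- The classes over `k` killed by `p` and locally trivial over `K` are trivial. -/
def ExtP (p : ℕ) : Prop :=
  ∀ g : (AlgebraicClosure K ≃ₐ[k] AlgebraicClosure K) → Pt V (AlgebraicClosure K),
    IsLocallyConstant g → (∀ σ τ, g (σ * τ) = g σ + act V (ak σ) (g τ)) →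
    (∃ Q : Pt V (AlgebraicClosure K), ∀ σ : AlgebraicClosure K ≃ₐ[k] AlgebraicClosure K,
      p • g σ = act V (ak σ) Q - Q) →
    (∀ v : HeightOneSpectrum (𝓞 K),
      LocTriv V (v.adicCompletion K) (AlgebraicClosure (v.adicCompletion K))
        (fun σ : AlgebraicClosure K ≃ₐ[K] AlgebraicClosure K => g (σ.restrictScalars k))) →
    ∃ T : Pt V (AlgebraicClosure K), ∀ σ : AlgebraicClosure K ≃ₐ[k] AlgebraicClosure K,
      g σ = act V (ak σ) T - T

/-- the points over `K` -/
noncomputable def EK : AddSubgroup (Pt V (AlgebraicClosure K)) where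
  carrier := {P | ∀ σ : AlgebraicClosure K ≃ₐ[K] AlgebraicClosure K, act V (rs k σ) P = P}
  zero_mem' := fun σ => map_zero _
  add_mem' := fun {P Q} hP hQ σ => by rw [map_add, hP σ, hQ σ]
  neg_mem' := fun {P} hP σ => by rw [map_neg, hP σ]

variable {K V}

theorem mem_EK {P : Pt V (AlgebraicClosure K)} : P ∈ EK K V ↔
    ∀ σ : AlgebraicClosure K ≃ₐ[K] AlgebraicClosure K, act V (rs k σ) P = P := Iff.rfl

variable (K V) in
/-- the rational points -/
noncomputable def Ek : AddSubgroup (Pt V (AlgebraicClosure K)) where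
  carrier := {P | ∀ τ : AlgebraicClosure K ≃ₐ[k] AlgebraicClosure K, act V (ak τ) P = P}
  zero_mem' := fun σ => map_zero _
  add_mem' := fun {P Q} hP hQ σ => by rw [map_add, hP σ, hQ σ]
  neg_mem' := fun {P} hP σ => by rw [map_neg, hP σ]

theorem Ek_le : Ek K V ≤ EK K V := fun P hP σ => hP (σ.restrictScalars k)

theorem exists_Ek : Nonempty (Pt V k ≃ Ek K V) := by
  have h : ∀ (τ : AlgebraicClosure K ≃ₐ[k] AlgebraicClosure K) (P0 : Pt V k),
      act V (ak τ) (act V (incl k k (AlgebraicClosure K)) P0) =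
      act V (incl k k (AlgebraicClosure K)) P0 := by
    intro τ P0
    rw [act_act]
    refine act_congr V (fun x => ?_) P0
    show τ (algebraMap k _ x) = algebraMap k _ x
    exact τ.commutes x
  refine ⟨Equiv.ofBijective (fun P0 => ⟨act V (incl k k (AlgebraicClosure K)) P0,
    fun τ => h τ P0⟩) ⟨fun P Q hPQ => ?_, fun P => ?_⟩⟩
  · exact act_inj V (incl k k (AlgebraicClosure K)) (congrArg Subtype.val hPQ)
  · obtain ⟨P0, hP0⟩ := fixed_point (K := k) (F := k) V P.1
      (fun τ => (act_congr V (fun x => rfl) P.1).trans (P.2 τ))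
    exact ⟨P0, Subtype.ext hP0⟩

theorem exists_EK : Nonempty (Pt V K ≃ EK K V) := by
  refine ⟨Equiv.ofBijective (fun P0 => ⟨act V (incl k K (AlgebraicClosure K)) P0,
    fun τ => rs_act_incl V τ P0⟩) ⟨fun P Q hPQ => ?_, fun P => ?_⟩⟩
  · exact act_inj V (incl k K (AlgebraicClosure K)) (congrArg Subtype.val hPQ)
  · obtain ⟨P0, hP0⟩ := fixed_point (K := k) (F := K) V P.1 P.2
    exact ⟨P0, Subtype.ext hP0⟩

variable [IsGalois k K]

theorem comm_cj (τ : AlgebraicClosure K ≃ₐ[k] AlgebraicClosure K)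
    (σ : AlgebraicClosure K ≃ₐ[K] AlgebraicClosure K) (P : Pt V (AlgebraicClosure K)) :
    act V (ak τ) (act V (rs k (cj (presK k K) τ σ)) P) = act V (rs k σ) (act V (ak τ) P) := by
  have e : (ak τ).comp (rs k (cj (presK k K) τ σ)) = (rs k σ).comp (ak τ) :=
    AlgHom.ext fun x => cj_spec (presK k K) τ σ x
  rw [act_act, act_act, e]

theorem act_mem_EK (τ : AlgebraicClosure K ≃ₐ[k] AlgebraicClosure K)
    {P : Pt V (AlgebraicClosure K)} (hP : P ∈ EK K V) : act V (ak τ) P ∈ EK K V := by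
  intro σ
  rw [← comm_cj, hP]

theorem act_mul' (σ τ : AlgebraicClosure K ≃ₐ[k] AlgebraicClosure K)
    (P : Pt V (AlgebraicClosure K)) : act V (ak (σ * τ)) P = act V (ak σ) (act V (ak τ) P) := by
  rw [act_act]
  rfl

theorem act_one' (P : Pt V (AlgebraicClosure K)) :
    act V (ak (1 : AlgebraicClosure K ≃ₐ[k] AlgebraicClosure K)) P = P :=
  Pool.Agent.Y809.BS.act_one V P

theorem isPG {p n : ℕ} (hn : Module.finrank k K = p ^ n) : IsPGroup p (K ≃ₐ[k] K) := by
  apply IsPGroup.of_card (n := n)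
  rw [← hn]
  exact IsGalois.card_aut_eq_finrank k K

theorem of_one {τ : AlgebraicClosure K ≃ₐ[k] AlgebraicClosure K}
    (hτ : (AlgEquiv.restrictNormalHom K : (AlgebraicClosure K ≃ₐ[k] AlgebraicClosure K) →*
      (K ≃ₐ[k] K)) τ = 1) :
    ∃ σ0 : AlgebraicClosure K ≃ₐ[K] AlgebraicClosure K, σ0.restrictScalars k = τ := by
  have h1 : ∀ x : K, τ (algebraMap K (AlgebraicClosure K) x) =
      algebraMap K (AlgebraicClosure K) x := by
    intro x
    have h3 := AlgEquiv.restrictNormal_commutes τ K x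
    have h4 : τ.restrictNormal K = 1 := hτ
    rw [h4] at h3
    exact h3.symm
  exact ⟨AlgEquiv.ofRingEquiv (f := τ.toRingEquiv) h1, AlgEquiv.ext fun x => rfl⟩

theorem act_one_of {τ : AlgebraicClosure K ≃ₐ[k] AlgebraicClosure K}
    (hτ : (AlgEquiv.restrictNormalHom K : (AlgebraicClosure K ≃ₐ[k] AlgebraicClosure K) →*
      (K ≃ₐ[k] K)) τ = 1) {P : Pt V (AlgebraicClosure K)} (hP : P ∈ EK K V) :
    act V (ak τ) P = P := by
  obtain ⟨σ0, rfl⟩ := of_one hτ
  exact hP σ0

/-- There is no point of order `p` over `K`. -/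
theorem tors_K {p n : ℕ} (hp : p.Prime) (hn : Module.finrank k K = p ^ n) [Finite (Ek K V)]
    (hc : ¬ p ∣ Nat.card (Ek K V)) {P : Pt V (AlgebraicClosure K)} (hP : P ∈ EK K V)
    (hpP : p • P = 0) : P = 0 := by
  by_contra h0
  let A : AddSubgroup (Pt V (AlgebraicClosure K)) :=
    { carrier := {P | P ∈ EK K V ∧ p • P = 0}
      zero_mem' := ⟨(EK K V).zero_mem, smul_zero _⟩
      add_mem' := fun {P Q} hP hQ => ⟨(EK K V).add_mem hP.1 hQ.1, by rw [smul_add, hP.2, hQ.2, add_zero]⟩
      neg_mem' := fun {P} hP => ⟨(EK K V).neg_mem hP.1, by rw [smul_neg, hP.2, neg_zero]⟩ }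
  let T : (AlgebraicClosure K ≃ₐ[k] AlgebraicClosure K) → A →+ A := fun τ =>
    { toFun := fun P => ⟨act V (ak τ) P.1, act_mem_EK τ P.2.1, by
        rw [← map_nsmul, P.2.2, map_zero]⟩
      map_zero' := Subtype.ext (map_zero (act V (ak τ)))
      map_add' := fun P Q => Subtype.ext (map_add (act V (ak τ)) P.1 Q.1) }
  have hT : ∀ τ (P : A), ((T τ P : A) : Pt V (AlgebraicClosure K)) = act V (ak τ) P.1 :=
    fun τ P => rfl
  obtain ⟨a, ha, hfix⟩ := exists_fixedP hp (isPG hn)
    (AlgEquiv.restrictNormalHom K : (AlgebraicClosure K ≃ₐ[k] AlgebraicClosure K) →* (K ≃ₐ[k] K))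
    (⊥ : AddSubgroup A) T (fun a => Subtype.ext (act_one' a.1))
    (fun g h a => Subtype.ext (act_mul' g h a.1))
    (by
      intro g b hb
      rw [AddSubgroup.mem_bot] at hb ⊢
      rw [hb, map_zero])
    (by
      intro g hg a
      rw [AddSubgroup.mem_bot, sub_eq_zero]
      exact Subtype.ext (act_one_of hg a.2.1))
    (by
      intro a
      rw [AddSubgroup.mem_bot]
      exact Subtype.ext a.2.2)
    (a0 := ⟨P, hP, hpP⟩) (by
      rw [AddSubgroup.mem_bot]
      intro h
      exact h0 (congrArg Subtype.val h))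
  rw [AddSubgroup.mem_bot] at ha
  have h2 : a.1 ∈ Ek K V := by
    intro τ
    have := hfix τ
    rw [AddSubgroup.mem_bot, sub_eq_zero] at this
    exact congrArg Subtype.val this
  have h1 : (⟨a.1, h2⟩ : Ek K V) = 0 := tors_of_card hp hc (Subtype.ext a.2.2)
  have h3 : a.1 = 0 := congrArg Subtype.val h1
  exact ha (Subtype.ext h3)

/-- The points over `K` are divisible by `p`. -/
theorem div_K {p n : ℕ} (hp : p.Prime) (hn : Module.finrank k K = p ^ n) [Finite (Ek K V)]
    (hc : ¬ p ∣ Nat.card (Ek K V)) (hE : ExtP K V p) {P : Pt V (AlgebraicClosure K)}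
    (hP : P ∈ EK K V) : ∃ R ∈ EK K V, p • R = P := by
  by_contra hno
  let B : AddSubgroup (EK K V) :=
    { carrier := {P | ∃ R ∈ EK K V, p • R = P.1}
      zero_mem' := ⟨0, (EK K V).zero_mem, smul_zero _⟩
      add_mem' := by
        rintro P Q ⟨R, hR, h1⟩ ⟨S, hS, h2⟩
        exact ⟨R + S, (EK K V).add_mem hR hS, by rw [smul_add, h1, h2]; rfl⟩
      neg_mem' := by
        rintro P ⟨R, hR, h1⟩
        exact ⟨-R, (EK K V).neg_mem hR, by rw [smul_neg, h1]; rfl⟩ }
  let T : (AlgebraicClosure K ≃ₐ[k] AlgebraicClosure K) → EK K V →+ EK K V := fun τ =>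
    { toFun := fun P => ⟨act V (ak τ) P.1, act_mem_EK τ P.2⟩
      map_zero' := Subtype.ext (map_zero (act V (ak τ)))
      map_add' := fun P Q => Subtype.ext (map_add (act V (ak τ)) P.1 Q.1) }
  obtain ⟨a, ha, hfix⟩ := exists_fixedP hp (isPG hn)
    (AlgEquiv.restrictNormalHom K : (AlgebraicClosure K ≃ₐ[k] AlgebraicClosure K) →* (K ≃ₐ[k] K))
    B T (fun a => Subtype.ext (act_one' a.1))
    (fun g h a => Subtype.ext (act_mul' g h a.1))
    (by
      rintro g b ⟨R, hR, h1⟩
      refine ⟨act V (ak g) R, act_mem_EK g hR, ?_⟩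
      rw [← map_nsmul, h1]
      rfl)
    (by
      intro g hg a
      have h1 : T g a - a = 0 := by
        rw [sub_eq_zero]
        exact Subtype.ext (act_one_of hg a.2)
      rw [h1]
      exact B.zero_mem)
    (fun a => ⟨a.1, a.2, rfl⟩)
    (a0 := ⟨P, hP⟩) (by
      rintro ⟨R, hR, h1⟩
      exact hno ⟨R, hR, h1⟩)
  -- the cocycle
  let D : Pt V (AlgebraicClosure K) → Pt V (AlgebraicClosure K) := fun X =>
    if h : ∃ S ∈ EK K V, p • S = X then h.choose else 0
  have hD : ∀ S ∈ EK K V, D (p • S) = S := by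
    intro S hS
    have h : ∃ S' ∈ EK K V, p • S' = p • S := ⟨S, hS, rfl⟩
    have h1 : D (p • S) = h.choose := dif_pos h
    rw [h1]
    have h2 := h.choose_spec
    rw [← sub_eq_zero]
    refine tors_K hp hn hc ((EK K V).sub_mem h2.1 hS) ?_
    rw [smul_sub, h2.2, sub_self]
  set g : (AlgebraicClosure K ≃ₐ[k] AlgebraicClosure K) → Pt V (AlgebraicClosure K) :=
    fun τ => D (act V (ak τ) a.1 - a.1) with hg
  have hS : ∀ τ, g τ ∈ EK K V ∧ p • g τ = act V (ak τ) a.1 - a.1 := by
    intro τ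
    obtain ⟨S, hS1, hS2⟩ := hfix τ
    have h1 : act V (ak τ) a.1 - a.1 = p • S := hS2.symm
    have h2 : g τ = S := by
      rw [hg]
      show D (act V (ak τ) a.1 - a.1) = S
      rw [h1, hD S hS1]
    rw [h2]
    exact ⟨hS1, h1.symm⟩
  have hlc : IsLocallyConstant g := by
    have h1 := (cob_isCoc (K := k) (F := k) V a.1).lc.comp D
    exact h1
  have hmul : ∀ σ τ, g (σ * τ) = g σ + act V (ak σ) (g τ) := by
    intro σ τ
    rw [← sub_eq_zero]
    refine tors_K hp hn hc ((EK K V).sub_mem (hS _).1 ((EK K V).add_mem (hS σ).1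
      (act_mem_EK σ (hS τ).1))) ?_
    rw [smul_sub, smul_add, ← map_nsmul, (hS _).2, (hS σ).2, (hS τ).2, map_sub, act_mul']
    abel
  have hrs : ∀ σ : AlgebraicClosure K ≃ₐ[K] AlgebraicClosure K, g (σ.restrictScalars k) = 0 := by
    intro σ
    refine tors_K hp hn hc (hS _).1 ?_
    rw [(hS _).2, sub_eq_zero]
    exact a.2 σ
  obtain ⟨R, hR⟩ := hE g hlc hmul ⟨a.1, fun σ => (hS σ).2⟩
    (fun v =>
    loc_congr (loc_zero' V) fun σ => (hrs σ).symm)
  have hRK : R ∈ EK K V := by
    intro σ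
    have h1 := hR (σ.restrictScalars k)
    rw [hrs] at h1
    exact (sub_eq_zero.1 h1.symm)
  have hQ : a.1 - p • R ∈ Ek K V := by
    intro τ
    have h1 := (hS τ).2
    rw [hR, smul_sub, ← map_nsmul] at h1
    rw [map_sub]
    have h2 : act V (ak τ) a.1 = a.1 + (act V (ak τ) (p • R) - p • R) := by
      rw [h1]; abel
    rw [h2]
    abel
  obtain ⟨P1, hP1⟩ := div_of_card hp hc (⟨_, hQ⟩ : Ek K V)
  apply ha
  refine ⟨R + P1.1, (EK K V).add_mem hRK (Ek_le P1.2), ?_⟩
  have h2 : p • P1.1 = a.1 - p • R := congrArg Subtype.val hP1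
  rw [smul_add, h2]
  abel

end

end Pool.Agent.H92P
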