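import Pool.Agent.H92P.Gk

/-!
# From the classes over the number field `k` to the field `K`: the Tate-Shafarevich group
-/

set_option autoImplicit false
set_option linter.all false

open NumberField IsDedekindDomain WithZero WeierstrassCurve WeierstrassCurve.Affine Polynomial
open scoped Classical

namespace Pool.Agent.H92P

open Pool.Agent.TH115.GD hiding sh
open Pool.Agent.E8helper21 (exists_fixedP finite_p div_of_card tors_of_card)
open Pool.Agent.Y125.DQ
open Pool.Agent.Y809.BS (tw tw_coc tw_one tw_mul tw_inner galK galL exists_place conj_loc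
  cj cj_spec cj_unique cj_mul cj_one loc_zero' loc_congr)

section

variable {k : Type} (K : Type) [Field k] [NumberField k] [Field K] [NumberField K] [Algebra k K]
  (V : WeierstrassCurve k) (p : ℕ)

/-- The cocycles over `K` which are locally trivial and killed by `p` up to coboundaries. -/
structure IsShaP (f : (AlgebraicClosure K ≃ₐ[K] AlgebraicClosure K) → Pt V (AlgebraicClosure K)) :
    Prop where
  coc : IsCoc V f
  tors : ∃ Q : Pt V (AlgebraicClosure K), ∀ σ : AlgebraicClosure K ≃ₐ[K] AlgebraicClosure K,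
    p • f σ = act V (rs k σ) Q - Q
  loc : ∀ v : HeightOneSpectrum (𝓞 K),
    LocTriv V (v.adicCompletion K) (AlgebraicClosure (v.adicCompletion K)) f

/-- The group of these cocycles. -/
noncomputable def shaP : AddSubgroup
    ((AlgebraicClosure K ≃ₐ[K] AlgebraicClosure K) → Pt V (AlgebraicClosure K)) where
  carrier := {f | IsShaP K V p f}
  zero_mem' := ⟨⟨IsLocallyConstant.const _, fun σ τ => by
      show (0 : Pt V (AlgebraicClosure K)) = 0 + act V (rs k σ) 0
      rw [map_zero, add_zero]⟩, ⟨0, fun σ => by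
      show p • (0 : Pt V (AlgebraicClosure K)) = _
      rw [map_zero, sub_zero, smul_zero]⟩, fun v => loc_zero' V⟩
  add_mem' := fun {f g} hf hg => ⟨⟨hf.coc.lc.add hg.coc.lc, fun σ τ => by
      show f (σ * τ) + g (σ * τ) = f σ + g σ + act V (rs k σ) (f τ + g τ)
      rw [hf.coc.mul, hg.coc.mul, map_add]
      abel⟩, by
      obtain ⟨Q, hQ⟩ := hf.tors
      obtain ⟨R, hR⟩ := hg.tors
      refine ⟨Q + R, fun σ => ?_⟩
      show p • (f σ + g σ) = _
      rw [smul_add, hQ, hR, map_add]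
      abel, fun v => LocTriv.add V hg.coc (hf.loc v) (hg.loc v)⟩
  neg_mem' := fun {f} hf => ⟨⟨hf.coc.lc.neg, fun σ τ => by
      show -f (σ * τ) = -f σ + act V (rs k σ) (-f τ)
      rw [hf.coc.mul, map_neg]
      abel⟩, by
      obtain ⟨Q, hQ⟩ := hf.tors
      refine ⟨-Q, fun σ => ?_⟩
      show p • (-f σ) = _
      rw [smul_neg, hQ, map_neg]
      abel, fun v => loc_congr (LocTriv.smul V (hf.loc v) (-1)) (fun σ => by
      show (-1 : ℤ) • f σ = - f σ
      rw [neg_smul, one_smul])⟩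

/-- The coboundaries. -/
noncomputable def cobP : AddSubgroup (shaP K V p) where
  carrier := {f | ∃ T : Pt V (AlgebraicClosure K),
    ∀ σ : AlgebraicClosure K ≃ₐ[K] AlgebraicClosure K, f.1 σ = act V (rs k σ) T - T}
  zero_mem' := ⟨0, fun σ => by
    show (0 : Pt V (AlgebraicClosure K)) = _
    rw [map_zero, sub_zero]⟩
  add_mem' := fun {f g} hf hg => by
    obtain ⟨T, h1⟩ := hf
    obtain ⟨S, h2⟩ := hg
    refine ⟨T + S, fun σ => ?_⟩
    show f.1 σ + g.1 σ = _
    rw [h1, h2, map_add]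
    abel
  neg_mem' := fun {f} hf => by
    obtain ⟨T, h1⟩ := hf
    refine ⟨-T, fun σ => ?_⟩
    show - f.1 σ = _
    rw [h1, map_neg]
    abel

variable {K V p}

variable [IsGalois k K]

theorem tw_shaP (τ : AlgebraicClosure K ≃ₐ[k] AlgebraicClosure K)
    {f : (AlgebraicClosure K ≃ₐ[K] AlgebraicClosure K) → Pt V (AlgebraicClosure K)}
    (hf : IsShaP K V p f) : IsShaP K V p (tw (presK k K) V τ f) := by
  refine ⟨tw_coc _ _ _ hf.coc, ?_, fun v => ?_⟩
  · obtain ⟨Q, hQ⟩ := hf.tors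
    refine ⟨act V (ak τ) Q, fun σ => ?_⟩
    show p • act V (ak τ) (f (cj (presK k K) τ σ)) = _
    rw [← map_nsmul, hQ, map_sub, comm_cj]
  · obtain ⟨u, j, hj⟩ := exists_place (τ.restrictNormal K).toRingEquiv v
    refine conj_loc (L := u.adicCompletion K) (Ω' := AlgebraicClosure (u.adicCompletion K)) V
      (presK k K) (τ.restrictNormal K).toRingEquiv τ
      (fun x => (AlgEquiv.restrictNormal_commutes τ K x).symm) j hj ?_ (hf.loc u)
    intro σ σ' h
    rw [cj_unique (presK k K) τ σ σ' h]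
    rfl

/-- The action on the cocycles. -/
noncomputable def twP (τ : AlgebraicClosure K ≃ₐ[k] AlgebraicClosure K) :
    shaP K V p →+ shaP K V p where
  toFun f := ⟨tw (presK k K) V τ f.1, tw_shaP τ f.2⟩
  map_zero' := Subtype.ext (by
    funext σ
    show act V (ak τ) 0 = 0
    rw [map_zero])
  map_add' f g := Subtype.ext (by
    funext σ
    show act V (ak τ) (f.1 _ + g.1 _) = _
    rw [map_add]
    rfl)

/-- Every class of order `p` which is locally trivial is trivial. -/
theorem sha_K {n : ℕ} (hp : p.Prime) (hn : Module.finrank k K = p ^ n) [Finite (EK K V)]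
    (hc : ¬ p ∣ Nat.card (EK K V)) (hE : ExtP K V p)
    {f : (AlgebraicClosure K ≃ₐ[K] AlgebraicClosure K) → Pt V (AlgebraicClosure K)}
    (hf : IsShaP K V p f) : ∃ T : Pt V (AlgebraicClosure K),
      ∀ σ : AlgebraicClosure K ≃ₐ[K] AlgebraicClosure K, f σ = act V (rs k σ) T - T := by
  by_contra hno
  obtain ⟨f, hfn, hfix⟩ := exists_fixedP hp (isPG hn)
    (AlgEquiv.restrictNormalHom K : (AlgebraicClosure K ≃ₐ[k] AlgebraicClosure K) →* (K ≃ₐ[k] K))
    (cobP K V p) twP
    (fun f => Subtype.ext (tw_one _ _ _)) (fun τ τ' f => Subtype.ext (tw_mul _ _ _ _ _))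
    (by
      rintro τ f ⟨T, h1⟩
      refine ⟨act V (ak τ) T, fun σ => ?_⟩
      show act V (ak τ) (f.1 (cj (presK k K) τ σ)) = _
      rw [h1, map_sub, comm_cj])
    (by
      intro τ hτ f
      obtain ⟨σ0, rfl⟩ := of_one hτ
      exact ⟨f.1 σ0, fun σ => tw_inner (presK k K) V σ0 f.2.coc σ⟩)
    (by
      intro f
      obtain ⟨Q, hQ⟩ := f.2.tors
      exact ⟨Q, fun σ => hQ σ⟩) (a0 := ⟨f, hf⟩) (by
      rintro ⟨T, hT⟩
      exact hno ⟨T, hT⟩)
  -- the multiple of the order of `E(K)` which is `1` modulo `p`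
  obtain ⟨u, v, huv⟩ : IsCoprime (p : ℤ) (Nat.card (EK K V) : ℤ) :=
    Nat.isCoprime_iff_coprime.2 ((Nat.Prime.coprime_iff_not_dvd hp).2 hc)
  set e : ℤ := v * (Nat.card (EK K V) : ℤ) with he
  have hkill : ∀ P ∈ EK K V, e • P = 0 := by
    intro P hP
    have h1 : Nat.card (EK K V) • (⟨P, hP⟩ : EK K V) = 0 := card_nsmul_eq_zero'
    have h2 : Nat.card (EK K V) • P = 0 := congrArg Subtype.val h1
    rw [he, mul_smul, natCast_zsmul, h2, smul_zero]
  have hkill' : ∀ P Q : Pt V (AlgebraicClosure K), P - Q ∈ EK K V → e • P = e • Q := by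
    intro P Q h
    rw [← sub_eq_zero, ← smul_sub]
    exact hkill _ h
  choose R hR using hfix
  have hR' : ∀ τ σ, act V (ak τ) (f.1 (cj (presK k K) τ σ)) - f.1 σ =
      act V (rs k σ) (R τ) - R τ := hR
  set g : (AlgebraicClosure K ≃ₐ[k] AlgebraicClosure K) → Pt V (AlgebraicClosure K) :=
    fun τ => e • R τ with hg
  have hgmul : ∀ σ τ, g (σ * τ) = g σ + act V (ak σ) (g τ) := by
    intro τ1 τ2
    show e • R (τ1 * τ2) = e • R τ1 + act V (ak τ1) (e • R τ2)
    rw [map_zsmul, ← smul_add]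
    apply hkill'
    intro σ
    have h1 := hR' (τ1 * τ2) σ
    have h2 := hR' τ1 σ
    have h3 := hR' τ2 (cj (presK k K) τ1 σ)
    have h4 : cj (presK k K) τ2 (cj (presK k K) τ1 σ) = cj (presK k K) (τ1 * τ2) σ :=
      Pool.Agent.Y809.BS.cj_cj _ _ _ _
    rw [h4] at h3
    have h5 := congrArg (act V (ak τ1)) h3
    rw [map_sub, map_sub, comm_cj, ← act_mul'] at h5
    rw [map_sub, map_add]
    have h6 : act V (rs k σ) (R (τ1 * τ2)) = act V (ak (τ1 * τ2)) (f.1 (cj (presK k K) (τ1 * τ2) σ)) -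
      f.1 σ + R (τ1 * τ2) := by rw [h1]; abel
    have h7 : act V (rs k σ) (R τ1) = act V (ak τ1) (f.1 (cj (presK k K) τ1 σ)) - f.1 σ + R τ1 := by
      rw [h2]; abel
    have h8 : act V (rs k σ) (act V (ak τ1) (R τ2)) =
      act V (ak (τ1 * τ2)) (f.1 (cj (presK k K) (τ1 * τ2) σ)) -
        act V (ak τ1) (f.1 (cj (presK k K) τ1 σ)) + act V (ak τ1) (R τ2) := by
      rw [h5]; abel
    rw [h6, h7, h8]
    abel
  have hgK : ∀ σ : AlgebraicClosure K ≃ₐ[K] AlgebraicClosure K,
      g (σ.restrictScalars k) = e • f.1 σ := by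
    intro σ0
    apply hkill'
    intro σ
    have h1 := hR' (σ0.restrictScalars k) σ
    have h2 := tw_inner (presK k K) V σ0 f.2.coc σ
    have h3 : act V (rs k σ) (R (σ0.restrictScalars k)) - R (σ0.restrictScalars k) =
      act V (rs k σ) (f.1 σ0) - f.1 σ0 := h1.symm.trans h2
    rw [map_sub]
    have h4 : act V (rs k σ) (R (σ0.restrictScalars k)) = (act V (rs k σ) (f.1 σ0) - f.1 σ0) +
      R (σ0.restrictScalars k) := by rw [← h3]; abel
    rw [h4]
    abel
  obtain ⟨Q, hQ⟩ := f.2.tors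
  have hgt : ∀ τ, p • g τ = act V (ak τ) (e • Q) - e • Q := by
    intro τ
    show p • e • R τ = _
    rw [smul_comm, map_zsmul, ← smul_sub]
    apply hkill'
    intro σ
    have h1 := congrArg (fun z => p • z) (hR' τ σ)
    simp only [smul_sub, ← map_nsmul] at h1
    rw [hQ, hQ, map_sub, comm_cj] at h1
    rw [map_sub, map_sub]
    have h2 : act V (rs k σ) (p • R τ) = act V (rs k σ) (act V (ak τ) Q) - act V (ak τ) Q -
      (act V (rs k σ) Q - Q) + p • R τ := by rw [h1]; abel
    rw [h2]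
    abel
  have hlc : IsLocallyConstant g := by
    refine lc_of hgmul ?_
    have h1 : (fun σ : AlgebraicClosure K ≃ₐ[K] AlgebraicClosure K => g (σ.restrictScalars k)) =
        fun σ => e • f.1 σ := funext hgK
    rw [h1]
    exact f.2.coc.lc.comp (fun x => e • x)
  obtain ⟨T, hT⟩ := hE g hlc hgmul ⟨e • Q, hgt⟩
    (fun w =>
    loc_congr (LocTriv.smul V (f.2.loc w) e) fun σ => (hgK σ).symm)
  apply hfn
  refine ⟨T + u • Q, fun σ => ?_⟩
  have h1 : f.1 σ = e • f.1 σ + u • (p • f.1 σ) := by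
    rw [← natCast_zsmul (f.1 σ) p, ← mul_smul, ← add_smul, he, add_comm, huv, one_smul]
  rw [h1, ← hgK, hT, hQ, map_add, map_zsmul, smul_sub]
  have h2 : act V (ak (σ.restrictScalars k)) T = act V (rs k σ) T := rfl
  rw [h2]
  abel

end

end Pool.Agent.H92P
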