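import Pool.Agent.H92P.Cmp
import Pool.Graph.R_seed8.Y125.DQ.Main

/-!
# The arithmetic of `V` over the field `K` of degree a power of `p`
-/

set_option autoImplicit false
set_option linter.all false

open NumberField IsDedekindDomain WithZero WeierstrassCurve WeierstrassCurve.Affine Polynomial
open scoped Classical

namespace Pool.Agent.H92P

open Pool.Agent.TH115.GD hiding sh
open Pool.Agent.E8helper21 (exists_fixedP finite_p div_of_card tors_of_card castPt castPt_some)
open Pool.Agent.Y125.DQ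
open Pool.Agent.Y809.BS (galK galL)

/-! ### The infinite places -/

/-- the algebraic closure of the completion at an infinite place -/
theorem exists_phi' {k : Type} [Field k] [NumberField k] (v : InfinitePlace k) :
    ∃ φ : AlgebraicClosure v.Completion →+* ℂ,
    ∀ τ : AlgebraicClosure v.Completion ≃ₐ[v.Completion] AlgebraicClosure v.Completion,
      (∀ x, φ (τ x) = φ x) ∨ ∀ x, φ (τ x) = star (φ x) := by
  rcases v.isReal_or_isComplex with hv | hv
  · let r : v.Completion ≃+* ℝ := InfinitePlace.Completion.ringEquivRealOfIsReal hv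
    letI : Algebra v.Completion ℝ := r.toRingHom.toAlgebra
    letI : Algebra v.Completion ℂ := ((algebraMap ℝ ℂ).comp r.toRingHom).toAlgebra
    haveI : IsScalarTower v.Completion ℝ ℂ := IsScalarTower.of_algebraMap_eq fun x => rfl
    haveI : Algebra.IsAlgebraic v.Completion ℝ := ⟨fun y => by
      obtain ⟨x, rfl⟩ := r.surjective y
      exact isAlgebraic_algebraMap x⟩
    haveI : Algebra.IsAlgebraic v.Completion ℂ := Algebra.IsAlgebraic.trans v.Completion ℝ ℂ
    haveI : IsAlgClosure v.Completion ℂ := ⟨inferInstance, inferInstance⟩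
    let φ : AlgebraicClosure v.Completion ≃ₐ[v.Completion] ℂ := IsAlgClosure.equiv v.Completion _ _
    refine ⟨φ.toRingEquiv.toRingHom, fun τ => ?_⟩
    let ψ : ℂ →ₐ[ℝ] ℂ := {
      (φ.toRingEquiv.toRingHom.comp τ.toRingEquiv.toRingHom).comp φ.symm.toRingEquiv.toRingHom with
      commutes' := fun x => by
        obtain ⟨y, rfl⟩ := r.surjective x
        show φ (τ (φ.symm (algebraMap v.Completion ℂ y))) = algebraMap v.Completion ℂ y
        rw [φ.symm.commutes, τ.commutes, φ.commutes] }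
    have hψ : ∀ x, φ (τ x) = ψ (φ x) := fun x => by
      show φ (τ x) = φ (τ (φ.symm (φ x)))
      rw [AlgEquiv.symm_apply_apply]
    rcases Complex.real_algHom_eq_id_or_conj ψ with h | h
    · left
      intro x
      show φ (τ x) = φ x
      rw [hψ, h]
      rfl
    · right
      intro x
      show φ (τ x) = star (φ x)
      rw [hψ, h]
      rfl
  · let r : v.Completion ≃+* ℂ := InfinitePlace.Completion.ringEquivComplexOfIsComplex hv
    letI : Algebra v.Completion ℂ := r.toRingHom.toAlgebra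
    haveI : Algebra.IsAlgebraic v.Completion ℂ := ⟨fun y => by
      obtain ⟨x, rfl⟩ := r.surjective y
      exact isAlgebraic_algebraMap x⟩
    haveI : IsAlgClosure v.Completion ℂ := ⟨inferInstance, inferInstance⟩
    let φ : AlgebraicClosure v.Completion ≃ₐ[v.Completion] ℂ := IsAlgClosure.equiv v.Completion _ _
    refine ⟨φ.toRingEquiv.toRingHom, fun τ => Or.inl fun x => ?_⟩
    show φ (τ x) = φ x
    obtain ⟨y, hy⟩ := r.surjective (φ x)
    have e1 : x = algebraMap v.Completion _ y := by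
      apply φ.injective
      rw [φ.commutes]
      exact hy.symm
    rw [e1, τ.commutes]

/-- The infinite places. -/
theorem real_triv' {k Ω' : Type} [Field k] [Field Ω'] [Algebra k Ω'] {V : WeierstrassCurve k}
    {Ω : Type} [Field Ω] [Algebra k Ω]
    {g : (Ω ≃ₐ[k] Ω) → Pt V Ω} (hg : ∀ σ τ, g (σ * τ) = g σ + act V (ak σ) (g τ))
    {p : ℕ} (hp : Odd p) {Q : Pt V Ω} (hQ : ∀ σ, p • g σ = act V (ak σ) Q - Q)
    (φ : Ω' →+* ℂ) (S : Set (Ω' →ₐ[k] Ω'))
    (hS : ∀ τ ∈ S, (∀ x, φ (τ x) = φ x) ∨ ∀ x, φ (τ x) = star (φ x)) (ι : Ω →ₐ[k] Ω') :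
    ∃ P : Pt V Ω', ∀ τ ∈ S, ∀ σ : Ω ≃ₐ[k] Ω, (∀ x, τ (ι x) = ι (σ x)) →
      act V ι (g σ) = act V τ P - P := by
  obtain ⟨m, hm⟩ := hp
  have hid : ∀ τ : Ω' →ₐ[k] Ω', (∀ x, φ (τ x) = φ x) → ∀ σ : Ω ≃ₐ[k] Ω,
      (∀ x, τ (ι x) = ι (σ x)) → ∀ P, act V ι (g σ) = act V τ P - P := by
    intro τ hτ σ h P
    have h1 : ∀ x, τ x = x := fun x => φ.injective (hτ x)
    have h3 : σ = 1 := by
      ext x
      apply ι.injective
      show ι (σ x) = ι x
      rw [← h, h1]
    rw [h3, coc_one hg, map_zero, act_congr V (ψ := AlgHom.id k Ω') h1, act_id', sub_self]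
  by_cases hex : ∃ τ ∈ S, (∀ x, φ (τ x) = star (φ x)) ∧ ∃ σ : Ω ≃ₐ[k] Ω, ∀ x, τ (ι x) = ι (σ x)
  · obtain ⟨τ, hτS, hτ, σ, hσ⟩ := hex
    have hinv : ∀ x, τ (τ x) = x := by
      intro x
      apply φ.injective
      rw [hτ, hτ, star_star]
    have hσ1 : σ * σ = 1 := by
      ext x
      apply ι.injective
      show ι (σ (σ x)) = ι x
      rw [← hσ, ← hσ, hinv]
    have comm : ∀ R : Pt V Ω, act V ι (act V (ak σ) R) = act V τ (act V ι R) := by
      intro R
      rw [act_act, act_act]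
      exact act_congr V (fun x => (hσ x).symm) _
    have h1 : act V ι (g σ) + act V τ (act V ι (g σ)) = 0 := by
      rw [← comm, ← map_add, ← hg, hσ1, coc_one hg, map_zero]
    have h2 : p • act V ι (g σ) = act V τ (act V ι Q) - act V ι Q := by
      rw [← map_nsmul, hQ, map_sub, comm]
    have key : act V ι (g σ) = act V τ (act V ι Q + m • act V ι (g σ)) -
        (act V ι Q + m • act V ι (g σ)) := by
      rw [map_add, map_nsmul]
      have h3 : act V τ (act V ι (g σ)) = - act V ι (g σ) := eq_neg_of_add_eq_zero_right h1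
      rw [h3]
      have h4 : p • act V ι (g σ) = act V ι (g σ) + m • act V ι (g σ) + m • act V ι (g σ) := by
        rw [hm, add_smul, one_smul, two_mul, add_smul]
        abel
      rw [h4] at h2
      rw [smul_neg]
      have h5 : act V τ (act V ι Q) + -(m • act V ι (g σ)) -
          (act V ι Q + m • act V ι (g σ)) = (act V τ (act V ι Q) - act V ι Q) -
          (m • act V ι (g σ)) - m • act V ι (g σ) := by abel
      rw [h5, ← h2]
      abel
    refine ⟨act V ι Q + m • act V ι (g σ), fun τ' hτ'S σ' h => ?_⟩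
    rcases hS τ' hτ'S with h1 | h1
    · exact hid τ' h1 σ' h _
    · have h3 : ∀ x, τ' x = τ x := fun x => φ.injective (by rw [h1, hτ])
      have h4 : σ' = σ := by
        ext x
        apply ι.injective
        show ι (σ' x) = ι (σ x)
        rw [← h, ← hσ, h3]
      rw [h4, act_congr V h3]
      exact key
  · refine ⟨0, fun τ hτS σ h => ?_⟩
    rcases hS τ hτS with h1 | h1
    · exact hid τ h1 σ h 0
    · exact absurd ⟨τ, hτS, h1, σ, h⟩ hex

theorem tf_smul' {k Ω Ω1 : Type} [Field k] [Field Ω] [Field Ω1] [Algebra k Ω] [Algebra k Ω1]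
    (V : WeierstrassCurve k) (e : Ω1 ≃ₐ[k] Ω) {g : (Ω ≃ₐ[k] Ω) → Pt V Ω} {p : ℕ} {Q : Pt V Ω}
    (hQ : ∀ σ, p • g σ = act V (ak σ) Q - Q) (σ : Ω1 ≃ₐ[k] Ω1) :
    p • tf V e g σ = act V (ak σ) (act V (eh e.symm) Q) - act V (eh e.symm) Q := by
  unfold tf
  rw [← map_nsmul, hQ, map_sub, act_act, act_act]
  congr 1
  refine act_congr V (fun x => ?_) _
  show e.symm (e (σ (e.symm x))) = σ (e.symm x)
  rw [AlgEquiv.symm_apply_apply]

section conv

variable {k : Type} [Field k] {V : WeierstrassCurve k} (hV : V.map (algebraMap k k) = V)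

/-- comparison of the two notions of local triviality -/
theorem loc_of' (L : Type) [Field L] [Algebra k L]
    {f : Pool.Agent.TH841.SH.D.Coch V}
    {f' : (AlgebraicClosure k ≃ₐ[k] AlgebraicClosure k) → Pt V (AlgebraicClosure k)}
    (hf : ∀ σ, tq hV (AlgebraicClosure k) (f σ) = f' σ)
    (h : ∀ ι : AlgebraicClosure k →ₐ[k] AlgebraicClosure L, ∃ P : Pt V (AlgebraicClosure L),
      ∀ τ' ∈ {τ' : AlgebraicClosure L →ₐ[k] AlgebraicClosure L |
        ∃ τ : AlgebraicClosure L ≃ₐ[L] AlgebraicClosure L, ∀ x, τ' x = τ x},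
      ∀ σ : AlgebraicClosure k ≃ₐ[k] AlgebraicClosure k, (∀ x, τ' (ι x) = ι (σ x)) →
      act V ι (f' σ) = act V τ' P - P) :
    Pool.Agent.TH841.SH.D.LocTriv V L f := by
  intro ι
  obtain ⟨P, hP⟩ := h ι
  obtain ⟨P', hP'⟩ := tq_surj hV (AlgebraicClosure L) P
  refine ⟨P', fun τ σ hτσ => ?_⟩
  apply tq_inj hV (AlgebraicClosure L)
  have e1 := tq_act hV ι ι (fun x => rfl) (f σ)
  have e2 := tq_act hV (τ.toAlgHom.restrictScalars k) (τ.toAlgHom.restrictScalars k)
    (fun x => rfl) P'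
  refine e1.trans ?_
  rw [map_sub]
  refine Eq.trans ?_ (congrArg (fun z => z - tq hV (AlgebraicClosure L) P') e2).symm
  rw [hP', hf]
  exact hP _ ⟨τ, fun x => rfl⟩ σ hτσ

end conv

theorem descq_k {k : Type} [Field k] [NumberField k] (V : WeierstrassCurve k) {n : ℕ} (hn : Odd n)
    (hSha : ∀ s : Pool.Agent.TH841.NF.D.Sha V, n • s = 0 → s = 0)
    (K : Type) [Field K] [NumberField K] [Algebra k K]
    (g : (AlgebraicClosure K ≃ₐ[k] AlgebraicClosure K) → Pt V (AlgebraicClosure K))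
    (hlc : IsLocallyConstant g) (hmul : ∀ σ τ, g (σ * τ) = g σ + act V (ak σ) (g τ))
    {Q : Pt V (AlgebraicClosure K)} (hQ : ∀ σ, n • g σ = act V (ak σ) Q - Q)
    (hloc : ∀ p : HeightOneSpectrum (𝓞 k), LocTriv (F := k) (Ω := AlgebraicClosure K) V
      (p.adicCompletion k) (AlgebraicClosure (p.adicCompletion k)) g) :
    ∃ T : Pt V (AlgebraicClosure K),
      ∀ σ : AlgebraicClosure K ≃ₐ[k] AlgebraicClosure K, g σ = act V (ak σ) T - T := by
  have hV : V.map (algebraMap k k) = V := by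
    rw [Algebra.algebraMap_self, WeierstrassCurve.map_id]
  haveI : Algebra.IsAlgebraic k (AlgebraicClosure K) :=
    Algebra.IsAlgebraic.trans k K (AlgebraicClosure K)
  haveI : IsAlgClosure k (AlgebraicClosure K) := ⟨inferInstance, inferInstance⟩
  haveI : Algebra.IsAlgebraic k (AlgebraicClosure k) := AlgebraicClosure.isAlgebraic k
  haveI : IsAlgClosure k (AlgebraicClosure k) := ⟨inferInstance, inferInstance⟩
  haveI : Normal k (AlgebraicClosure k) := IsAlgClosure.normal k _
  haveI : IsGalois k (AlgebraicClosure k) := IsAlgClosure.isGalois k _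
  let e : AlgebraicClosure k ≃ₐ[k] AlgebraicClosure K := IsAlgClosure.equiv k _ _
  set f' : (AlgebraicClosure k ≃ₐ[k] AlgebraicClosure k) → Pt V (AlgebraicClosure k) :=
    tf V e g with hf'
  have f'mul : ∀ σ τ, f' (σ * τ) = f' σ + act V (ak σ) (f' τ) := tf_mul V e hmul
  have f'Q := tf_smul' V e hQ
  have f'lc : IsLocallyConstant f' := tf_lc V e hlc
  -- the cocycle with values in `W`
  let inv : Pt V (AlgebraicClosure k) →
      Pool.Agent.TH841.SH.D.Pt V (AlgebraicClosure k) :=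
    fun Q => (tq_surj hV (AlgebraicClosure k) Q).choose
  have hinv : ∀ Q, tq hV (AlgebraicClosure k) (inv Q) = Q :=
    fun Q => (tq_surj hV (AlgebraicClosure k) Q).choose_spec
  let f : Pool.Agent.TH841.SH.D.Coch V := fun σ => inv (f' σ)
  have hf : ∀ σ, tq hV (AlgebraicClosure k) (f σ) = f' σ := fun σ => hinv _
  have nat : ∀ (σ : AlgebraicClosure k ≃ₐ[k] AlgebraicClosure k)
      (R : Pool.Agent.TH841.SH.D.Pt V (AlgebraicClosure k)),
      tq hV (AlgebraicClosure k) (Pool.Agent.TH841.SH.D.act V σ.toAlgHom R) =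
        act V (ak σ) (tq hV (AlgebraicClosure k) R) := fun σ R =>
    tq_act hV σ.toAlgHom (ak σ) (fun x => rfl) R
  have hcoc : Pool.Agent.TH841.SH.D.IsCoc V f := by
    refine ⟨f'lc.comp inv, fun σ τ => ?_⟩
    apply tq_inj hV (AlgebraicClosure k)
    rw [map_add, nat, hf, hf, hf, f'mul]
  have hsha : Pool.Agent.TH841.NF.D.IsShaCoc V f := by
    refine ⟨hcoc, fun p => ?_, fun v => ?_⟩
    · refine loc_of' hV _ hf ?_
      obtain ⟨ι0, P0, hP⟩ := hloc p
      refine loc_all f'mul _ (ι0.comp (eh e)) P0 ?_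
      rintro τ' ⟨τ, hτ⟩ σ h
      have h1 : ∀ y, τ (ι0 y) = ι0 (e.autCongr σ y) := by
        intro y
        have h3 := h (e.symm y)
        have h4 : ι0 (e (e.symm y)) = ι0 y := by rw [AlgEquiv.apply_symm_apply]
        rw [← hτ, ← h4]
        exact h3
      have h3 := hP τ (e.autCongr σ) h1
      have h4 : act V (ι0.comp (eh e)) (f' σ) = act V ι0 (g (e.autCongr σ)) := by
        rw [hf', ← act_act]
        unfold tf
        rw [e_act]
      rw [h4]
      refine (act_congr V (fun x => rfl) _).trans (h3.trans ?_)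
      exact congrArg (fun z => z - P0) (act_congr V (fun x => (hτ x).symm) _)
    · refine loc_of' hV _ hf ?_
      obtain ⟨φ, hφ⟩ := exists_phi' v
      refine real_triv' f'mul hn f'Q φ _ ?_
      rintro τ' ⟨τ, hτ⟩
      rcases hφ τ with h | h
      · exact Or.inl fun x => by rw [hτ, h]
      · exact Or.inr fun x => by rw [hτ, h]
  -- the class is zero
  have hcob : Pool.Agent.TH841.SH.D.IsCob V f := by
    have h1 := hSha (QuotientAddGroup.mk (⟨f, hsha⟩ : Pool.Agent.TH841.NF.D.shaCoc V)) (by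
      have h2 : (QuotientAddGroup.mk (n • (⟨f, hsha⟩ : Pool.Agent.TH841.NF.D.shaCoc V)) :
          (Pool.Agent.TH841.NF.D.shaCoc V) ⧸
          (Pool.Agent.TH841.SH.D.cob V).addSubgroupOf
            (Pool.Agent.TH841.NF.D.shaCoc V)) = 0 := by
        rw [QuotientAddGroup.eq_zero_iff, AddSubgroup.mem_addSubgroupOf]
        refine ⟨inv (act V (eh e.symm) Q), fun σ => ?_⟩
        show n • f σ = _
        apply tq_inj hV (AlgebraicClosure k)
        rw [map_sub, nat, hinv, map_nsmul, hf, f'Q]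
      exact h2)
    have h2 : (QuotientAddGroup.mk (⟨f, hsha⟩ : Pool.Agent.TH841.NF.D.shaCoc V) :
          (Pool.Agent.TH841.NF.D.shaCoc V) ⧸
          (Pool.Agent.TH841.SH.D.cob V).addSubgroupOf
            (Pool.Agent.TH841.NF.D.shaCoc V)) = 0 := h1
    rw [QuotientAddGroup.eq_zero_iff, AddSubgroup.mem_addSubgroupOf] at h2
    exact h2
  obtain ⟨P, hP⟩ := hcob
  set P' := tq hV (AlgebraicClosure k) P with hP'
  have hPf : ∀ σ, tf V e g σ = act V (ak σ) P' - P' := by
    intro σ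
    have h1 : tf V e g σ = f' σ := rfl
    rw [h1, ← hf, hP, map_sub, nat]
  exact ⟨act V (eh e) P', fun σ => tf_cob V e hPf σ⟩

/-! ### The Tate-Shafarevich group over `K` -/

section up

variable {k K : Type} [Field k] [NumberField k] [Field K] [NumberField K] [Algebra k K]
  {V : WeierstrassCurve k} {W : WeierstrassCurve K} (hW : V.map (algebraMap k K) = W)

include hW in
theorem sha_of' {p : ℕ}
    (h : ∀ f : (AlgebraicClosure K ≃ₐ[K] AlgebraicClosure K) → Pt V (AlgebraicClosure K),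
      IsShaP K V p f → ∃ T : Pt V (AlgebraicClosure K),
        ∀ σ : AlgebraicClosure K ≃ₐ[K] AlgebraicClosure K, f σ = act V (rs k σ) T - T)
    (s : Pool.Agent.TH841.NF.D.Sha W) (hs : p • s = 0) : s = 0 := by
  obtain ⟨f, rfl⟩ := QuotientAddGroup.mk_surjective
    (s := (Pool.Agent.TH841.SH.D.cob W).addSubgroupOf
      (Pool.Agent.TH841.NF.D.shaCoc W)) s
  have h2 : (QuotientAddGroup.mk (p • f) : (Pool.Agent.TH841.NF.D.shaCoc W) ⧸
    (Pool.Agent.TH841.SH.D.cob W).addSubgroupOf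
      (Pool.Agent.TH841.NF.D.shaCoc W)) = 0 := hs
  rw [QuotientAddGroup.eq_zero_iff, AddSubgroup.mem_addSubgroupOf] at h2
  obtain ⟨P, hP⟩ := h2
  have hP' : ∀ σ, p • f.1 σ = Pool.Agent.TH841.SH.D.act W σ.toAlgHom P - P := by
    intro σ
    rw [← hP σ]
    rfl
  have nat : ∀ (σ : AlgebraicClosure K ≃ₐ[K] AlgebraicClosure K)
      (R : Pool.Agent.TH841.SH.D.Pt W (AlgebraicClosure K)),
      tq hW (AlgebraicClosure K) (Pool.Agent.TH841.SH.D.act W σ.toAlgHom R) =
        act V (rs k σ) (tq hW (AlgebraicClosure K) R) := fun σ R =>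
    tq_act hW σ.toAlgHom (rs k σ) (fun x => rfl) R
  let g : (AlgebraicClosure K ≃ₐ[K] AlgebraicClosure K) → Pt V (AlgebraicClosure K) :=
    fun σ => tq hW (AlgebraicClosure K) (f.1 σ)
  have hgc : IsCoc V g := by
    refine ⟨f.2.1.1.comp _, fun σ τ => ?_⟩
    show tq hW (AlgebraicClosure K) (f.1 (σ * τ)) = tq hW (AlgebraicClosure K) (f.1 σ) +
      act V (rs k σ) (tq hW (AlgebraicClosure K) (f.1 τ))
    rw [f.2.1.2, map_add, nat]
  have hgloc : ∀ v : HeightOneSpectrum (𝓞 K),
      LocTriv V (v.adicCompletion K) (AlgebraicClosure (v.adicCompletion K)) g := by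
    intro v
    let ι : AlgebraicClosure K →ₐ[K] AlgebraicClosure (v.adicCompletion K) := IsAlgClosed.lift
    obtain ⟨P0, hP0⟩ := f.2.2.1 v ι
    refine ⟨ι, tq hW _ P0, fun τ σ h => ?_⟩
    have h1 := hP0 τ σ h
    have e1 := tq_act hW ι (ι.restrictScalars k) (fun x => rfl) (f.1 σ)
    have e2 := tq_act hW (AlgHom.restrictScalars K τ.toAlgHom) (rs k τ) (fun x => rfl) P0
    refine e1.symm.trans ((congrArg (tq hW (AlgebraicClosure (v.adicCompletion K))) h1).trans ?_)
    rw [map_sub]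
    exact congrArg (fun z => z - tq hW (AlgebraicClosure (v.adicCompletion K)) P0) e2
  obtain ⟨T, h3⟩ := h g ⟨hgc, ⟨tq hW (AlgebraicClosure K) P, fun σ => by
    show p • tq hW (AlgebraicClosure K) (f.1 σ) = _
    rw [← map_nsmul, hP', map_sub, nat]⟩, hgloc⟩
  obtain ⟨R, hR⟩ := tq_surj hW (AlgebraicClosure K) T
  have h4 : f ∈ (Pool.Agent.TH841.SH.D.cob W).addSubgroupOf
      (Pool.Agent.TH841.NF.D.shaCoc W) := by
    rw [AddSubgroup.mem_addSubgroupOf]
    refine ⟨R, fun σ => ?_⟩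
    apply tq_inj hW (AlgebraicClosure K)
    rw [map_sub, nat, hR]
    exact h3 σ
  exact (QuotientAddGroup.eq_zero_iff f).2 h4

variable (V K) in
/-- Local triviality at all primes for the classes over `k` which are killed by `p` and locally
trivial over `K`. -/
def LocP (p : ℕ) : Prop :=
  ∀ g : (AlgebraicClosure K ≃ₐ[k] AlgebraicClosure K) → Pt V (AlgebraicClosure K),
    IsLocallyConstant g → (∀ σ τ, g (σ * τ) = g σ + act V (ak σ) (g τ)) →
    (∃ Q : Pt V (AlgebraicClosure K), ∀ σ : AlgebraicClosure K ≃ₐ[k] AlgebraicClosure K,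
      p • g σ = act V (ak σ) Q - Q) →
    (∀ v : HeightOneSpectrum (𝓞 K),
      LocTriv V (v.adicCompletion K) (AlgebraicClosure (v.adicCompletion K))
        (fun σ : AlgebraicClosure K ≃ₐ[K] AlgebraicClosure K => g (σ.restrictScalars k))) →
    ∀ P : HeightOneSpectrum (𝓞 k), LocTriv (F := k) (Ω := AlgebraicClosure K) V
      (P.adicCompletion k) (AlgebraicClosure (P.adicCompletion k)) g

theorem arith_up {p n : ℕ} (hp : p.Prime) (hp2 : p ≠ 2) [IsGalois k K]
    (hn : Module.finrank k K = p ^ n) (hmw : AddGroup.FG (Pt V K))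
    (hSha : ∀ s : Pool.Agent.TH841.NF.D.Sha V, p • s = 0 → s = 0)
    (hfin : Finite (Pt V k)) (hc : ¬ p ∣ Nat.card (Pt V k))
    (hL : LocP K V p) :
    (∀ s : Pool.Agent.TH841.NF.D.Sha (V.map (algebraMap k K)), p • s = 0 → s = 0) ∧
    Finite (Pt V K) ∧ ¬ p ∣ Nat.card (Pt V K) := by
  -- the classes over `k`
  have hE : ExtP K V p := by
    rintro g hlc hmul ⟨Q, hQ⟩ hloc
    exact descq_k V (hp.odd_of_ne_two hp2) hSha K g hlc hmul hQ (hL g hlc hmul ⟨Q, hQ⟩ hloc)
  -- the rational points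
  obtain ⟨e2⟩ := exists_Ek (K := K) (V := V)
  haveI hfin' : Finite (Ek K V) := Finite.of_equiv _ e2
  have hc' : ¬ p ∣ Nat.card (Ek K V) := by
    rw [← Nat.card_congr e2]
    exact hc
  -- the points over `K`
  obtain ⟨e4⟩ := exists_EK (K := K) (V := V)
  obtain ⟨h1, h2⟩ := finite_p hp hmw (fun P => by
    obtain ⟨R, hR, h1⟩ := div_K (V := V) hp hn hc' hE
      (P := act V (incl k K (AlgebraicClosure K)) P) (fun σ => rs_act_incl V σ P)
    obtain ⟨R0, hR0⟩ := fixed_point (K := k) (F := K) V R hR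
    refine ⟨R0, act_inj V (incl k K (AlgebraicClosure K)) ?_⟩
    rw [map_nsmul, hR0, h1])
  haveI hfinK : Finite (EK K V) := Finite.of_equiv _ e4
  have hcK : ¬ p ∣ Nat.card (EK K V) := by
    rw [← Nat.card_congr e4]
    exact h2
  exact ⟨fun s hs => sha_of' rfl (fun f hf => sha_K hp hn hcK hE hf) s hs, h1, h2⟩

end up

end Pool.Agent.H92P
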