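import Pool.Graph.R_seed8.W370.KE.Z
import Pool.Graph.R_seed8.H901R3.MS.P_R1K
import Pool.Graph.R_seed8.H901R3.MS.P_R2K
import Pool.Graph.R_seed8.H901R3.MS.P_R3K
import Pool.Graph.R_seed8.H901R3.MS.P_R4K
import Pool.Graph.R_seed8.H901R3.MS.P_R5K
import Pool.Graph.R_seed8.H901R3.MS.P_R6K

/-!
The kernel of the reduction has no torsion of order prime to the residue characteristic: curves with
coefficients in the valuation ring (adapted from `Pool.Agent.W370.KE`).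
-/

set_option autoImplicit false
set_option linter.unusedVariables false

namespace Pool.Agent.H92P

open WeierstrassCurve Pool.Agent.H901R3.MS
open Pool.Agent.W370.KE (zsum wz chord tang mI mI.add mI.neg mI.mul_left mI.mul_right mI.unit)

section place
variable {K k : Type} [Field K] [Field k] (v : Place K k) (a b : K) (haA : a ∈ v.A) (hbA : b ∈ v.A)
include haA hbA

theorem core {x₁ y₁ x₂ y₂ x₃ y₃ l c t p q : K}
    (E1 : Eqn a b x₁ y₁) (E2 : Eqn a b x₂ y₂) (hx1 : x₁ ∉ v.A) (hx2 : x₂ ∉ v.A)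
    (hy3 : y₃ ≠ 0) (L1 : y₁ = l * x₁ + c) (L2 : y₂ = l * x₂ + c) (L3 : y₃ = -(l * x₃ + c))
    (e1 : x₃ = l ^ 2 - x₁ - x₂) (e2 : x₁ * x₂ + (x₁ + x₂) * x₃ = a - 2 * l * c)
    (e3 : x₁ * x₂ * x₃ = c ^ 2 - b)
    (hUV : -l * (1 - a * (x₂ / y₂) * (y₁⁻¹ + y₂⁻¹) - b * (y₁⁻¹ ^ 2 + y₁⁻¹ * y₂⁻¹ + y₂⁻¹ ^ 2)) =
      c * ((x₁ / y₁) ^ 2 + (x₁ / y₁) * (x₂ / y₂) + (x₂ / y₂) ^ 2 + a * y₁⁻¹ ^ 2))
    (ht : t ∈ v.A) (hp : p ∈ v.A) (hq : q ∈ v.A) (hz1 : x₁ / y₁ = t * p) (hz2 : x₂ / y₂ = t * q) :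
    ∃ s ∈ v.A, x₃ / y₃ = x₁ / y₁ + x₂ / y₂ + t ^ 2 * s := by
  obtain ⟨-, hy1, -, -, z1A, z1r, w1A, w1r⟩ := (t_R1K K k v a b haA hbA x₁ y₁ E1).2 hx1
  obtain ⟨-, hy2, -, -, z2A, z2r, w2A, w2r⟩ := (t_R1K K k v a b haA hbA x₂ y₂ E2).2 hx2
  have mz1 : mI v (x₁ / y₁) := ⟨z1A, z1r⟩
  have mz2 : mI v (x₂ / y₂) := ⟨z2A, z2r⟩
  have mw1 : mI v y₁⁻¹ := ⟨w1A, w1r⟩
  have mw2 : mI v y₂⁻¹ := ⟨w2A, w2r⟩
  -- w₁ is divisible by t²
  set D0 : K := 1 - a * (x₁ / y₁) * y₁⁻¹ - b * y₁⁻¹ ^ 2 with hD0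
  have hD0u : D0 ∈ v.A ∧ v.r D0 ≠ 0 := by
    refine mI.unit (y := (-(a * (x₁ / y₁)) * y₁⁻¹) + (-(b * y₁⁻¹) * y₁⁻¹)) ?_ ?_
    · exact (mI.mul_left (v.A.neg_mem (v.A.mul_mem haA z1A)) mw1).add
        (mI.mul_left (v.A.neg_mem (v.A.mul_mem hbA w1A)) mw1)
    · rw [hD0]; ring
  have hD00 : D0 ≠ 0 := v.ne_zero_of_r_ne hD0u.2
  have hw1eq : y₁⁻¹ = t ^ 2 * (t * p ^ 3 / D0) := by
    have h := wz hy1 E1
    have h5 : y₁⁻¹ * D0 = (x₁ / y₁) ^ 3 := by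
      rw [hD0]
      linear_combination h
    rw [hz1] at h5
    rw [← mul_div_assoc, eq_div_iff hD00, h5]
    ring
  set w' : K := t * p ^ 3 / D0 with hw'
  have hw'A : w' ∈ v.A := v.div_mem (v.A.mul_mem ht (v.A.pow_mem hp 3)) hD0u.2
  -- U and V
  set U : K := 1 - a * (x₂ / y₂) * (y₁⁻¹ + y₂⁻¹) - b * (y₁⁻¹ ^ 2 + y₁⁻¹ * y₂⁻¹ + y₂⁻¹ ^ 2) with hU
  have hUu : U ∈ v.A ∧ v.r U ≠ 0 := by
    refine mI.unit (y := (-(a * (x₂ / y₂)) * (y₁⁻¹ + y₂⁻¹)) +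
      (-b) * (y₁⁻¹ * y₁⁻¹ + y₁⁻¹ * y₂⁻¹ + y₂⁻¹ * y₂⁻¹)) ?_ ?_
    · exact (mI.mul_left (v.A.neg_mem (v.A.mul_mem haA z2A)) (mw1.add mw2)).add
        (mI.mul_left (v.A.neg_mem hbA) (((mI.mul_left w1A mw1).add (mI.mul_left w1A mw2)).add
          (mI.mul_left w2A mw2)))
    · rw [hU]; ring
  have hU0 : U ≠ 0 := v.ne_zero_of_r_ne hUu.2
  set V' : K := p ^ 2 + p * q + q ^ 2 + a * y₁⁻¹ * w' with hV'
  have hV'A : V' ∈ v.A :=
    v.A.add_mem (v.A.add_mem (v.A.add_mem (v.A.pow_mem hp 2) (v.A.mul_mem hp hq))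
      (v.A.pow_mem hq 2)) (v.A.mul_mem (v.A.mul_mem haA w1A) hw'A)
  have hV : (x₁ / y₁) ^ 2 + (x₁ / y₁) * (x₂ / y₂) + (x₂ / y₂) ^ 2 + a * y₁⁻¹ ^ 2 = t ^ 2 * V' := by
    rw [hV', hz1, hz2]
    have h6 : a * y₁⁻¹ ^ 2 = a * y₁⁻¹ * (t ^ 2 * w') := by
      rw [← hw1eq]; ring
    rw [h6]
    ring
  rw [hV] at hUV
  -- c ≠ 0
  have hc : c ≠ 0 := by
    intro h0
    rw [h0, zero_mul] at hUV
    have hl : l = 0 := by
      rcases mul_eq_zero.1 hUV with h | h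
      · exact neg_eq_zero.1 h
      · exact absurd h hU0
    apply hy1
    rw [L1, hl, h0]
    ring
  set m : K := t ^ 2 * V' / U with hm
  set m' : K := V' / U with hm'
  have hmm : m = t ^ 2 * m' := by rw [hm, hm', mul_div_assoc]
  have hm'A : m' ∈ v.A := v.div_mem hV'A hUu.2
  have hlm : l = -(m * c) := by
    rw [hm]
    field_simp
    linear_combination -hUV
  have y1m : y₁ = c * (1 - m * x₁) := by rw [L1, hlm]; ring
  have y2m : y₂ = c * (1 - m * x₂) := by rw [L2, hlm]; ring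
  have y3m : y₃ = -(c * (1 - m * x₃)) := by rw [L3, hlm]; ring
  have n1 : 1 - m * x₁ ≠ 0 := fun h => hy1 (by rw [y1m, h, mul_zero])
  have n2 : 1 - m * x₂ ≠ 0 := fun h => hy2 (by rw [y2m, h, mul_zero])
  have n3 : 1 - m * x₃ ≠ 0 := fun h => hy3 (by rw [y3m, h, mul_zero, neg_zero])
  have hz := zsum (a := a) (b := b) hc n1 n2 n3 (by rw [e1, hlm]; ring)
    (by rw [e2, hlm]; ring) e3
  rw [← y1m, ← y2m] at hz
  -- c⁻¹
  have hcinv : c⁻¹ = y₁⁻¹ - m * (x₁ / y₁) := by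
    field_simp
    rw [y1m]
  have mm : mI v m := by
    rw [hm, mul_comm (t ^ 2), mul_div_right_comm]
    have h8 : mI v ((t * p) * (t * p)) := by
      rw [← hz1]; exact mI.mul_left z1A mz1
    -- use that `m * c⁻¹`-free: compute the residue directly
    have h9 : mI v (t ^ 2 * V') := by
      rw [← hV]
      refine ((mI.add ?_ ?_).add ?_).add ?_
      · rw [pow_two]; exact mI.mul_left z1A mz1
      · exact mI.mul_left z1A mz2
      · rw [pow_two]; exact mI.mul_left z2A mz2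
      · rw [pow_two, ← mul_assoc]; exact mI.mul_left (v.A.mul_mem haA w1A) mw1
    have h10 : V' / U * t ^ 2 = (t ^ 2 * V') * U⁻¹ := by rw [div_eq_mul_inv]; ring
    rw [h10]
    exact mI.mul_right h9 (v.inv_mem hUu.2)
  have hcA : c⁻¹ ∈ v.A := by
    rw [hcinv]
    exact v.A.sub_mem w1A (v.A.mul_mem mm.1 z1A)
  have hD : (1 + a * m ^ 2 + b * m ^ 3 : K) ∈ v.A ∧ v.r (1 + a * m ^ 2 + b * m ^ 3 : K) ≠ 0 := by
    refine mI.unit (y := (a * m) * m + (b * m ^ 2) * m) ?_ (by ring)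
    exact (mI.mul_left (v.A.mul_mem haA mm.1) mm).add
      (mI.mul_left (v.A.mul_mem hbA (v.A.pow_mem mm.1 2)) mm)
  have h2A : (2 : K) ∈ v.A := by exact_mod_cast v.nat_mem 2
  have h3A : (3 : K) ∈ v.A := by exact_mod_cast v.nat_mem 3
  refine ⟨(2 * a * m' + 3 * b * m' * m) * c⁻¹ / (1 + a * m ^ 2 + b * m ^ 3),
    v.div_mem (v.A.mul_mem (v.A.add_mem (v.A.mul_mem (v.A.mul_mem h2A haA) hm'A)
      (v.A.mul_mem (v.A.mul_mem (v.A.mul_mem h3A hbA) hm'A) mm.1)) hcA) hD.2, ?_⟩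
  have h11 : x₃ / y₃ = -(x₃ / (c * (1 - m * x₃))) := by
    rw [y3m, div_neg]
  rw [h11]
  have h12 : t ^ 2 * ((2 * a * m' + 3 * b * m' * m) * c⁻¹ / (1 + a * m ^ 2 + b * m ^ 3)) =
      (2 * a * m + 3 * b * m ^ 2) * c⁻¹ / (1 + a * m ^ 2 + b * m ^ 3) := by
    rw [← mul_div_assoc]
    congr 1
    rw [hmm]
    ring
  rw [h12]
  rw [neg_mul, neg_div] at hz
  linear_combination -hz

omit haA hbA in
/-- the coordinate `z = x / y` -/
def zc {F : Type} [Field F] {a b : F} : Pt a b → F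
  | Affine.Point.zero => 0
  | Affine.Point.some x y _ => x / y

omit haA hbA in
/-- points which are not integral -/
def NI (P : Pt a b) : Prop :=
  ∀ (x y : K) (h : (CV a b).toAffine.Nonsingular x y), P = Affine.Point.some x y h → x ∉ v.A

theorem zadd [DecidableEq K] (P Q : Pt a b) (hP : NI v a b P) (hQ : NI v a b Q)
    (hPQ : NI v a b (P + Q)) {t p q : K} (ht : t ∈ v.A) (hp : p ∈ v.A) (hq : q ∈ v.A)
    (zP : zc P = t * p) (zQ : zc Q = t * q) :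
    ∃ s ∈ v.A, zc (P + Q) = zc P + zc Q + t ^ 2 * s := by
  rcases P with _ | ⟨x₁, y₁, h₁⟩
  · refine ⟨0, v.A.zero_mem, ?_⟩
    have e : (Affine.Point.zero + Q : Pt a b) = Q := zero_add Q
    rw [e]
    change zc Q = 0 + zc Q + t ^ 2 * 0
    ring
  rcases Q with _ | ⟨x₂, y₂, h₂⟩
  · refine ⟨0, v.A.zero_mem, ?_⟩
    have e : (Affine.Point.some x₁ y₁ h₁ + Affine.Point.zero : Pt a b) =
      Affine.Point.some x₁ y₁ h₁ := add_zero _
    rw [e]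
    change zc (Affine.Point.some x₁ y₁ h₁ : Pt a b) = _ + 0 + t ^ 2 * 0
    ring
  have E1 := eqn_of h₁
  have E2 := eqn_of h₂
  have hx1 : x₁ ∉ v.A := hP x₁ y₁ h₁ rfl
  have hx2 : x₂ ∉ v.A := hQ x₂ y₂ h₂ rfl
  have hy1 : y₁ ≠ 0 := ((t_R1K K k v a b haA hbA x₁ y₁ E1).2 hx1).2.1
  have hy2 : y₂ ≠ 0 := ((t_R1K K k v a b haA hbA x₂ y₂ E2).2 hx2).2.1
  change x₁ / y₁ = t * p at zP
  change x₂ / y₂ = t * q at zQ
  change ∃ s ∈ v.A, zc _ = x₁ / y₁ + x₂ / y₂ + t ^ 2 * s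
  by_cases hx : x₁ = x₂
  · by_cases hy : y₁ = -y₂
    · refine ⟨0, v.A.zero_mem, ?_⟩
      rw [add_opp h₁ h₂ hx hy, hx, hy]
      change (0 : K) = _
      rw [div_neg]
      ring
    · have hyy : y₁ = y₂ := by
        unfold Eqn at E1 E2
        rw [hx] at E1
        have h3 : (y₁ - y₂) * (y₁ + y₂) = 0 := by linear_combination E1 - E2
        rcases mul_eq_zero.1 h3 with h4 | h4
        · exact sub_eq_zero.1 h4
        · exact absurd (eq_neg_of_add_eq_zero_left h4) hy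
      have h2y : 2 * y₁ ≠ 0 := by
        intro h4
        apply hy
        rw [← hyy]
        linear_combination h4
      subst hx
      subst hyy
      set l : K := (3 * x₁ ^ 2 + a) / (2 * y₁) with hl
      obtain ⟨h₃, e3⟩ := add_dbl h₁ h₂ rfl hy l (l ^ 2 - x₁ - x₁)
        (-(l * ((l ^ 2 - x₁ - x₁) - x₁) + y₁)) hl rfl rfl
      rw [e3] at hPQ ⊢
      have hx3 := hPQ _ _ h₃ rfl
      have hy3 := ((t_R1K K k v a b haA hbA _ _ (eqn_of h₃)).2 hx3).2.1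
      have hl' : 2 * y₁ * l = 3 * x₁ ^ 2 + a := by
        rw [hl, ← mul_div_assoc, mul_div_cancel_left₀ _ h2y]
      obtain ⟨q2, q3, q4⟩ := tang (c := y₁ - l * x₁) E1 hy1 (by ring) hl'
        (rfl : l ^ 2 - x₁ - x₁ = l ^ 2 - x₁ - x₁)
      exact core v a b haA hbA (l := l) (c := y₁ - l * x₁) E1 E1 hx1 hx1 hy3 (by ring) (by ring) (by ring)
        rfl q2 q3 q4 ht hp hq zP zQ
  · have hsub : x₁ - x₂ ≠ 0 := sub_ne_zero.2 hx
    set l : K := (y₁ - y₂) / (x₁ - x₂) with hl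
    obtain ⟨h₃, e3⟩ := add_ne h₁ h₂ hx l (l ^ 2 - x₁ - x₂)
      (-(l * ((l ^ 2 - x₁ - x₂) - x₁) + y₁)) hl rfl rfl
    rw [e3] at hPQ ⊢
    have hx3 := hPQ _ _ h₃ rfl
    have hy3 := ((t_R1K K k v a b haA hbA _ _ (eqn_of h₃)).2 hx3).2.1
    have L2 : y₂ = l * x₂ + (y₁ - l * x₁) := by
      have : l * (x₁ - x₂) = y₁ - y₂ := by
        rw [hl]
        field_simp
      linear_combination this
    obtain ⟨q2, q3, q4⟩ := chord (c := y₁ - l * x₁) E1 E2 hx hy1 hy2 (by ring) L2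
      (rfl : l ^ 2 - x₁ - x₂ = l ^ 2 - x₁ - x₂)
    exact core v a b haA hbA (l := l) (c := y₁ - l * x₁) E1 E2 hx1 hx2 hy3 (by ring) L2 (by ring)
      rfl q2 q3 q4 ht hp hq zP zQ

/-- the kernel of the reduction has no torsion prime to the residue characteristic -/
theorem no_tors [DecidableEq K] [DecidableEq k] (red : Pt a b →+ Pt (v.r a) (v.r b))
    (hred : IsRedK v a b red) (n : ℕ) (hn : (n : k) ≠ 0) (P : Pt a b)
    (hP : n • P = 0) (h0 : red P = 0) : P = 0 := by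
  have hNI : ∀ Q, red Q = 0 → NI v a b Q := by
    rintro Q hQ x y h rfl hx
    obtain ⟨-, g, hg⟩ := hred.2.2 x y h hx
    rw [hg] at hQ
    exact Affine.Point.some_ne_zero g hQ
  rcases P with _ | ⟨x, y, h⟩
  · rfl
  exfalso
  set P : Pt a b := Affine.Point.some x y h with hPdef
  have hx : x ∉ v.A := hNI P h0 x y h rfl
  obtain ⟨hx0, hy0, -, -, zA, zr, -, -⟩ := (t_R1K K k v a b haA hbA x y (eqn_of h)).2 hx
  have hz : zc P = x / y := rfl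
  have ht0 : x / y ≠ 0 := div_ne_zero hx0 hy0
  have key : ∀ m : ℕ, ∃ s ∈ v.A, zc (m • P) = (x / y) * (m + (x / y) * s) := by
    intro m
    induction m with
    | zero =>
      refine ⟨0, v.A.zero_mem, ?_⟩
      rw [zero_smul]
      change (0 : K) = _
      simp
    | succ m ih =>
      obtain ⟨s, hs, hsm⟩ := ih
      have r1 : red (m • P) = 0 := by rw [map_nsmul, h0, smul_zero]
      have r2 : red (m • P + P) = 0 := by rw [map_add, r1, h0, add_zero]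
      obtain ⟨s', hs', he⟩ := zadd v a b haA hbA (m • P) P (hNI _ r1) (hNI _ h0) (hNI _ r2) zA
        (v.A.add_mem (v.nat_mem m) (v.A.mul_mem zA hs)) v.A.one_mem hsm (by rw [hz, mul_one])
      refine ⟨s + s', v.A.add_mem hs hs', ?_⟩
      rw [succ_nsmul, he, hsm, hz]
      push_cast
      ring
  obtain ⟨s, hs, he⟩ := key n
  rw [hP] at he
  change (0 : K) = _ at he
  have h1 : (n : K) + (x / y) * s = 0 := by
    rcases mul_eq_zero.1 he.symm with h2 | h2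
    · exact absurd h2 ht0
    · exact h2
  have h2 := congrArg v.r h1
  rw [v.r_add (v.nat_mem n) (v.A.mul_mem zA hs), v.r_nat, v.r_mul zA hs, zr, zero_mul, add_zero,
    v.r_zero] at h2
  exact hn h2

end place

end Pool.Agent.H92P
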