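import Pool.Agent.H92P.Mul

/-!
The points of prime order over the residue field are the reductions of points of prime order.
-/

set_option autoImplicit false
set_option linter.all false

namespace Pool.Agent.H92P

open WeierstrassCurve Pool.Agent.H901R3.MS Pool.Agent.W275.FM
open scoped Classical

lemma card_pow {B : Type} [AddCommGroup B] [Finite B] {p : ℕ} (hp : p.Prime)
    (h : ∀ x : B, p • x = 0) : ∃ k, Nat.card B = p ^ k := by
  have : Fact p.Prime := ⟨hp⟩
  let _ : Module (ZMod p) B := AddCommGroup.zmodModule h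
  have : Module.Finite (ZMod p) B := Module.Finite.of_finite
  exact ⟨Module.finrank (ZMod p) B, by
    rw [Module.natCard_eq_pow_finrank (K := ZMod p) (V := B), Nat.card_zmod]⟩

section
variable {Ω κ : Type} [Field Ω] [Field κ] (v : Place Ω κ) {a b : Ω}

lemma disc_lift (ha : a ∈ v.A) (hb : b ∈ v.A) (hD : Disc (v.r a) (v.r b)) : Disc a b := by
  intro h
  apply hD
  have h2 : (2 : Ω) ∈ v.A := by exact_mod_cast v.nat_mem 2
  have h4 : (4 : Ω) ∈ v.A := by exact_mod_cast v.nat_mem 4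
  have h27 : (27 : Ω) ∈ v.A := by exact_mod_cast v.nat_mem 27
  have r2 : v.r (2 : Ω) = 2 := by exact_mod_cast v.r_nat 2
  have r4 : v.r (4 : Ω) = 4 := by exact_mod_cast v.r_nat 4
  have r27 : v.r (27 : Ω) = 27 := by exact_mod_cast v.r_nat 27
  have h1 := congrArg v.r h
  rw [v.r_mul h2 (v.A.add_mem (v.A.mul_mem h4 (v.A.pow_mem ha 3))
    (v.A.mul_mem h27 (v.A.pow_mem hb 2))), v.r_add (v.A.mul_mem h4 (v.A.pow_mem ha 3))
    (v.A.mul_mem h27 (v.A.pow_mem hb 2)), v.r_mul h4 (v.A.pow_mem ha 3),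
    v.r_mul h27 (v.A.pow_mem hb 2), v.r_pow ha, v.r_pow hb, r2, r4, r27, v.r_zero] at h1
  exact h1

variable [IsAlgClosed Ω] [CharZero Ω] [IsAlgClosed κ]

/-- the group of the points of order dividing `p` -/
noncomputable def tS {F : Type} [Field F] (a b : F) (p : ℕ) : AddSubgroup (Pt a b) :=
  (nsmulAddMonoidHom p).ker

lemma mem_tS {F : Type} [Field F] {a b : F} {p : ℕ} {P : Pt a b} : P ∈ tS a b p ↔ p • P = 0 :=
  Iff.rfl

theorem lift_tors (ha : a ∈ v.A) (hb : b ∈ v.A) (hD : Disc (v.r a) (v.r b)) (h2κ : (2 : κ) ≠ 0)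
    (red : Pt a b →+ Pt (v.r a) (v.r b)) (hred : IsRedK v a b red) {p : ℕ} (hp : p.Prime)
    (hpκ : (p : κ) ≠ 0) (t : Pt (v.r a) (v.r b)) (ht : p • t = 0) :
    ∃ T : Pt a b, p • T = 0 ∧ red T = t := by
  haveI : Fact p.Prime := ⟨hp⟩
  have hDL := disc_lift v ha hb hD
  obtain ⟨fA, cA⟩ := tor Ω a b hDL p hp.one_lt.le
  obtain ⟨fB, cB⟩ := card_tors_lt (F := κ) h2κ hD (n := p) hp.one_lt.le
  set A := tS a b p with hA
  set B := tS (v.r a) (v.r b) p with hB
  haveI : Finite A := fA.to_subtype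
  haveI : Finite B := fB.to_subtype
  have cA' : p ^ 2 ≤ Nat.card A := cA
  have cB' : Nat.card B < 2 * p ^ 2 := cB
  have hBp : ∀ x : B, p • x = 0 := fun x => Subtype.ext x.2
  obtain ⟨k, hcard⟩ := card_pow hp hBp
  have hle : Nat.card B ≤ p ^ 2 := by
    rw [hcard]
    refine Nat.pow_le_pow_right hp.pos ?_
    by_contra hcon
    have h3 : p ^ 3 ≤ p ^ k := Nat.pow_le_pow_right hp.pos (by omega)
    rw [← hcard] at h3
    have h4 : 2 * p ^ 2 ≤ p ^ 3 := by
      have := hp.two_le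
      nlinarith [sq_nonneg p]
    omega
  let f : A → B := fun T => ⟨red T.1, by
    rw [mem_tS, ← map_nsmul, mem_tS.1 T.2, map_zero]⟩
  have hinj : Function.Injective f := by
    intro T T' h
    have h1 : red (T.1 - T'.1) = 0 := by
      rw [map_sub, sub_eq_zero]
      exact congrArg Subtype.val h
    have h2 := no_tors v a b ha hb red hred p hpκ (T.1 - T'.1)
      (by rw [smul_sub, mem_tS.1 T.2, mem_tS.1 T'.2, sub_zero]) h1
    exact Subtype.ext (sub_eq_zero.1 h2)
  have hsurj : Function.Surjective f := by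
    have h1 := (Nat.bijective_iff_injective_and_card f).2 ⟨hinj, by
      have := Nat.card_le_card_of_injective f hinj
      omega⟩
    exact h1.2
  obtain ⟨T, hT⟩ := hsurj ⟨t, ht⟩
  exact ⟨T.1, T.2, congrArg Subtype.val hT⟩

end

end Pool.Agent.H92P
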