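import Pool.Graph.R_pool_sql_team_seeded_b677cdb8.E8helper21.Lang
import Pool.Agent.H92P.Tors

/-! Functoriality of points; Lang's theorem for `y² = x³ + a x + b` over an algebraically closed field
and the `q`-Frobenius map, `q` a power of the characteristic, `a^q = a`, `b^q = b` (adapted from
`Pool.Agent.E8helper21.Lang`). -/

set_option autoImplicit false
set_option linter.all false

namespace Pool.Agent.H92P

open WeierstrassCurve Pool.Agent.H901R3.MS Polynomial
open Pool.Agent.E8helper21 (pt_eq_or finite_x pt_infinite castPt castPt_some castPt_symm_some)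
open scoped Classical

section pm

variable {F K : Type} [Field F] [Field K] {a b : F} {a' b' : K}

theorem bc1 (a b : F) : (CV a b).baseChange F = CV a b := by
  ext <;> simp [CV, WeierstrassCurve.baseChange, WeierstrassCurve.map]

theorem bc2 (φ : F →+* K) (ha : φ a = a') (hb : φ b = b') :
    @WeierstrassCurve.baseChange F _ (CV a b) K _ φ.toAlgebra = CV a' b' := by
  ext
  · exact map_zero φ
  · exact map_zero φ
  · exact map_zero φ
  · exact ha
  · exact hb

/-- functoriality of the points -/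
noncomputable def pmg (φ : F →+* K) (ha : φ a = a') (hb : φ b = b') : Pt a b →+ Pt a' b' :=
  letI := φ.toAlgebra
  ((castPt (bc2 φ ha hb)).toAddMonoidHom.comp (Affine.Point.map (W' := CV a b) (R := F) (S := F)
    (Algebra.ofId F K))).comp (castPt (bc1 a b)).symm.toAddMonoidHom

theorem ns_mapg (φ : F →+* K) (ha : φ a = a') (hb : φ b = b') {x y : F}
    (h : (CV a b).toAffine.Nonsingular x y) : (CV a' b').toAffine.Nonsingular (φ x) (φ y) := by
  have e : (CV a b).map φ = CV a' b' := by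
    ext
    · exact map_zero φ
    · exact map_zero φ
    · exact map_zero φ
    · exact ha
    · exact hb
  rw [← e]
  exact (WeierstrassCurve.Affine.map_nonsingular _ φ.injective _ _).mpr h

theorem ns_descg (φ : F →+* K) (ha : φ a = a') (hb : φ b = b') {x y : F}
    (h : (CV a' b').toAffine.Nonsingular (φ x) (φ y)) : (CV a b).toAffine.Nonsingular x y := by
  have e : (CV a b).map φ = CV a' b' := by
    ext
    · exact map_zero φ
    · exact map_zero φ
    · exact map_zero φ
    · exact ha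
    · exact hb
  rw [← e] at h
  exact (WeierstrassCurve.Affine.map_nonsingular _ φ.injective _ _).mp h

theorem pmg_some (φ : F →+* K) (ha : φ a = a') (hb : φ b = b') {x y : F}
    (h : (CV a b).toAffine.Nonsingular x y)
    (h' : (CV a' b').toAffine.Nonsingular (φ x) (φ y)) :
    pmg φ ha hb (Affine.Point.some x y h) = Affine.Point.some (φ x) (φ y) h' := by
  letI := φ.toAlgebra
  have h1 : ((CV a b).baseChange F).toAffine.Nonsingular x y := by rw [bc1]; exact h
  have e1 : (castPt (bc1 a b)).symm (Affine.Point.some x y h) = Affine.Point.some x y h1 :=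
    castPt_symm_some (bc1 a b) x y h1 h
  show (castPt (bc2 φ ha hb)) (Affine.Point.map (W' := CV a b) (R := F) (S := F)
    (Algebra.ofId F K) ((castPt (bc1 a b)).symm (Affine.Point.some x y h))) = _
  rw [e1, Affine.Point.map_some]
  exact castPt_some (bc2 φ ha hb) _ _ _ _

theorem pmg_some' (φ : F →+* K) (ha : φ a = a') (hb : φ b = b') {x y : F}
    (h : (CV a b).toAffine.Nonsingular x y) :
    pmg φ ha hb (Affine.Point.some x y h) = Affine.Point.some (φ x) (φ y) (ns_mapg φ ha hb h) :=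
  pmg_some φ ha hb h _

theorem pmg_inj (φ : F →+* K) (ha : φ a = a') (hb : φ b = b') :
    Function.Injective (pmg φ ha hb) := by
  intro P Q h
  rcases P with _ | ⟨x, y, hP⟩ <;> rcases Q with _ | ⟨x', y', hQ⟩
  · rfl
  · rw [pmg_some'] at h
    have h0 : pmg φ ha hb (Affine.Point.zero : Pt a b) = 0 := map_zero _
    rw [h0] at h
    exact absurd h.symm (Affine.Point.some_ne_zero _)
  · rw [pmg_some'] at h
    have h0 : pmg φ ha hb (Affine.Point.zero : Pt a b) = 0 := map_zero _
    rw [h0] at h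
    exact absurd h (Affine.Point.some_ne_zero _)
  · rw [pmg_some', pmg_some', Affine.Point.some.injEq] at h
    rw [Affine.Point.some.injEq]
    exact ⟨φ.injective h.1, φ.injective h.2⟩

theorem pmg_id (φ : F →+* F) (ha : φ a = a) (hb : φ b = b) (h : ∀ x, φ x = x) (P : Pt a b) :
    pmg φ ha hb P = P := by
  rcases P with _ | ⟨x, y, hP⟩
  · exact map_zero _
  · rw [pmg_some', Affine.Point.some.injEq]
    exact ⟨h x, h y⟩

theorem pmg_pmg {L : Type} [Field L] {a'' b'' : L} (φ : F →+* K) (ha : φ a = a') (hb : φ b = b')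
    (ψ : K →+* L) (ha' : ψ a' = a'') (hb' : ψ b' = b'') (χ : F →+* L) (hχa : χ a = a'')
    (hχb : χ b = b'') (h : ∀ x, ψ (φ x) = χ x) (P : Pt a b) :
    pmg ψ ha' hb' (pmg φ ha hb P) = pmg χ hχa hχb P := by
  rcases P with _ | ⟨x, y, hP⟩
  · show pmg ψ ha' hb' (pmg φ ha hb 0) = pmg χ hχa hχb 0
    rw [map_zero, map_zero, map_zero]
  · rw [pmg_some', pmg_some', pmg_some', Affine.Point.some.injEq]
    exact ⟨h x, h y⟩

end pm

section lang

variable {k : Type} [Field k] (q : ℕ) (a b : k)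

/-- the cubic polynomial -/
noncomputable def fp (k : Type) [Field k] (a b : k) : k[X] := X ^ 3 + C a * X + C b

/-- the numerator of the `x`-coordinate of `F P - P` -/
noncomputable def Np (k : Type) [Field k] (q : ℕ) (a b : k) : k[X] :=
  fp k a b * (fp k a b ^ ((q - 1) / 2) + 1) ^ 2 - (X ^ q + X) * (X ^ q - X) ^ 2

/-- the denominator -/
noncomputable def Dp (k : Type) [Field k] (q : ℕ) : k[X] := (X ^ q - X) ^ 2

lemma fp_deg : (fp k a b).natDegree ≤ 3 := by
  unfold fp
  compute_degree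

/-- `q` is a power of the characteristic, odd, at least three -/
structure QP (k : Type) [Field k] (q : ℕ) : Prop where
  ex : ∃ p₀ f : ℕ, p₀.Prime ∧ CharP k p₀ ∧ q = p₀ ^ f
  odd : Odd q
  three : 3 ≤ q

lemma fp_frob (hQ : QP k q) :
    fp k a b ^ q = X ^ (3 * q) + (C (a ^ q) * X ^ q + C (b ^ q)) := by
  obtain ⟨p₀, f, hp₀, hch, rfl⟩ := hQ.ex
  have : Fact p₀.Prime := ⟨hp₀⟩
  unfold fp
  rw [add_pow_char_pow, add_pow_char_pow, mul_pow, ← pow_mul, C_pow, C_pow]
  ring

lemma Np_eq (hQ : QP k q) : ∃ R : k[X], R.natDegree ≤ 2 * q ∧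
    Np k q a b = X ^ (2 * q + 1) + R := by
  have hodd : Odd q := hQ.odd
  have hq := hQ.three
  obtain ⟨e, he⟩ := hodd
  have he2 : (q - 1) / 2 = e := by omega
  refine ⟨C (a ^ q) * X ^ q + C (b ^ q) + 2 * fp k a b ^ (e + 1) + fp k a b +
    X ^ (q + 2) - X ^ 3, ?_, ?_⟩
  · have h1 : (2 * fp k a b ^ (e + 1)).natDegree ≤ 2 * q := by
      have e2 : (2 : k[X]) = C 2 := (map_ofNat C 2).symm
      rw [e2]
      refine (natDegree_C_mul_le _ _).trans ?_
      refine (natDegree_pow_le_of_le _ (fp_deg a b)).trans ?_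
      omega
    have h2 : (C (a ^ q) * X ^ q).natDegree ≤ 2 * q :=
      (natDegree_C_mul_X_pow_le _ _).trans (by omega)
    have h3 : (C (b ^ q)).natDegree ≤ 2 * q := by
      rw [natDegree_C]; omega
    have h4 : (fp k a b).natDegree ≤ 2 * q := (fp_deg a b).trans (by omega)
    have h5 : (X ^ (q + 2) : k[X]).natDegree ≤ 2 * q := (natDegree_X_pow_le _).trans (by omega)
    have h6 : (X ^ 3 : k[X]).natDegree ≤ 2 * q := (natDegree_X_pow_le _).trans (by omega)
    exact (natDegree_sub_le_of_le (natDegree_add_le_of_degree_le (natDegree_add_le_of_degree_le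
      (natDegree_add_le_of_degree_le (natDegree_add_le_of_degree_le h2 h3) h1) h4) h5) h6).trans
      (by simp)
  · have h1 := fp_frob (k := k) q a b hQ
    unfold Np
    rw [he2]
    have h2 : fp k a b * (fp k a b ^ e + 1) ^ 2 = fp k a b ^ q + 2 * fp k a b ^ (e + 1) +
        fp k a b := by
      have e3 : fp k a b ^ q = fp k a b ^ (2 * e + 1) := by rw [he]
      rw [e3]
      ring
    rw [h2, h1]
    ring

/-- `N - c D` -/
noncomputable def Pp (k : Type) [Field k] (q : ℕ) (a b : k) (c : k) : k[X] :=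
  Np k q a b - C c * Dp k q

lemma Pp_monic (hQ : QP k q) (c : k) :
    (Pp k q a b c).Monic ∧ (Pp k q a b c).natDegree = 2 * q + 1 := by
  have hq := hQ.three
  obtain ⟨R, hR, e⟩ := Np_eq (k := k) q a b hQ
  have hD : (C c * Dp k q).natDegree ≤ 2 * q := by
    refine (natDegree_C_mul_le _ _).trans ?_
    unfold Dp
    have h1 : (X ^ q - X : k[X]).natDegree ≤ q :=
      (natDegree_sub_le_of_le (natDegree_X_pow_le q) natDegree_X_le).trans (by
        rw [max_eq_left (by omega)])
    exact natDegree_pow_le_of_le 2 h1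
  have h2 : (R - C c * Dp k q).natDegree ≤ 2 * q :=
    (natDegree_sub_le_of_le hR hD).trans (by simp)
  have e2 : Pp k q a b c = X ^ (2 * q + 1) + (R - C c * Dp k q) := by
    unfold Pp
    rw [e]
    ring
  have h3 : (R - C c * Dp k q).degree < ((2 * q + 1 : ℕ) : WithBot ℕ) :=
    degree_le_natDegree.trans_lt (by exact_mod_cast Nat.lt_succ_of_le h2)
  rw [e2]
  refine ⟨monic_X_pow_add h3, ?_⟩
  apply natDegree_eq_of_degree_eq_some
  rw [degree_add_eq_left_of_degree_lt (by rw [degree_X_pow]; exact h3), degree_X_pow]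

lemma Dp_ne (hQ : QP k q) : Dp k q ≠ 0 := by
  unfold Dp
  exact pow_ne_zero _ (FiniteField.X_pow_card_sub_X_ne_zero k (by have := hQ.three; omega : 1 < q))

/-- the bad values -/
lemma bad_finite [IsAlgClosed k] (hQ : QP k q) :
    {c : k | ∀ x : k, (Pp k q a b c).eval x = 0 → x ^ q = x}.Finite := by
  have hne : (X ^ q - X : k[X]) ≠ 0 :=
    FiniteField.X_pow_card_sub_X_ne_zero k (by have := hQ.three; omega : 1 < q)
  set T : Finset k := (X ^ q - X : k[X]).roots.toFinset with hT
  have hTm : ∀ x : k, x ∈ T ↔ x ^ q = x := by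
    intro x
    rw [hT, Multiset.mem_toFinset, mem_roots hne, IsRoot.def, eval_sub, eval_pow, eval_X,
      sub_eq_zero]
  have hinj : Function.Injective (fun c : k => (Pp k q a b c).roots) := by
    intro c c' h
    have h1 : ∀ c : k, Pp k q a b c = ((Pp k q a b c).roots.map (fun x => X - C x)).prod := by
      intro c
      exact (IsAlgClosed.splits (Pp k q a b c)).eq_prod_roots_of_monic (Pp_monic q a b hQ c).1
    have h2 : Pp k q a b c = Pp k q a b c' := by
      rw [h1 c, h1 c']
      simp only at h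
      rw [h]
    unfold Pp at h2
    have h3 : C c * Dp k q = C c' * Dp k q := by linear_combination -h2
    exact C_injective (mul_right_cancel₀ (Dp_ne q hQ) h3)
  have hfin : {s : Multiset k | (∀ x ∈ s, x ∈ T) ∧ s.card = 2 * q + 1}.Finite := by
    refine ((T.sym (2 * q + 1)).finite_toSet.image (fun s : Sym k (2 * q + 1) =>
      (s : Multiset k))).subset ?_
    rintro s ⟨h1, h2⟩
    exact ⟨Sym.mk s h2, Finset.mem_sym_iff.2 h1, rfl⟩
  refine (hfin.preimage hinj.injOn).subset ?_
  intro c hc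
  have hm := Pp_monic q a b hQ c
  refine ⟨?_, ?_⟩
  · intro x hx
    rw [hTm]
    exact hc x ((mem_roots hm.1.ne_zero).1 hx)
  · show (Pp k q a b c).roots.card = 2 * q + 1
    rw [← hm.2]
    exact (IsAlgClosed.splits (Pp k q a b c)).natDegree_eq_card_roots.symm

variable [IsAlgClosed k] (φ : k →+* k) (hφ : ∀ x, φ x = x ^ q) (ha : φ a = a) (hb : φ b = b)

include hφ in
lemma lang_generic (hQ : QP k q) (hD : Disc a b) {c d : k}
    (h : (CV a b).toAffine.Nonsingular c d)
    (hc : ¬ ∀ x : k, (Pp k q a b c).eval x = 0 → x ^ q = x) :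
    ∃ P : Pt a b, pmg φ ha hb P - P = Affine.Point.some c d h := by
  push Not at hc
  obtain ⟨x, hx, hne⟩ := hc
  obtain ⟨y, hy⟩ : ∃ y : k, y ^ 2 = x ^ 3 + a * x + b :=
    IsAlgClosed.exists_pow_nat_eq _ (by norm_num)
  have hP := (nonsingular_iff hD).2 hy
  have hy' : Eqn a b x (-y) := by unfold Eqn; rw [neg_sq]; exact hy
  have hP' := (nonsingular_iff hD).2 hy'
  have hF := ns_mapg φ ha hb hP
  have hFx : φ x = x ^ q := hφ x
  have hFy : φ y = y ^ q := hφ y
  have hne' : φ x ≠ x := by rw [hFx]; exact hne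
  obtain ⟨l, hl⟩ : ∃ l : k, l = (φ y - -y) / (φ x - x) := ⟨_, rfl⟩
  obtain ⟨x₃, hx₃⟩ : ∃ x₃ : k, x₃ = l ^ 2 - φ x - x := ⟨_, rfl⟩
  obtain ⟨y₃, hy₃⟩ : ∃ y₃ : k, y₃ = -(l * (x₃ - φ x) + φ y) := ⟨_, rfl⟩
  obtain ⟨h₃, e₃⟩ := add_ne hF hP' hne' l x₃ y₃ hl hx₃ hy₃
  have hxc : x₃ = c := by
    have hodd : Odd q := hQ.odd
    have hq := hQ.three
    obtain ⟨e, he⟩ := hodd
    have he2 : (q - 1) / 2 = e := by omega
    have hev : (Pp k q a b c).eval x = (x ^ 3 + a * x + b) * ((x ^ 3 + a * x + b) ^ e + 1) ^ 2 -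
        (x ^ q + x) * (x ^ q - x) ^ 2 - c * (x ^ q - x) ^ 2 := by
      unfold Pp Np Dp fp
      rw [he2]
      simp only [eval_sub, eval_mul, eval_add, eval_pow, eval_X, eval_C, eval_one]
    have hyq : y ^ q = (x ^ 3 + a * x + b) ^ e * y := by
      rw [he, pow_succ, pow_mul, hy]
    have hne2 : x ^ q - x ≠ 0 := sub_ne_zero.2 hne
    rw [hev, ← hy] at hx
    rw [hx₃, hl, hFx, hFy, hyq, ← hy, div_pow, sub_sub, sub_eq_iff_eq_add, div_eq_iff (pow_ne_zero _ hne2)]
    linear_combination hx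
  have key : pmg φ ha hb (Affine.Point.some x y hP) - Affine.Point.some x y hP =
      Affine.Point.some x₃ y₃ h₃ := by
    rw [sub_eq_add_neg, neg_some' hP hP']
    rw [pmg_some φ ha hb hP hF]
    exact e₃
  subst hxc
  rcases pt_eq_or h h₃ with h5 | h5
  · exact ⟨_, by rw [key, h5]⟩
  · refine ⟨-Affine.Point.some x y hP, ?_⟩
    have e6 : pmg φ ha hb (-Affine.Point.some x y hP) - -Affine.Point.some x y hP =
        -(pmg φ ha hb (Affine.Point.some x y hP) - Affine.Point.some x y hP) := by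
      rw [map_neg]; abel
    rw [e6, key, h5, neg_neg]

include hφ in
/-- **Lang's theorem** -/
theorem lang (hQ : QP k q) (hD : Disc a b) (Q : Pt a b) :
    ∃ P : Pt a b, pmg φ ha hb P - P = Q := by
  have hfin := finite_x (a := a) (b := b) _ (bad_finite (k := k) q a b hQ)
  set S := {P : Pt a b | P = 0 ∨ ∃ (x y : k)
    (h : (CV a b).toAffine.Nonsingular x y), P = Affine.Point.some x y h ∧
      x ∈ {c : k | ∀ x : k, (Pp k q a b c).eval x = 0 → x ^ q = x}} with hS
  have hgen : ∀ P : Pt a b, P ∉ S → ∃ R : Pt a b, pmg φ ha hb R - R = P := by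
    intro P hP
    rcases P with _ | ⟨c, d, h⟩
    · exact absurd (Or.inl rfl) hP
    · refine lang_generic q a b φ hφ ha hb hQ hD h ?_
      intro hc
      exact hP (Or.inr ⟨c, d, h, rfl, hc⟩)
  have := pt_infinite hD
  obtain ⟨P, hP⟩ := (hfin.union (hfin.preimage (fun x _ y _ h => sub_right_injective h :
    Set.InjOn (fun P => Q - P) _))).exists_notMem
  rw [Set.mem_union, not_or] at hP
  obtain ⟨R₁, h₁⟩ := hgen P hP.1
  obtain ⟨R₂, h₂⟩ := hgen (Q - P) hP.2
  refine ⟨R₁ + R₂, ?_⟩
  have e : pmg φ ha hb (R₁ + R₂) - (R₁ + R₂) = (pmg φ ha hb R₁ - R₁) + (pmg φ ha hb R₂ - R₂) := by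
    rw [map_add]; abel
  rw [e, h₁, h₂]
  abel

end lang

end Pool.Agent.H92P
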