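import Pool.Agent.H92P.Res3
import Pool.Graph.R_pool_sql_team_seeded_b677cdb8.E8helper21.Loc

/-! Local triviality of cocycles over `K_v`, good reduction. -/

set_option autoImplicit false
set_option linter.all false

namespace Pool.Agent.H92P

open WeierstrassCurve NumberField IsDedekindDomain Pool.Agent.H901R3.MS Polynomial
open Pool.Agent.Y304.CT (V)
open Pool.Agent.E8helper21 (pt_eq_or finite_x nil_fix)
open scoped Classical NNReal

/-- the coordinates of a point -/
noncomputable def crd {F : Type} [Field F] {a b : F} : Pt a b → Finset F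
  | Affine.Point.zero => ∅
  | Affine.Point.some x y _ => {x, y}

lemma pmg_congr {F K : Type} [Field F] [Field K] {a b : F} {a' b' : K} (f g : F →+* K)
    (ha : f a = a') (hb : f b = b') (ha' : g a = a') (hb' : g b = b') (Q : Pt a b)
    (h : ∀ x ∈ crd Q, f x = g x) : pmg f ha hb Q = pmg g ha' hb' Q := by
  rcases Q with _ | ⟨x, y, hP⟩
  · exact (map_zero (pmg f ha hb)).trans (map_zero (pmg g ha' hb')).symm
  · rw [pmg_some', pmg_some', Affine.Point.some.injEq]
    exact ⟨h x (by simp [crd]), h y (by simp [crd])⟩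

lemma pmg_fix {F : Type} [Field F] {a b : F} (f : F →+* F)
    (ha : f a = a) (hb : f b = b) (Q : Pt a b)
    (h : ∀ x ∈ crd Q, f x = x) : pmg f ha hb Q = Q := by
  rcases Q with _ | ⟨x, y, hP⟩
  · exact map_zero (pmg f ha hb)
  · rw [pmg_some', Affine.Point.some.injEq]
    exact ⟨h x (by simp [crd]), h y (by simp [crd])⟩

lemma crd_fix {F : Type} [Field F] {a b : F} (f : F →+* F)
    (ha : f a = a) (hb : f b = b) (Q : Pt a b) (h : pmg f ha hb Q = Q) : ∀ x ∈ crd Q, f x = x := by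
  rcases Q with _ | ⟨x, y, hP⟩
  · intro x hx
    exact absurd hx (Finset.notMem_empty x)
  · rw [pmg_some', Affine.Point.some.injEq] at h
    intro z hz
    have hz' : z = x ∨ z = y := by simpa [crd] using hz
    rcases hz' with rfl | rfl
    · exact h.1
    · exact h.2

section

variable {K : Type} [Field K] [NumberField K] {v : HeightOneSpectrum (𝓞 K)} {a b : 𝓞 K}

/-- the points over the algebraic closure of `K_v` -/
abbrev PO (v : HeightOneSpectrum (𝓞 K)) (a b : 𝓞 K) : Type := Pt (e0 v (a : K)) (e0 v (b : K))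

/-- the points over the residue field -/
abbrev PR (v : HeightOneSpectrum (𝓞 K)) (a b : 𝓞 K) : Type := Pt (r0 v a) (r0 v b)

/-- the action of the Galois group on the points -/
noncomputable def ac (a b : 𝓞 K) (τ : Gv v) : PO v a b →+ PO v a b :=
  pmg (τ : Om v →+* Om v) (e0_fix τ a) (e0_fix τ b)

lemma ac_mul (σ τ : Gv v) (P : PO v a b) : ac a b (σ * τ) P = ac a b σ (ac a b τ P) :=
  (pmg_pmg _ _ _ _ _ _ _ _ _ (fun _ => rfl) P).symm

lemma ac_one (P : PO v a b) : ac a b (1 : Gv v) P = P :=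
  pmg_id _ _ _ (fun _ => rfl) P

/-- the action on the points over the residue field -/
noncomputable def Ra (a b : 𝓞 K) (τ : Gv v) : PR v a b →+ PR v a b :=
  pmg (ra τ) (ra_r0 τ a) (ra_r0 τ b)

lemma Ra_mul (σ τ : Gv v) (P : PR v a b) : Ra a b (σ * τ) P = Ra a b σ (Ra a b τ P) :=
  (pmg_pmg _ _ _ _ _ _ _ _ _ (fun x => (ra_mul σ τ x).symm) P).symm

lemma fr_r0 (x : 𝓞 K) : fr v (r0 v x) = r0 v x := by rw [fr_apply, r0_pow]

/-- the Frobenius endomorphism -/
noncomputable def FrE (v : HeightOneSpectrum (𝓞 K)) (a b : 𝓞 K) : AddMonoid.End (PR v a b) :=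
  pmg (fr v) (fr_r0 a) (fr_r0 b)

lemma FrE_some {x y : kk v} (g : (CV (r0 v a) (r0 v b)).toAffine.Nonsingular x y) :
    ∃ g', FrE v a b (Affine.Point.some x y g) = Affine.Point.some (x ^ qv v) (y ^ qv v) g' := by
  have h : FrE v a b (Affine.Point.some x y g) = _ := pmg_some' (fr v) (fr_r0 a) (fr_r0 b) g
  have h2 := ns_mapg (fr v) (fr_r0 a) (fr_r0 b) g
  refine ⟨by rw [← fr_apply, ← fr_apply]; exact h2, ?_⟩
  rw [h, Affine.Point.some.injEq]
  exact ⟨fr_apply x, fr_apply y⟩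

lemma FrE_pow_some (i : ℕ) {x y : kk v} (g : (CV (r0 v a) (r0 v b)).toAffine.Nonsingular x y) :
    ∃ g', (FrE v a b ^ i) (Affine.Point.some x y g) =
      Affine.Point.some (x ^ qv v ^ i) (y ^ qv v ^ i) g' := by
  induction i with
  | zero =>
    have e : ∀ z : kk v, z ^ qv v ^ 0 = z := fun z => by rw [pow_zero, pow_one]
    refine ⟨by rw [e, e]; exact g, ?_⟩
    rw [pow_zero]
    show Affine.Point.some x y g = _
    rw [Affine.Point.some.injEq]
    exact ⟨(e x).symm, (e y).symm⟩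
  | succ i ih =>
    obtain ⟨g', e⟩ := ih
    obtain ⟨g'', e'⟩ := FrE_some g'
    have e1 : ∀ z : kk v, z ^ qv v ^ (i + 1) = (z ^ qv v ^ i) ^ qv v := fun z => by
      rw [← pow_mul, pow_succ]
    refine ⟨by rw [e1, e1]; exact g'', ?_⟩
    have e2 : (FrE v a b ^ (i + 1)) (Affine.Point.some x y g) =
        FrE v a b ((FrE v a b ^ i) (Affine.Point.some x y g)) := by
      rw [pow_succ']
      rfl
    rw [e2, e, e', Affine.Point.some.injEq]
    exact ⟨(e1 x).symm, (e1 y).symm⟩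

/-- powers of a Frobenius element -/
lemma ra_pow {S : Finset (kk v)} {φ : Gv v} (hφ : ∀ x ∈ S, ra φ x = x ^ qv v) (i : ℕ) :
    ∀ x ∈ S, ra (φ ^ i) x = x ^ qv v ^ i := by
  induction i with
  | zero => intro x hx; rw [pow_zero, ra_one, pow_zero, pow_one]
  | succ i ih =>
    intro x hx
    rw [pow_succ', ra_mul, ih x hx, map_pow, hφ x hx, ← pow_mul, pow_succ']

lemma Ra_pow {S : Finset (kk v)} {φ : Gv v} (hφ : ∀ x ∈ S, ra φ x = x ^ qv v) (i : ℕ)
    (Q : PR v a b) (hQ : crd Q ⊆ S) : Ra a b (φ ^ i) Q = (FrE v a b ^ i) Q := by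
  rcases Q with _ | ⟨x, y, g⟩
  · exact (map_zero (Ra a b (φ ^ i))).trans (map_zero (FrE v a b ^ i)).symm
  · obtain ⟨g', e⟩ := FrE_pow_some (a := a) (b := b) i g
    rw [e]
    have h1 : Ra a b (φ ^ i) (Affine.Point.some x y g) = _ :=
      pmg_some' (ra (φ ^ i)) (ra_r0 _ a) (ra_r0 _ b) g
    rw [h1, Affine.Point.some.injEq]
    exact ⟨ra_pow hφ i x (hQ (by simp [crd])), ra_pow hφ i y (hQ (by simp [crd]))⟩

lemma Ra_fr {S : Finset (kk v)} {φ : Gv v} (hφ : ∀ x ∈ S, ra φ x = x ^ qv v)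
    (Q : PR v a b) (hQ : crd Q ⊆ S) : Ra a b φ Q = FrE v a b Q := by
  have := Ra_pow (a := a) (b := b) hφ 1 Q hQ
  rwa [pow_one, pow_one] at this

/-- finitely many points are fixed by a power of the Frobenius map -/
lemma fr_fixed_finite {i : ℕ} (hi : i ≠ 0) : {Q : PR v a b | (FrE v a b ^ i) Q = Q}.Finite := by
  have hqi : 1 < qv v ^ i := Nat.one_lt_pow hi (one_lt_qv v)
  have hne : (X ^ (qv v ^ i) - X : (kk v)[X]) ≠ 0 := FiniteField.X_pow_card_sub_X_ne_zero _ hqi
  refine (finite_x (a := r0 v a) (b := r0 v b) _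
    (X ^ (qv v ^ i) - X : (kk v)[X]).roots.toFinset.finite_toSet).subset ?_
  intro Q hQ
  rcases Q with _ | ⟨x, y, g⟩
  · exact Or.inl rfl
  · right
    refine ⟨x, y, g, rfl, ?_⟩
    obtain ⟨g', e⟩ := FrE_pow_some (a := a) (b := b) i g
    have h1 : (FrE v a b ^ i) (Affine.Point.some x y g) = Affine.Point.some x y g := hQ
    rw [e, Affine.Point.some.injEq] at h1
    rw [Finset.mem_coe, Multiset.mem_toFinset, mem_roots hne, IsRoot.def, eval_sub, eval_pow,
      eval_X, sub_eq_zero]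
    exact h1.1

end

end Pool.Agent.H92P
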