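import Pool.Agent.H92P.Loc

/-! The reduction of the points over the algebraic closure of `K_v`, good reduction. -/

set_option autoImplicit false
set_option linter.all false

namespace Pool.Agent.H92P

open WeierstrassCurve NumberField IsDedekindDomain Pool.Agent.H901R3.MS Polynomial
open Pool.Agent.Y304.CT (V)
open Pool.Agent.E8helper21 (pt_eq_or finite_x nil_fix)
open scoped Classical NNReal

section

variable {K : Type} [Field K] [NumberField K] {v : HeightOneSpectrum (𝓞 K)} {a b : 𝓞 K}

lemma disc_kk (hd : 2 * (4 * a ^ 3 + 27 * b ^ 2) ∉ v.asIdeal) : Disc (r0 v a) (r0 v b) := by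
  intro h
  apply hd
  rw [← r0_eq_zero, ← h]
  simp only [map_mul, map_add, map_pow, map_ofNat]

lemma two_ne (hd : 2 * (4 * a ^ 3 + 27 * b ^ 2) ∉ v.asIdeal) : (2 : kk v) ≠ 0 := by
  intro h
  apply disc_kk hd
  rw [h, zero_mul]

lemma nat_ne {p : ℕ} (hp : (p : 𝓞 K) ∉ v.asIdeal) : (p : kk v) ≠ 0 := by
  intro h
  apply hp
  rw [← r0_eq_zero, map_natCast, h]

lemma qpv (h2 : (2 : kk v) ≠ 0) : QP (kk v) (qv v) := by
  obtain ⟨p₀, f, hp, hc, hq, hf, -⟩ := qv_ex v
  have hp2 : p₀ ≠ 2 := by
    rintro rfl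
    apply h2
    exact_mod_cast CharP.cast_eq_zero (kk v) 2
  have hodd : Odd (qv v) := by
    rw [hq]
    exact (hp.odd_of_ne_two hp2).pow
  refine ⟨⟨p₀, f, hp, hc, hq⟩, hodd, ?_⟩
  have := one_lt_qv v
  obtain ⟨j, hj⟩ := hodd
  omega

variable (hd : 2 * (4 * a ^ 3 + 27 * b ^ 2) ∉ v.asIdeal)

include hd in
lemma red_ex : ∃ red : PO v a b →+ PR v a b, IsRedK (vv v) (e0 v (a : K)) (e0 v (b : K)) red :=
  t_R6K t_R1K t_R2K t_R3K t_R4K t_R5K (Om v) (kk v) (vv v) (e0 v (a : K)) (e0 v (b : K)) (V_e0 a)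
    (V_e0 b) (disc_kk hd)

/-- the reduction -/
noncomputable def red : PO v a b →+ PR v a b := (red_ex hd).choose

lemma red_spec : IsRedK (vv v) (e0 v (a : K)) (e0 v (b : K)) (red hd) := (red_ex hd).choose_spec

lemma red_not {x y : Om v} (h : (CV (e0 v (a : K)) (e0 v (b : K))).toAffine.Nonsingular x y)
    (hx : ¬ V v x ≤ 1) : red hd (Affine.Point.some x y h) = 0 := (red_spec hd).2.1 x y h hx

lemma red_some {x y : Om v} (h : (CV (e0 v (a : K)) (e0 v (b : K))).toAffine.Nonsingular x y)
    (hx : V v x ≤ 1) : V v y ≤ 1 ∧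
    ∃ g : (CV (r0 v a) (r0 v b)).toAffine.Nonsingular ((vv v).r x) ((vv v).r y),
      red hd (Affine.Point.some x y h) = Affine.Point.some _ _ g := (red_spec hd).2.2 x y h hx

lemma red_ac (τ : Gv v) (P : PO v a b) : red hd (ac a b τ P) = Ra a b τ (red hd P) := by
  rcases P with _ | ⟨x, y, h⟩
  · show red hd (ac a b τ 0) = Ra a b τ (red hd 0)
    rw [map_zero, map_zero, map_zero]
  · have h1 : ac a b τ (Affine.Point.some x y h) = _ :=
      pmg_some' (τ : Om v →+* Om v) (e0_fix τ a) (e0_fix τ b) h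
    rw [h1]
    by_cases hx : V v x ≤ 1
    · obtain ⟨hy, g, e⟩ := red_some hd h hx
      have hx' : V v ((τ : Om v →+* Om v) x) ≤ 1 := by
        show V v (τ x) ≤ 1
        rwa [V_act]
      obtain ⟨hy', g', e'⟩ := red_some hd
        (ns_mapg (τ : Om v →+* Om v) (e0_fix τ a) (e0_fix τ b) h) hx'
      rw [e, e']
      have h2 : Ra a b τ (Affine.Point.some _ _ g) = _ :=
        pmg_some' (ra τ) (ra_r0 τ a) (ra_r0 τ b) g
      rw [h2, Affine.Point.some.injEq]
      exact ⟨(ra_r τ hx).symm, (ra_r τ hy).symm⟩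
    · rw [red_not hd h hx, map_zero]
      apply red_not
      show ¬ V v (τ x) ≤ 1
      rwa [V_act]

include hd in
/-- no torsion of order prime to the residue characteristic in the kernel of the reduction -/
lemma ker_tors {p : ℕ} (hp : (p : kk v) ≠ 0) {P : PO v a b} (hP : p • P = 0)
    (h0 : red hd P = 0) : P = 0 :=
  no_tors (vv v) (e0 v (a : K)) (e0 v (b : K)) (V_e0 a) (V_e0 b) (red hd) (red_spec hd) p hp P hP h0

include hd in
lemma disc_om : Disc (e0 v (a : K)) (e0 v (b : K)) :=
  disc_lift (vv v) (V_e0 a) (V_e0 b) (disc_kk hd)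

lemma om_char : CharZero (Om v) := by
  have h : CharZero (v.adicCompletion K) := algebraRat.charZero _
  exact charZero_of_injective_algebraMap (algebraMap (v.adicCompletion K) (Om v)).injective

include hd in
lemma lift_t {p : ℕ} (hpp : p.Prime) (hp : (p : kk v) ≠ 0) (t : PR v a b) (ht : p • t = 0) :
    ∃ T : PO v a b, p • T = 0 ∧ red hd T = t := by
  have := om_char (v := v)
  exact lift_tors (vv v) (V_e0 a) (V_e0 b) (disc_kk hd) (two_ne hd) (red hd) (red_spec hd) hpp hp t ht

include hd in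
lemma div_om {n : ℕ} (hn : 1 ≤ n) (P : PO v a b) : ∃ R, n • R = P := by
  have := om_char (v := v)
  exact divG two_ne_zero (disc_om hd) hn P

lemma r_add_sq {x y : Om v} (hy : V v (y ^ 2) ≤ 1) : V v y ≤ 1 := by
  rw [map_pow] at hy
  by_contra hcon
  rw [not_le] at hcon
  exact absurd hy (not_le.2 (one_lt_pow₀ hcon two_ne_zero))

include hd in
/-- **rational points lift** -/
theorem lift_fix (Q : PR v a b) (hQ : FrE v a b Q = Q) :
    ∃ s : PO v a b, (∀ τ : Gv v, ac a b τ s = s) ∧ red hd s = Q := by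
  have hDL := disc_om hd
  have hDk := disc_kk hd
  rcases Q with _ | ⟨x, y, g⟩
  · exact ⟨0, fun τ => map_zero _, map_zero _⟩
  obtain ⟨g', e⟩ := FrE_some g
  rw [e, Affine.Point.some.injEq] at hQ
  obtain ⟨hxq, hyq⟩ := hQ
  obtain ⟨X0, hX0⟩ := r0_surj hxq
  set A := e0 v (a : K) with hA
  set B := e0 v (b : K) with hB
  have hAi : A ∈ (vv v).A := V_e0 a
  have hBi : B ∈ (vv v).A := V_e0 b
  have hAr : (vv v).r A = r0 v a := rfl
  have hBr : (vv v).r B = r0 v b := rfl
  have hrf : ∀ z : Om v, z ∈ (vv v).A → z ^ 3 + A * z + B ∈ (vv v).A ∧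
      (vv v).r (z ^ 3 + A * z + B) = (vv v).r z ^ 3 + r0 v a * (vv v).r z + r0 v b := by
    intro z hz
    have m1 := (vv v).A.pow_mem hz 3
    have m2 := (vv v).A.mul_mem hAi hz
    refine ⟨(vv v).A.add_mem ((vv v).A.add_mem m1 m2) hBi, ?_⟩
    rw [(vv v).r_add ((vv v).A.add_mem m1 m2) hBi, (vv v).r_add m1 m2, (vv v).r_pow hz,
      (vv v).r_mul hAi hz, hAr, hBr]
  have hg := eqn_of g
  unfold Eqn at hg
  by_cases hy0 : y = 0
  · -- a root of the cubic polynomial
    set z : Om v := e0 v (X0 : K) with hz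
    have hzi : z ∈ (vv v).A := V_e0 X0
    have hzr : (vv v).r z = x := hX0
    obtain ⟨ξ, hξ, hξi, hξr⟩ : ∃ ξ : Om v, ξ ^ 3 + A * ξ + B = 0 ∧ V v ξ ≤ 1 ∧ (vv v).r ξ = x := by
      set f : (Om v)[X] := X ^ 3 + C A * X + C B with hf
      have hmon : f.Monic := by
        have : f = X ^ 3 + (C A * X + C B) := by rw [hf]; ring
        rw [this]
        exact monic_X_pow_add (by
          refine lt_of_le_of_lt (degree_linear_le) ?_
          norm_num)
      have hfe : ∀ ξ, f.eval ξ = ξ ^ 3 + A * ξ + B := by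
        intro ξ
        rw [hf]
        simp only [eval_add, eval_pow, eval_X, eval_mul, eval_C]
      have hfz : V v (f.eval z) < 1 := by
        rw [hfe, ← r_eq_zero (hrf z hzi).1, (hrf z hzi).2, hzr, ← hg, hy0]
        ring
      by_contra hcon
      push Not at hcon
      have h4 : f.eval z = (f.roots.map (fun ξ => z - ξ)).prod := by
        conv_lhs => rw [(IsAlgClosed.splits f).eq_prod_roots_of_monic hmon]
        rw [eval_multiset_prod, Multiset.map_map]
        congr 1
        apply Multiset.map_congr rfl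
        intro ξ _
        simp
      have h5 : ∀ s : Multiset (Om v), (∀ ξ ∈ s, f.eval ξ = 0) →
          1 ≤ V v ((s.map (fun ξ => z - ξ)).prod) := by
        intro s
        induction s using Multiset.induction_on with
        | empty => intro _; simp
        | cons ξ s ih =>
          intro hs
          rw [Multiset.map_cons, Multiset.prod_cons, map_mul]
          have h7 := ih fun ξ' h' => hs ξ' (Multiset.mem_cons_of_mem h')
          refine one_le_mul_of_one_le_of_one_le ?_ h7
          by_contra hlt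
          rw [not_le] at hlt
          have h8 : ξ ∈ (vv v).A := by
            have e8 : ξ = z - (z - ξ) := by ring
            rw [e8]
            exact (vv v).A.sub_mem hzi hlt.le
          refine hcon ξ ((hfe ξ).symm.trans (hs ξ (Multiset.mem_cons_self _ _))) h8 ?_
          rw [← hzr]
          exact ((r_eq_iff hzi h8).2 hlt).symm
      have h6 := h5 f.roots fun ξ h' => (mem_roots hmon.ne_zero).1 h'
      rw [h4] at hfz
      exact absurd h6 (not_le.2 hfz)
    have hS : (CV A B).toAffine.Nonsingular ξ 0 :=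
      (nonsingular_iff hDL).2 (by unfold Eqn; rw [hξ]; ring)
    refine ⟨Affine.Point.some ξ 0 hS, fun τ => ?_, ?_⟩
    · have h1 : ac a b τ (Affine.Point.some ξ 0 hS) = _ :=
        pmg_some' (τ : Om v →+* Om v) (e0_fix τ a) (e0_fix τ b) hS
      rw [h1, Affine.Point.some.injEq]
      refine ⟨?_, map_zero _⟩
      show τ ξ = ξ
      by_contra hne2
      have hτi : τ ξ ∈ (vv v).A := by
        show V v (τ ξ) ≤ 1
        rwa [V_act]
      have h1 : (vv v).r (τ ξ) = x := by
        rw [← ra_r τ hξi, hξr, ra_fix hxq]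
      have h2 : (τ ξ) ^ 3 + A * τ ξ + B = 0 := by
        have := congrArg τ hξ
        rw [map_add, map_add, map_mul, map_pow, hA, hB, e0_fix, e0_fix, map_zero] at this
        exact this
      have h3 : (τ ξ - ξ) * ((τ ξ) ^ 2 + τ ξ * ξ + ξ ^ 2 + A) = 0 := by
        linear_combination h2 - hξ
      have h4 := (mul_eq_zero.1 h3).resolve_left (sub_ne_zero.2 hne2)
      have h5 : x ^ 2 + x * x + x ^ 2 + r0 v a = 0 := by
        have h6 := congrArg (vv v).r h4
        rw [(vv v).r_zero, (vv v).r_add ((vv v).A.add_mem ((vv v).A.add_mem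
          ((vv v).A.pow_mem hτi 2) ((vv v).A.mul_mem hτi hξi)) ((vv v).A.pow_mem hξi 2)) hAi,
          (vv v).r_add ((vv v).A.add_mem ((vv v).A.pow_mem hτi 2) ((vv v).A.mul_mem hτi hξi))
          ((vv v).A.pow_mem hξi 2), (vv v).r_add ((vv v).A.pow_mem hτi 2)
          ((vv v).A.mul_mem hτi hξi), (vv v).r_mul hτi hξi, (vv v).r_pow hτi,
          (vv v).r_pow hξi, hAr, h1, hξr] at h6
        exact h6
      apply hDk
      have ha : r0 v a = -3 * x ^ 2 := by linear_combination h5
      have hb : r0 v b = 2 * x ^ 3 := by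
        rw [ha, hy0] at hg
        linear_combination -hg
      rw [ha, hb]
      ring
    · obtain ⟨-, g1, e1⟩ := red_some hd hS hξi
      rw [e1, Affine.Point.some.injEq]
      exact ⟨hξr, by rw [hy0]; exact (vv v).r_zero⟩
  · set z : Om v := e0 v (X0 : K) with hz
    have hzi : z ∈ (vv v).A := V_e0 X0
    have hzr : (vv v).r z = x := hX0
    obtain ⟨s, hs⟩ : ∃ s : Om v, s ^ 2 = z ^ 3 + A * z + B :=
      IsAlgClosed.exists_pow_nat_eq _ (by norm_num)
    have hsi : ∀ s : Om v, s ^ 2 = z ^ 3 + A * z + B → s ∈ (vv v).A := by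
      intro s hs
      refine r_add_sq (x := s) ?_
      rw [hs]
      exact (hrf z hzi).1
    obtain ⟨s', hs', hrs'⟩ : ∃ s' : Om v, s' ^ 2 = z ^ 3 + A * z + B ∧ (vv v).r s' = y := by
      have h1 : ((vv v).r s - y) * ((vv v).r s + y) = 0 := by
        have h2 := congrArg (vv v).r hs
        rw [(vv v).r_pow (hsi s hs), (hrf z hzi).2, hzr] at h2
        linear_combination h2 - hg
      rcases mul_eq_zero.1 h1 with h2 | h2
      · exact ⟨s, hs, sub_eq_zero.1 h2⟩
      · refine ⟨-s, by rw [neg_sq]; exact hs, ?_⟩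
        rw [(vv v).r_neg (hsi s hs), eq_neg_of_add_eq_zero_left h2, neg_neg]
    have hns' := (nonsingular_iff hDL).2 hs'
    have hsA' := hsi s' hs'
    refine ⟨Affine.Point.some z s' hns', fun τ => ?_, ?_⟩
    · have h1 : ac a b τ (Affine.Point.some z s' hns') = _ :=
        pmg_some' (τ : Om v →+* Om v) (e0_fix τ a) (e0_fix τ b) hns'
      rw [h1, Affine.Point.some.injEq]
      have hτz : τ z = z := e0_fix τ _
      refine ⟨hτz, ?_⟩
      show τ s' = s'
      have h2 : (τ s' - s') * (τ s' + s') = 0 := by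
        have := congrArg τ hs'
        simp only [map_add, map_mul, map_pow, hA, hB, hτz, e0_fix] at this
        linear_combination this - hs'
      rcases mul_eq_zero.1 h2 with h3 | h3
      · exact sub_eq_zero.1 h3
      · exfalso
        have h4 : (vv v).r (τ s') = y := by rw [← ra_r τ hsA', hrs', ra_fix hyq]
        rw [eq_neg_of_add_eq_zero_left h3, (vv v).r_neg hsA', hrs'] at h4
        apply hy0
        have h5 : (2 : kk v) * y = 0 := by linear_combination -h4
        exact (mul_eq_zero.1 h5).resolve_left (two_ne hd)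
    · obtain ⟨-, g1, e1⟩ := red_some hd hns' hzi
      rw [e1, Affine.Point.some.injEq]
      exact ⟨hzr, hrs'⟩

end

end Pool.Agent.H92P
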