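import Pool.Agent.H92P.Loc2

/-! Local triviality of `p`-torsion cocycles over `K_v`, good reduction. -/

set_option autoImplicit false
set_option linter.all false

namespace Pool.Agent.H92P

open WeierstrassCurve NumberField IsDedekindDomain Pool.Agent.H901R3.MS Polynomial
open Pool.Agent.Y304.CT (V)
open Pool.Agent.E8helper21 (pt_eq_or finite_x nil_fix)
open scoped Classical NNReal

section

variable {K : Type} [Field K] [NumberField K] {v : HeightOneSpectrum (𝓞 K)} {a b : 𝓞 K}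
variable (hd : 2 * (4 * a ^ 3 + 27 * b ^ 2) ∉ v.asIdeal)

include hd in
lemma kt_fin {p : ℕ} (hpp : p.Prime) : {t : PR v a b | p • t = 0}.Finite :=
  (card_tors_lt (two_ne hd) (disc_kk hd) (n := p) hpp.one_lt.le).1

include hd in
lemma ot_fin {p : ℕ} (hpp : p.Prime) : {t : PO v a b | p • t = 0}.Finite := by
  have := om_char (v := v)
  exact (tor (Om v) _ _ (disc_om hd) p hpp.one_lt.le).1

lemma coc_one (c : Gv v → PO v a b) (hc : ∀ σ τ, c (σ * τ) = c σ + ac a b σ (c τ)) : c 1 = 0 := by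
  have h := hc 1 1
  rw [mul_one, ac_one] at h
  exact (left_eq_add.1 h)

lemma coc_pow (c : Gv v → PO v a b) (hc : ∀ σ τ, c (σ * τ) = c σ + ac a b σ (c τ)) {φ : Gv v}
    (h : c φ = 0) (j : ℕ) : c (φ ^ j) = 0 := by
  induction j with
  | zero => rw [pow_zero]; exact coc_one c hc
  | succ j ih => rw [pow_succ, hc, ih, h, map_zero, add_zero]

lemma coc_sub (c : Gv v → PO v a b) (hc : ∀ σ τ, c (σ * τ) = c σ + ac a b σ (c τ))
    (y : PO v a b) (σ τ : Gv v) : c (σ * τ) - (ac a b (σ * τ) y - y) =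
      (c σ - (ac a b σ y - y)) + ac a b σ (c τ - (ac a b τ y - y)) := by
  rw [hc, ac_mul, map_sub, map_sub]
  abel

include hd in
/-- the unramified case -/
theorem core_U {p : ℕ} (hpp : p.Prime) (hp : (p : kk v) ≠ 0) (H : Subgroup (Gv v))
    (S₀ : Finset (kk v)) (hS : ∀ τ : Gv v, (∀ x ∈ S₀, ra τ x = x) → τ ∈ H)
    (c : Gv v → PO v a b) (hc : ∀ σ τ, c (σ * τ) = c σ + ac a b σ (c τ))
    (hcp : ∀ τ, p • c τ = 0) (P₂ : PO v a b) (hcH : ∀ τ ∈ H, c τ = ac a b τ P₂ - P₂) :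
    ∃ P, ∀ τ, c τ = ac a b τ P - P := by
  have hy := lang (qv v) (r0 v a) (r0 v b) (fr v) fr_apply (fr_r0 a) (fr_r0 b) (qpv (two_ne hd))
    (disc_kk hd)
  choose y hy using hy
  have hy' : ∀ Q, FrE v a b (y Q) - y Q = Q := hy
  set B := (kt_fin (v := v) hd hpp).toFinset with hB
  have hBm : ∀ t : PR v a b, t ∈ B ↔ p • t = 0 := fun t => by
    rw [hB, Set.Finite.mem_toFinset]; rfl
  set S : Finset (kk v) := S₀ ∪ B.biUnion fun t => crd (y t) ∪ crd (red hd P₂ - y t) with hSd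
  obtain ⟨φ, hφ⟩ := frob_ex S
  set t₀ := red hd (c φ) with ht₀
  have ht₀B : t₀ ∈ B := by rw [hBm, ht₀, ← map_nsmul, hcp, map_zero]
  have hyS : crd (y t₀) ⊆ S := by
    intro x hx
    exact Finset.mem_union_right _ (Finset.mem_biUnion.2 ⟨t₀, ht₀B, Finset.mem_union_left _ hx⟩)
  have hPS : crd (red hd P₂ - y t₀) ⊆ S := by
    intro x hx
    exact Finset.mem_union_right _ (Finset.mem_biUnion.2 ⟨t₀, ht₀B, Finset.mem_union_right _ hx⟩)
  have hfrt : FrE v a b (y t₀) = y t₀ + t₀ := by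
    rw [← hy' t₀]
    rw [hy' t₀]
    exact (sub_eq_iff_eq_add'.1 (hy' t₀))
  have hfix : FrE v a b (p • y t₀) = p • y t₀ := by
    rw [map_nsmul, hfrt, smul_add, (hBm _).1 ht₀B, add_zero]
  obtain ⟨s, hs, hsr⟩ := lift_fix hd _ hfix
  obtain ⟨y₁, hy₁⟩ := div_om hd hpp.one_lt.le s
  obtain ⟨T, hT, hTr⟩ := lift_t hd hpp hp (y t₀ - red hd y₁) (by
    rw [smul_sub, ← map_nsmul, hy₁, hsr, sub_self])
  set y₀ := y₁ + T with hy₀
  have hpy : p • y₀ = s := by rw [hy₀, smul_add, hy₁, hT, add_zero]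
  have hry : red hd y₀ = y t₀ := by rw [hy₀, map_add, hTr]; abel
  have hcc := coc_sub c hc y₀
  set c' : Gv v → PO v a b := fun τ => c τ - (ac a b τ y₀ - y₀) with hc'
  have hcc' : ∀ σ τ, c' (σ * τ) = c' σ + ac a b σ (c' τ) := hcc
  have hc'p : ∀ τ, p • c' τ = 0 := by
    intro τ
    simp only [hc']
    rw [smul_sub, hcp, smul_sub, ← map_nsmul, hpy, hs, sub_self, sub_self]
  have hφ0 : c' φ = 0 := by
    refine ker_tors hd hp (hc'p φ) ?_
    simp only [hc']
    rw [map_sub, map_sub, red_ac, hry, Ra_fr hφ _ hyS, hfrt, ← ht₀]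
    abel
  refine ⟨y₀, fun τ => ?_⟩
  suffices h : c' τ = 0 from sub_eq_zero.1 h
  obtain ⟨j, hj⟩ := pow_ex S τ
  set γ := (φ ^ j)⁻¹ * τ with hγ
  have hτ : τ = φ ^ j * γ := by rw [hγ]; group
  have hγS : ∀ x ∈ S, ra γ x = x := by
    intro x hx
    apply (ra (φ ^ j)).injective
    rw [← ra_mul, ← hτ, hj x hx, ra_pow hφ j x hx]
  have hγH : γ ∈ H := hS γ fun x hx => hγS x (Finset.mem_union_left _ hx)
  have hγ0 : c' γ = 0 := by
    refine ker_tors hd hp (hc'p γ) ?_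
    simp only [hc']
    have e : c γ - (ac a b γ y₀ - y₀) = ac a b γ (P₂ - y₀) - (P₂ - y₀) := by
      rw [hcH γ hγH, map_sub]; abel
    rw [e, map_sub, red_ac, map_sub, hry, sub_eq_zero]
    exact pmg_fix (ra γ) (ra_r0 γ a) (ra_r0 γ b) _ fun x hx => hγS x (hPS hx)
  rw [hτ, hcc', coc_pow c' hcc' hφ0, hγ0, map_zero, add_zero]

include hd in
/-- the case that there is no rational point of order `p` over the residue field -/
theorem core_R {p k : ℕ} (hpp : p.Prime) (hp : (p : kk v) ≠ 0) (H : Subgroup (Gv v)) [H.Normal]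
    (hidx : H.index = p ^ k)
    (hR : ∀ Q : PR v a b, FrE v a b Q = Q → p • Q = 0 → Q = 0)
    (c : Gv v → PO v a b) (hc : ∀ σ τ, c (σ * τ) = c σ + ac a b σ (c τ))
    (hcp : ∀ τ, p • c τ = 0) (P₂ : PO v a b) (hcH : ∀ τ ∈ H, c τ = ac a b τ P₂ - P₂) :
    ∃ P, ∀ τ, c τ = ac a b τ P - P := by
  set B := (kt_fin (v := v) hd hpp).toFinset with hB
  have hBm : ∀ t : PR v a b, t ∈ B ↔ p • t = 0 := fun t => by
    rw [hB, Set.Finite.mem_toFinset]; rfl
  set S : Finset (kk v) := (B.biUnion crd) ∪ crd (p • red hd P₂) with hSd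
  obtain ⟨φ, hφ⟩ := frob_ex S
  have hBS : ∀ t : PR v a b, p • t = 0 → crd t ⊆ S := fun t ht x hx =>
    Finset.mem_union_left _ (Finset.mem_biUnion.2 ⟨t, (hBm t).2 ht, hx⟩)
  have hPS : crd (p • red hd P₂) ⊆ S := Finset.subset_union_right
  have hnil := nil_fix hpp (FrE v a b) hR k
  -- the Frobenius element has no fixed point of order `p`
  obtain ⟨T₀, hT₀, hT₀e⟩ : ∃ T₀ : PO v a b, p • T₀ = 0 ∧ ac a b φ T₀ - T₀ = c φ := by
    set A : AddSubgroup (PO v a b) := tS _ _ p with hA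
    haveI : Finite A := (ot_fin (v := v) hd hpp).to_subtype
    let f : A → A := fun T => ⟨ac a b φ T.1 - T.1, by
      have h1 : p • T.1 = 0 := T.2
      have h2 : p • (ac a b φ T.1 - T.1) = 0 := by
        rw [smul_sub, ← map_nsmul, h1, map_zero, sub_zero]
      exact h2⟩
    have hinj : Function.Injective f := by
      intro T T' h
      have h1 : ac a b φ (T.1 - T'.1) = T.1 - T'.1 := by
        have h2 : ac a b φ T.1 - T.1 = ac a b φ T'.1 - T'.1 := congrArg Subtype.val h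
        rw [map_sub, sub_eq_sub_iff_sub_eq_sub]
        exact h2
      have h3 : p • (T.1 - T'.1) = 0 := by
        have e1 : p • T.1 = 0 := T.2
        have e2 : p • T'.1 = 0 := T'.2
        rw [smul_sub, e1, e2, sub_zero]
      have h4 : p • red hd (T.1 - T'.1) = 0 := by rw [← map_nsmul, h3, map_zero]
      have h5 : red hd (T.1 - T'.1) = 0 := by
        apply hR _ _ h4
        rw [← Ra_fr hφ _ (hBS _ h4), ← red_ac, h1]
      exact Subtype.ext (sub_eq_zero.1 (ker_tors hd hp h3 h5))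
    obtain ⟨T, hT⟩ := Finite.surjective_of_injective hinj ⟨c φ, hcp φ⟩
    exact ⟨T.1, T.2, congrArg Subtype.val hT⟩
  have hcc := coc_sub c hc T₀
  set c' : Gv v → PO v a b := fun τ => c τ - (ac a b τ T₀ - T₀) with hc'
  have hcc' : ∀ σ τ, c' (σ * τ) = c' σ + ac a b σ (c' τ) := hcc
  have hc'p : ∀ τ, p • c' τ = 0 := by
    intro τ
    simp only [hc']
    rw [smul_sub, hcp, smul_sub, ← map_nsmul, hT₀, map_zero, sub_self, sub_self]
  have hφ0 : c' φ = 0 := by
    simp only [hc']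
    rw [hT₀e, sub_self]
  set ψ := φ ^ (p ^ k) with hψ
  have hψH : ψ ∈ H := by
    rw [hψ, ← hidx]
    exact H.pow_index_mem φ
  have hψ0 : c' ψ = 0 := coc_pow c' hcc' hφ0 _
  set P₃ := P₂ - T₀ with hP₃
  have hcH' : ∀ τ ∈ H, c' τ = ac a b τ P₃ - P₃ := by
    intro τ hτ
    simp only [hc']
    rw [hcH τ hτ, hP₃, map_sub]
    abel
  have hψP : ac a b ψ P₃ = P₃ := by
    have := hcH' ψ hψH
    rw [hψ0] at this
    exact (sub_eq_zero.1 this.symm)
  have hpP : p • P₃ = p • P₂ := by rw [hP₃, smul_sub, hT₀, sub_zero]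
  set Sb := red hd (p • P₃) with hSb
  have hSb' : Sb = p • red hd P₂ := by rw [hSb, hpP, map_nsmul]
  have hSbf : (FrE v a b ^ (p ^ k)) Sb = Sb := by
    rw [← Ra_pow hφ _ Sb (by rw [hSb']; exact hPS), hSb, ← red_ac, map_nsmul, hψP]
  -- its order is prime to `p`
  obtain ⟨m, hm, hmS⟩ : ∃ m : ℕ, ¬ p ∣ m ∧ m • Sb = 0 := by
    set T : AddSubgroup (PR v a b) :=
      { carrier := {Q | (FrE v a b ^ (p ^ k)) Q = Q}
        zero_mem' := map_zero _
        add_mem' := by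
          intro x y hx hy
          simp only [Set.mem_ofPred_eq] at hx hy ⊢
          rw [map_add, hx, hy]
        neg_mem' := by
          intro x hx
          simp only [Set.mem_ofPred_eq] at hx ⊢
          rw [map_neg, hx] } with hT
    have hfin : Finite T :=
      (fr_fixed_finite (v := v) (a := a) (b := b) (pow_ne_zero k hpp.ne_zero)).to_subtype
    have h1 : IsOfFinAddOrder (⟨Sb, hSbf⟩ : T) := isOfFinAddOrder_of_finite _
    have h2 : 0 < addOrderOf Sb := by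
      rw [addOrderOf_pos_iff, isOfFinAddOrder_iff_nsmul_eq_zero]
      rw [isOfFinAddOrder_iff_nsmul_eq_zero] at h1
      obtain ⟨m, hm, e⟩ := h1
      exact ⟨m, hm, by
        have := congrArg Subtype.val e
        simpa using this⟩
    refine ⟨addOrderOf Sb, ?_, addOrderOf_nsmul_eq_zero Sb⟩
    rintro ⟨m, hm⟩
    have hm0 : 0 < m := by
      rcases Nat.eq_zero_or_pos m with h3 | h3
      · rw [h3, mul_zero] at hm; omega
      · exact h3
    have h3 : m • Sb = 0 := by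
      apply hnil
      · rw [map_nsmul, hSbf]
      · rw [← mul_smul, ← hm]
        exact addOrderOf_nsmul_eq_zero Sb
    have h4 := addOrderOf_dvd_of_nsmul_eq_zero h3
    have h5 := Nat.le_of_dvd hm0 h4
    have h6 := hpp.two_le
    nlinarith
  obtain ⟨n, hn⟩ : ∃ n : ℕ, ∀ x : PO v a b, p • x = 0 → (n * m) • x = x := by
    have hcop : Nat.Coprime m p := ((Nat.Prime.coprime_iff_not_dvd hpp).2 hm).symm
    obtain ⟨n, -, hn⟩ := Nat.exists_mul_mod_eq_one_of_coprime hcop hpp.one_lt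
    refine ⟨n, fun x hx => ?_⟩
    have e : n * m = p * (m * n / p) + 1 := by
      have := Nat.div_add_mod (m * n) p
      rw [hn] at this
      rw [mul_comm n m]
      exact this.symm
    rw [e, add_smul, one_smul, mul_comm p, mul_smul, hx, smul_zero, zero_add]
  set P₄ := (n * m) • P₃ with hP₄
  have hψP4 : ac a b ψ P₄ = P₄ := by rw [hP₄, map_nsmul, hψP]
  have hr4 : red hd P₄ = 0 := by
    have h1 : p • red hd P₄ = 0 := by
      rw [← map_nsmul, hP₄, smul_comm, map_nsmul, ← hSb, mul_smul, hmS, smul_zero]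
    apply hnil _ _ h1
    rw [← Ra_pow hφ _ _ (hBS _ h1), ← red_ac, hψP4]
  have hH0 : ∀ τ ∈ H, c' τ = 0 := by
    intro τ hτ
    refine ker_tors hd hp (hc'p τ) ?_
    have e : c' τ = ac a b τ P₄ - P₄ := by
      rw [← hn (c' τ) (hc'p τ), hcH' τ hτ, hP₄, smul_sub, map_nsmul]
    rw [e, map_sub, red_ac, hr4, map_zero, sub_zero]
  refine ⟨T₀, fun τ => ?_⟩
  suffices h : c' τ = 0 from sub_eq_zero.1 h
  have hf : ac a b ψ (c' τ) = c' τ := by
    have e1 : c' (ψ * τ) = ac a b ψ (c' τ) := by rw [hcc', hψ0, zero_add]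
    have hconj : τ⁻¹ * ψ * τ ∈ H := by
      have := ‹H.Normal›.conj_mem ψ hψH τ⁻¹
      rwa [inv_inv] at this
    have e2 : c' (ψ * τ) = c' τ := by
      have e3 : ψ * τ = τ * (τ⁻¹ * ψ * τ) := by group
      rw [e3, hcc', hH0 _ hconj, map_zero, add_zero]
    rw [← e1, e2]
  refine ker_tors hd hp (hc'p τ) ?_
  have h1 : p • red hd (c' τ) = 0 := by rw [← map_nsmul, hc'p, map_zero]
  apply hnil _ _ h1
  rw [← Ra_pow hφ _ _ (hBS _ h1), ← red_ac, hf]

end

end Pool.Agent.H92P
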