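import Pool.Agent.H92P.Loc3
import Pool.Agent.H92P.Gk3
import Pool.Graph.R_pool_sql_team_seeded_c8625f6e.K4H53.BSD.Pack
import Pool.Graph.R_seed8.Y154.KUnr

/-! The embeddings of `K` in the algebraic closure of `k_v`. -/

set_option autoImplicit false
set_option linter.all false

namespace Pool.Agent.H92P

open WeierstrassCurve NumberField IsDedekindDomain WithZero
open Pool.Agent.Y304.CT (V N_natCast_lt emb)
open Pool.Agent.Y213.CT (Good)
open Pool.Agent.K4H53.BSD (Bd)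
open Pool.Agent.Y852.GS (near)
open scoped Classical NNReal

section

variable {k K : Type} [Field k] [NumberField k] [Field K] [NumberField K] [Algebra k K]
  {v : HeightOneSpectrum (𝓞 k)} {w : HeightOneSpectrum (𝓞 K)}
  {κ : w.adicCompletion K →+* Om v}

lemma w_sub' {Ω : Type} [Field Ω] {w : Valuation Ω ℝ≥0} {x y : Ω} {c : ℝ≥0} (hx : w x ≤ c)
    (hy : w y ≤ c) : w (x - y) ≤ c :=
  (Valuation.map_sub _ _ _).trans (max_le hx hy)

lemma vv' {F : Type} [Field F] [NumberField F] (w : HeightOneSpectrum (𝓞 F)) (x : F) :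
    (Valued.v (algebraMap F (w.adicCompletion F) x) : WithZero (Multiplicative ℤ)) =
      w.valuation F x :=
  HeightOneSpectrum.valuedAdicCompletion_eq_valuation' w x

theorem bd_of_good (h : Good v w κ) : Bd w (V v) κ := by
  have hle : ∀ y, (Valued.v y : WithZero (Multiplicative ℤ)) ≤ 1 → V v (κ y) ≤ 1 := by
    intro y hy
    rw [← NNReal.coe_le_coe]
    exact h.2 y (Valued.toNormedField.norm_le_one_iff.2 hy)
  refine ⟨hle, fun y hy => ?_⟩
  by_cases hy0 : y = 0
  · rw [hy0, map_zero, map_zero]; exact one_pos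
  set q : ℕ := Ideal.absNorm v.asIdeal with hq
  have hq0 : q ≠ 0 := by
    simpa using Ideal.absNorm_ne_zero_of_nonZeroDivisors ⟨v.asIdeal, by simpa using v.ne_bot⟩
  set c : w.adicCompletion K := algebraMap K _ (q : K) with hc
  have hc0 : c ≠ 0 := by
    rw [hc, Ne, map_eq_zero]
    exact_mod_cast hq0
  have hVc : V v (κ c) < 1 := by
    have e1 : κ c = ((q : ℕ) : Om v) := by rw [hc, map_natCast, map_natCast]
    rw [e1, ← NNReal.coe_lt_coe]
    exact N_natCast_lt v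
  have hvy : (Valued.v y : WithZero (Multiplicative ℤ)) ≠ 0 := (Valuation.ne_zero_iff _).2 hy0
  have hvc : (Valued.v c : WithZero (Multiplicative ℤ)) ≠ 0 := (Valuation.ne_zero_iff _).2 hc0
  obtain ⟨m, hm⟩ : ∃ m : ℕ, (Valued.v y : WithZero (Multiplicative ℤ)) ^ m ≤ Valued.v c := by
    refine ⟨(-log (Valued.v c : WithZero (Multiplicative ℤ))).toNat, ?_⟩
    have e1 : (Valued.v y : WithZero (Multiplicative ℤ)) = exp (log (Valued.v y)) :=
      (exp_log hvy).symm
    have e2 : (Valued.v c : WithZero (Multiplicative ℤ)) = exp (log (Valued.v c)) :=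
      (exp_log hvc).symm
    rw [e1, ← exp_zero, exp_lt_exp] at hy
    generalize hA : log (Valued.v y : WithZero (Multiplicative ℤ)) = A at *
    generalize hB : log (Valued.v c : WithZero (Multiplicative ℤ)) = B at *
    rw [e1, e2, ← exp_nsmul, exp_le_exp, nsmul_eq_mul]
    have h3 : (((-B).toNat : ℕ) : ℤ) ≥ -B := Int.self_le_toNat _
    have h4 : (0 : ℤ) ≤ (((-B).toNat : ℕ) : ℤ) := Int.natCast_nonneg _
    nlinarith
  have h1 : V v (κ (y ^ m / c)) ≤ 1 := by
    apply hle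
    rw [map_div₀, map_pow]
    exact (div_le_one₀ (zero_lt_iff.2 hvc)).2 hm
  have h2 : V v (κ y) ^ m < 1 := by
    have e : y ^ m = c * (y ^ m / c) := by field_simp
    rw [← map_pow, ← map_pow, e, map_mul, map_mul]
    calc V v (κ c) * V v (κ (y ^ m / c)) ≤ V v (κ c) * 1 := mul_le_mul_right h1 _
      _ < 1 := by rw [mul_one]; exact hVc
  by_contra hcon
  rw [not_lt] at hcon
  exact absurd h2 (not_lt.2 (one_le_pow₀ hcon))

theorem fix_κ (hκ : Bd w (V v) κ) {τ : Gv v}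
    (hτ : ∀ x : K, τ (κ (algebraMap K _ x)) = κ (algebraMap K _ x)) (y : w.adicCompletion K) :
    τ (κ y) = κ y := by
  obtain ⟨ϖ, hϖ⟩ := w.valuation_exists_uniformizer K
  have h1 : V v (κ (algebraMap K _ ϖ)) < 1 := by
    apply hκ.lt
    rw [vv', hϖ, ← exp_zero, exp_lt_exp]
    norm_num
  by_contra hne
  have hpos : 0 < V v (τ (κ y) - κ y) := by
    rw [Valuation.pos_iff]; exact sub_ne_zero.2 hne
  obtain ⟨n, hn⟩ := NNReal.exists_pow_lt_of_lt_one hpos h1
  obtain ⟨x, hx⟩ := near w y n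
  have h2 : V v (κ y - κ (algebraMap K _ x)) ≤ V v (κ (algebraMap K _ ϖ)) ^ n := by
    rw [← map_sub]; exact hκ.small hϖ _ n hx
  have e : τ (κ y) - κ y = τ (κ y - κ (algebraMap K _ x)) - (κ y - κ (algebraMap K _ x)) := by
    rw [map_sub, hτ x]; ring
  have h4 : V v (τ (κ y) - κ y) ≤ V v (κ (algebraMap K _ ϖ)) ^ n := by
    rw [e]
    exact w_sub' (by rw [V_act]; exact h2) h2
  exact absurd h4 (not_le.2 hn)

/-- the integers of `K` -/
lemma V_lt_iff (hκ : Bd w (V v) κ) (x : 𝓞 K) :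
    V v (κ (algebraMap K _ (x : K))) < 1 ↔ x ∈ w.asIdeal := by
  rw [hκ.lt_iff, vv']
  exact HeightOneSpectrum.valuation_lt_one_iff_mem (K := K) w x

lemma V_int (hκ : Bd w (V v) κ) (x : 𝓞 K) : V v (κ (algebraMap K _ (x : K))) ≤ 1 := by
  apply hκ.le
  rw [vv']
  exact w.valuation_le_one x

/-- the place below -/
lemma under_eq (h : Good v w κ) : w.under (𝓞 k) = v := by
  apply HeightOneSpectrum.ext
  ext x
  have h1 : x ∈ (w.under (𝓞 k)).asIdeal ↔ algebraMap (𝓞 k) (𝓞 K) x ∈ w.asIdeal := Iff.rfl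
  rw [h1, ← V_lt_iff (bd_of_good h), ← V_e0_lt]
  have h2 : κ (algebraMap K _ ((algebraMap (𝓞 k) (𝓞 K) x : 𝓞 K) : K)) = e0 v (x : k) := h.1 (x : k)
  rw [h2]

theorem inertia_triv' [IsGalois k K] (w : HeightOneSpectrum (𝓞 K))
    (hv : ∀ x : k, w.valuation K (algebraMap k K x) = (w.under (𝓞 k)).valuation k x)
    (σ : Gal(K/k)) (hσ : ∀ y : 𝓞 K, σ • y - y ∈ w.asIdeal) : σ = 1 := by
  obtain ⟨ϖ, hϖ⟩ := (w.under (𝓞 k)).valuation_exists_uniformizer k
  have h1 := Pool.Agent.Y154.KUnr.val_card (F := k) w ϖ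
  rw [hv, hϖ] at h1
  set e := Nat.card (w.asIdeal.inertia Gal(K/k)) with he
  rw [← exp_nsmul, exp_inj] at h1
  have h3 : e = 1 := by
    rw [nsmul_eq_mul] at h1
    omega
  have h4 : Subsingleton (w.asIdeal.inertia Gal(K/k)) := by
    have : Finite (w.asIdeal.inertia Gal(K/k)) := inferInstance
    exact (Nat.card_eq_one_iff_unique.1 (he ▸ h3)).1
  have h5 : (⟨σ, hσ⟩ : w.asIdeal.inertia Gal(K/k)) = 1 := Subsingleton.elim _ _
  exact congrArg Subtype.val h5

/-- the residues which detect the group of an unramified extension -/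
theorem S0_ex [IsGalois k K] (hκ : Bd w (V v) κ)
    (hv : ∀ x : k, w.valuation K (algebraMap k K x) = (w.under (𝓞 k)).valuation k x) :
    ∃ S₀ : Finset (kk v), ∀ (τ : Gv v) (σ : K ≃ₐ[k] K),
      (∀ x : K, τ (κ (algebraMap K _ x)) = κ (algebraMap K _ (σ x))) →
      (∀ x ∈ S₀, ra τ x = x) → σ = 1 := by
  haveI : Finite (𝓞 K ⧸ w.asIdeal) := Ideal.finiteQuotientOfFreeOfNeBot w.asIdeal w.ne_bot
  haveI := Fintype.ofFinite (𝓞 K ⧸ w.asIdeal)
  have hsj : Function.Surjective (Ideal.Quotient.mk w.asIdeal) := Ideal.Quotient.mk_surjective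
  set l : 𝓞 K → Om v := fun x => κ (algebraMap K _ (x : K)) with hl
  have hli : ∀ x, V v (l x) ≤ 1 := V_int hκ
  refine ⟨Finset.univ.image (fun c : 𝓞 K ⧸ w.asIdeal =>
      (vv v).r (l (Function.surjInv hsj c))), fun τ σ hτ hS => ?_⟩
  apply inertia_triv' w hv
  intro y
  set b : 𝓞 K := Function.surjInv hsj (Ideal.Quotient.mk w.asIdeal y) with hb
  have hyb : y - b ∈ w.asIdeal := by
    rw [← Ideal.Quotient.eq_zero_iff_mem, map_sub, hb, Function.surjInv_eq hsj, sub_self]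
  have h1 : (vv v).r (l y) = (vv v).r (l b) := by
    rw [r_eq_iff (hli y) (hli b)]
    have e : l y - l b = κ (algebraMap K _ ((y - b : 𝓞 K) : K)) := by
      show κ (algebraMap K _ (y : K)) - κ (algebraMap K _ (b : K)) = _
      rw [← map_sub, ← map_sub]
      rfl
    rw [e]
    exact (V_lt_iff hκ _).2 hyb
  have h2 : ra τ ((vv v).r (l y)) = (vv v).r (l y) := by
    rw [h1]
    exact hS _ (Finset.mem_image_of_mem _ (Finset.mem_univ _))
  rw [ra_r τ (hli y)] at h2
  have h3 : τ (l y) = l (σ • y) := hτ (y : K)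
  rw [h3, r_eq_iff (hli _) (hli _)] at h2
  rw [← V_lt_iff hκ]
  have e : κ (algebraMap K _ ((σ • y - y : 𝓞 K) : K)) = l (σ • y) - l y := by
    show _ = κ (algebraMap K _ ((σ • y : 𝓞 K) : K)) - κ (algebraMap K _ (y : K))
    rw [← map_sub, ← map_sub]
    rfl
  rw [e]
  exact h2

end

end Pool.Agent.H92P
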