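import Pool.Agent.H92P.Loc4

/-! Local triviality over `k_v` of the classes which are locally trivial over `K`. -/

set_option autoImplicit false
set_option linter.all false

namespace Pool.Agent.H92P

open WeierstrassCurve NumberField IsDedekindDomain WithZero
open Pool.Agent.TH115.GD hiding sh
open Pool.Agent.Y304.CT (V emb)
open Pool.Agent.Y213.CT (Good)
open Pool.Agent.K4H53.BSD (Bd)
open Pool.Agent.H901R3.MS (CV)
open Pool.Agent.E8helper21 (castPt castPt_some)
open scoped Classical NNReal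

section

variable {k K : Type} [Field k] [NumberField k] [Field K] [NumberField K] [Algebra k K]
  {v : HeightOneSpectrum (𝓞 k)}

/-- the restriction of the local cocycle to the group of the completion of `K` -/
theorem loc_H (V₀ : WeierstrassCurve k) (l : K →ₐ[k] Om v)
    (g : (AlgebraicClosure K ≃ₐ[k] AlgebraicClosure K) → Pt V₀ (AlgebraicClosure K))
    (hloc : ∀ w : HeightOneSpectrum (𝓞 K),
      LocTriv V₀ (w.adicCompletion K) (AlgebraicClosure (w.adicCompletion K))
        (fun σ : AlgebraicClosure K ≃ₐ[K] AlgebraicClosure K => g (σ.restrictScalars k))) :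
    ∃ (w : HeightOneSpectrum (𝓞 K)) (κ : w.adicCompletion K →+* Om v)
      (ι : AlgebraicClosure K →ₐ[k] Om v) (P₂ : Pt V₀ (Om v)),
      Good v w κ ∧ (∀ x : K, κ (algebraMap K _ x) = l x) ∧
      (∀ x : K, ι (algebraMap K _ x) = l x) ∧
      ∀ (τ : Gv v) (σ : AlgebraicClosure K ≃ₐ[k] AlgebraicClosure K),
        (∀ x, τ (ι x) = ι (σ x)) → (∀ x : K, τ (l x) = l x) →
        act V₀ ι (g σ) = act V₀ (rs k τ) P₂ - P₂ := by
  obtain ⟨w, κ, hκ, hκl⟩ := emb k K v (l : K →+* Om v) (fun x => l.commutes x)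
  obtain ⟨ι₁, P₁, hP₁⟩ := hloc w
  letI : Algebra (w.adicCompletion K) (Om v) := κ.toAlgebra
  let κ' : AlgebraicClosure (w.adicCompletion K) →ₐ[w.adicCompletion K] Om v := IsAlgClosed.lift
  have hκ' : ∀ y : w.adicCompletion K, κ' (algebraMap _ _ y) = κ y := fun y => κ'.commutes y
  let κk : AlgebraicClosure (w.adicCompletion K) →ₐ[k] Om v :=
    { κ'.toRingHom with
      commutes' := fun x => by
        have e1 : algebraMap k (AlgebraicClosure (w.adicCompletion K)) x =
            algebraMap (w.adicCompletion K) _ (algebraMap K _ (algebraMap k K x)) := by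
          rw [IsScalarTower.algebraMap_apply k (w.adicCompletion K)
            (AlgebraicClosure (w.adicCompletion K)),
            IsScalarTower.algebraMap_apply k K (w.adicCompletion K)]
        show κ' (algebraMap k (AlgebraicClosure (w.adicCompletion K)) x) = _
        rw [e1, hκ', hκ.1]
        rfl }
  have hκk : ∀ y, κk y = κ' y := fun y => rfl
  let ι : AlgebraicClosure K →ₐ[k] Om v := κk.comp (ι₁.restrictScalars k)
  have hι : ∀ x, ι x = κ' (ι₁ x) := fun x => rfl
  have hιK : ∀ x : K, ι (algebraMap K (AlgebraicClosure K) x) = l x := by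
    intro x
    rw [hι, ι₁.commutes, IsScalarTower.algebraMap_apply K (w.adicCompletion K), hκ']
    exact hκl x
  refine ⟨w, κ, ι, act V₀ κk P₁, hκ, hκl, hιK, ?_⟩
  intro τ σ hσ hτ
  have hτβ : ∀ y : w.adicCompletion K, τ (κ y) = κ y := fun y =>
    fix_κ (bd_of_good hκ) (fun x => by rw [hκl]; exact hτ x) y
  let τ' : Om v ≃ₐ[w.adicCompletion K] Om v :=
    AlgEquiv.ofRingEquiv (f := τ.toRingEquiv) hτβ
  obtain ⟨ρ, hρ⟩ := Pool.Agent.Y125.DQ.exists_aut (τ'.toAlgHom.comp κ') κ'
  have hσK : ∀ x : K, σ (algebraMap K (AlgebraicClosure K) x) =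
      algebraMap K (AlgebraicClosure K) x := by
    intro x
    have h0 : ι (σ (algebraMap K (AlgebraicClosure K) x)) =
        ι (algebraMap K (AlgebraicClosure K) x) := by
      rw [← hσ, hιK, hτ]
    exact ι.injective h0
  let σ0 : AlgebraicClosure K ≃ₐ[K] AlgebraicClosure K :=
    AlgEquiv.ofRingEquiv (f := σ.toRingEquiv) hσK
  have hσ0 : σ0.restrictScalars k = σ := AlgEquiv.ext fun x => rfl
  have h1 := hP₁ ρ σ0 (fun x => by
    apply κ'.injective
    have e1 : κ' (ρ (ι₁ x)) = τ (κ' (ι₁ x)) := (hρ (ι₁ x)).symm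
    show κ' (ρ (ι₁ x)) = κ' (ι₁ (σ0 x))
    rw [e1, ← hι, hσ]
    rfl)
  beta_reduce at h1
  rw [hσ0] at h1
  have h2 := congrArg (act V₀ κk) h1
  have e3 : κk.comp (rs k ρ) = (rs k τ).comp κk := AlgHom.ext fun x => (hρ x).symm
  have e4 : act V₀ κk (act V₀ (ι₁.restrictScalars k) (g σ)) = act V₀ ι (g σ) := by
    rw [act_act]
  have e5 : act V₀ κk (act V₀ (rs k ρ) P₁) = act V₀ (rs k τ) (act V₀ κk P₁) := by
    rw [act_act, act_act, e3]
  rw [← e4, ← e5, ← map_sub]
  exact h2

/-- places where `K` splits -/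
theorem loc_split' (V₀ : WeierstrassCurve k) (ψ : K →ₐ[k] v.adicCompletion k)
    (g : (AlgebraicClosure K ≃ₐ[k] AlgebraicClosure K) → Pt V₀ (AlgebraicClosure K))
    (hloc : ∀ w : HeightOneSpectrum (𝓞 K),
      LocTriv V₀ (w.adicCompletion K) (AlgebraicClosure (w.adicCompletion K))
        (fun σ : AlgebraicClosure K ≃ₐ[K] AlgebraicClosure K => g (σ.restrictScalars k))) :
    LocTriv (F := k) (Ω := AlgebraicClosure K) V₀ (v.adicCompletion k) (Om v) g := by
  let l : K →ₐ[k] Om v := (IsScalarTower.toAlgHom k (v.adicCompletion k) (Om v)).comp ψ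
  obtain ⟨w, κ, ι, P₂, -, -, -, h⟩ := loc_H V₀ l g hloc
  refine ⟨ι, P₂, fun τ σ hσ => ?_⟩
  have e2 : (ι.restrictScalars k) = ι := rfl
  rw [e2]
  exact h τ σ hσ fun x => τ.commutes (ψ x)

/-- the curve -/
abbrev VC (a b : 𝓞 k) : WeierstrassCurve k := ⟨0, 0, 0, (a : k), (b : k)⟩

theorem vc_bc (a b : 𝓞 k) : (VC a b).baseChange (Om v) = CV (e0 v (a : k)) (e0 v (b : k)) := by
  ext
  · exact map_zero _
  · exact map_zero _
  · exact map_zero _
  · rfl
  · rfl

/-- the comparison of the points -/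
noncomputable def tv (v : HeightOneSpectrum (𝓞 k)) (a b : 𝓞 k) : Pt (VC a b) (Om v) ≃+ PO v a b :=
  castPt (vc_bc a b)

theorem tv_act (a b : 𝓞 k) (τ : Gv v) (P : Pt (VC a b) (Om v)) :
    tv v a b (act (VC a b) (rs k τ) P) = ac a b τ (tv v a b P) := by
  rcases P with _ | ⟨x, y, hxy⟩
  · show tv v a b (act (VC a b) (rs k τ) 0) = ac a b τ (tv v a b 0)
    rw [map_zero, map_zero, map_zero]
  · have h1 : (CV (e0 v (a : k)) (e0 v (b : k))).toAffine.Nonsingular x y := vc_bc a b ▸ hxy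
    have e1 : tv v a b (Affine.Point.some x y hxy) = Affine.Point.some x y h1 :=
      castPt_some (vc_bc a b) x y hxy h1
    obtain ⟨h2, e2⟩ := act_some (VC a b) (rs k τ) hxy
    have h3 : (CV (e0 v (a : k)) (e0 v (b : k))).toAffine.Nonsingular (rs k τ x) (rs k τ y) :=
      vc_bc a b ▸ h2
    have e3 : tv v a b (Affine.Point.some _ _ h2) = Affine.Point.some _ _ h3 :=
      castPt_some (vc_bc a b) _ _ h2 h3
    have e4 : ac a b τ (Affine.Point.some x y h1) = _ :=
      pmg_some' (τ : Om v →+* Om v) (e0_fix τ a) (e0_fix τ b) h1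
    rw [e1, e2, e3, e4, Affine.Point.some.injEq]
    exact ⟨rfl, rfl⟩

/-- **the places of good reduction** -/
theorem loc_good {p n : ℕ} (hp : p.Prime) [IsGalois k K] (hn : Module.finrank k K = p ^ n)
    {a b : 𝓞 k} (hd : 2 * (4 * a ^ 3 + 27 * b ^ 2) ∉ v.asIdeal) (hpv : (p : 𝓞 k) ∉ v.asIdeal)
    (hcase : (∀ Q : PR v a b, FrE v a b Q = Q → p • Q = 0 → Q = 0) ∨
      ∀ w : HeightOneSpectrum (𝓞 K), w.under (𝓞 k) = v →
        ∀ x : k, w.valuation K (algebraMap k K x) = v.valuation k x)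
    (g : (AlgebraicClosure K ≃ₐ[k] AlgebraicClosure K) → Pt (VC a b) (AlgebraicClosure K))
    (hmul : ∀ σ τ, g (σ * τ) = g σ + act (VC a b) (ak σ) (g τ))
    {Q : Pt (VC a b) (AlgebraicClosure K)} (hQ : ∀ σ, p • g σ = act (VC a b) (ak σ) Q - Q)
    (hloc : ∀ w : HeightOneSpectrum (𝓞 K),
      LocTriv (VC a b) (w.adicCompletion K) (AlgebraicClosure (w.adicCompletion K))
        (fun σ : AlgebraicClosure K ≃ₐ[K] AlgebraicClosure K => g (σ.restrictScalars k))) :
    LocTriv (F := k) (Ω := AlgebraicClosure K) (VC a b) (v.adicCompletion k) (Om v) g := by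
  haveI : Algebra.IsAlgebraic k (AlgebraicClosure K) :=
    Algebra.IsAlgebraic.trans k K (AlgebraicClosure K)
  haveI : IsAlgClosure k (AlgebraicClosure K) := ⟨inferInstance, inferInstance⟩
  haveI : Normal k (AlgebraicClosure K) := IsAlgClosure.normal k _
  let l : K →ₐ[k] Om v := IsAlgClosed.lift
  obtain ⟨w, κ, ι, P₂, hκ, hκl, hιK, hH0⟩ := loc_H (VC a b) l g hloc
  -- the restriction to the Galois group of `k`
  have hres : ∀ τ : Gv v, ∃ σ : AlgebraicClosure K ≃ₐ[k] AlgebraicClosure K,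
      ∀ x, τ (ι x) = ι (σ x) := fun τ =>
    exists_restrict (F := k) (Ω := AlgebraicClosure K) (L := v.adicCompletion k) (Ω' := Om v) ι τ
  choose res hres using hres
  have hinj : ∀ σ σ' : AlgebraicClosure K ≃ₐ[k] AlgebraicClosure K, (∀ x, ι (σ x) = ι (σ' x)) →
      σ = σ' := fun σ σ' h => AlgEquiv.ext fun x => ι.injective (h x)
  let resH : Gv v →* (AlgebraicClosure K ≃ₐ[k] AlgebraicClosure K) :=
    { toFun := res
      map_one' := hinj _ _ fun x => by rw [← hres]; rfl
      map_mul' := fun σ τ => hinj _ _ fun x => by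
        rw [← hres, AlgEquiv.mul_apply, AlgEquiv.mul_apply, hres, hres] }
  have hresH : ∀ τ : Gv v, ∀ x, τ (ι x) = ι (resH τ x) := hres
  -- the subgroup
  let f : Gv v →* (K ≃ₐ[k] K) := (AlgEquiv.restrictNormalHom K).comp resH
  have hf1 : ∀ (τ : Gv v) (x : K), τ (l x) = l (f τ x) := by
    intro τ x
    have h1 : algebraMap K (AlgebraicClosure K) (f τ x) =
        resH τ (algebraMap K (AlgebraicClosure K) x) :=
      AlgEquiv.restrictNormal_commutes (resH τ) K x
    rw [← hιK, ← hιK, h1, hresH]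
  have hidx : ∃ j, f.ker.index = p ^ j := by
    have h1 : f.ker.index ∣ p ^ n := by
      rw [Subgroup.index_ker, ← hn, ← IsGalois.card_aut_eq_finrank k K]
      exact Subgroup.card_subgroup_dvd_card _
    obtain ⟨j, -, hj⟩ := (Nat.dvd_prime_pow hp).1 h1
    exact ⟨j, hj⟩
  obtain ⟨j, hj⟩ := hidx
  have hcomm : ∀ (τ : Gv v) (R : Pt (VC a b) (AlgebraicClosure K)),
      act (VC a b) ι (act (VC a b) (ak (resH τ)) R) =
        act (VC a b) (rs k τ) (act (VC a b) ι R) := by
    intro τ R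
    have e : ι.comp (ak (resH τ)) = (rs k τ).comp ι := AlgHom.ext fun x => (hresH τ x).symm
    rw [act_act, act_act, e]
  -- the local cocycle, with values in the points of order `p`
  obtain ⟨R, hR⟩ := div_om hd hp.one_lt.le (tv v a b (act (VC a b) ι Q))
  let c0 : Gv v → PO v a b := fun τ => tv v a b (act (VC a b) ι (g (resH τ)))
  have hc0 : ∀ σ τ, c0 (σ * τ) = c0 σ + ac a b σ (c0 τ) := by
    intro σ τ
    show tv v a b (act (VC a b) ι (g (resH (σ * τ)))) = _
    rw [map_mul, hmul, map_add, hcomm, map_add, tv_act]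
  have hc0p : ∀ τ, p • c0 τ = ac a b τ (p • R) - p • R := by
    intro τ
    show p • tv v a b (act (VC a b) ι (g (resH τ))) = _
    rw [← map_nsmul, ← map_nsmul, hQ, map_sub, map_sub, hcomm, tv_act, hR]
  have hc := coc_sub c0 hc0 R
  set c : Gv v → PO v a b := fun τ => c0 τ - (ac a b τ R - R) with hcd
  have hcc : ∀ σ τ, c (σ * τ) = c σ + ac a b σ (c τ) := hc
  have hcp : ∀ τ, p • c τ = 0 := by
    intro τ
    simp only [hcd]
    rw [smul_sub, hc0p, smul_sub, ← map_nsmul, sub_self]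
  have hcH : ∀ τ ∈ f.ker, c τ = ac a b τ (tv v a b P₂ - R) - (tv v a b P₂ - R) := by
    intro τ hτ
    rw [MonoidHom.mem_ker] at hτ
    have h1 := hH0 τ (resH τ) (hresH τ) (fun x => by rw [hf1, hτ]; rfl)
    have h2 : c0 τ = ac a b τ (tv v a b P₂) - tv v a b P₂ := by
      show tv v a b (act (VC a b) ι (g (resH τ))) = _
      rw [h1, map_sub, tv_act]
    simp only [hcd]
    rw [h2, map_sub]
    abel
  have hpk : (p : kk v) ≠ 0 := nat_ne hpv
  obtain ⟨P', hP'⟩ : ∃ P', ∀ τ, c τ = ac a b τ P' - P' := by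
    rcases hcase with hRt | hU
    · exact core_R hd hp hpk f.ker hj hRt c hcc hcp _ hcH
    · have hwv := under_eq hκ
      obtain ⟨S₀, hS₀⟩ := S0_ex (bd_of_good hκ) (fun x => by rw [hwv]; exact hU w hwv x)
      refine core_U hd hp hpk f.ker S₀ (fun τ hτ => ?_) c hcc hcp _ hcH
      rw [MonoidHom.mem_ker]
      exact hS₀ τ (f τ) (fun x => by rw [hκl, hκl]; exact hf1 τ x) hτ
  obtain ⟨P'', hP''⟩ := (tv v a b).surjective (P' + R)
  refine ⟨ι, P'', fun τ σ h => ?_⟩
  have e1 : σ = resH τ := hinj _ _ fun x => by rw [← h, ← hresH]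
  have e2 : (ι.restrictScalars k) = ι := rfl
  rw [e1, e2]
  apply (tv v a b).injective
  rw [map_sub, tv_act, hP'']
  have h6 := hP' τ
  simp only [hcd] at h6
  rw [map_add]
  rw [sub_eq_iff_eq_add] at h6
  show c0 τ = _
  rw [h6]
  abel

end

end Pool.Agent.H92P
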