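import Pool.Graph.R_seed8.W239.FM.MUL
import Pool.Graph.R_seed8.W342.FM.AS
import Pool.Graph.R_seed8.W696.FM.Can
import Pool.Graph.R_seed8.W125.FM.Fac
import Pool.Graph.R_seed8.W303.FM.Tor
import Pool.Graph.R_seed8.W45.FM.FIB
import Pool.Graph.R_pool_sql_team_seeded_b677cdb8.E8helper21.Lang
import Pool.Agent.H92P.Kern

/-!
Multiplication by `n` on the `x`-coordinates in characteristic different from two (adapted from
`Pool.Agent.W239.FM.MUL`); torsion points and their reductions.
-/

set_option autoImplicit false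
set_option linter.unusedVariables false
set_option linter.unusedSectionVars false

namespace Pool.Agent.H92P

open WeierstrassCurve Pool.Agent.H901R3.MS Pool.Agent.W275.FM Polynomial
open Pool.Agent.W239.FM.MUL (nd_C_mul nd_mul nd_add deg_s deg_t Gd gd_zero gd_one)
open Pool.Agent.E8helper21 (pt_eq_or finite_x)

section step
variable {F : Type} [Field F] [DecidableEq F]

theorem gd_step [IsAlgClosed F] (h20 : (2 : F) ≠ 0) (hAS : S_AS) (hCAN : S_CAN) (hFAC : S_FAC) {a b : F}
    (hD : Disc a b) {k : ℕ} {U0 V0 U1 V1 : F[X]} (h0 : Gd a b k U0 V0)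
    (h1 : Gd a b (k + 1) U1 V1) : ∃ U2 V2 : F[X], Gd a b (k + 2) U2 V2 := by
  obtain ⟨hc0, hU0, hV0, he0⟩ := h0
  obtain ⟨hc1, hU1, hV1, he1⟩ := h1
  set s := fS (C a) (C b) (U1 * X) (U1 + X * V1) V1 with hs
  set t := fT (C a) (C b) (U1 * X) (U1 + X * V1) V1 with ht
  set u := fW (U1 * X) (U1 + X * V1) V1 with hu
  have hse : ∀ x, s.eval x = fS a b (U1.eval x * x) (U1.eval x + x * V1.eval x) (V1.eval x) := by
    intro x; rw [hs]; unfold fS; simp
  have hte : ∀ x, t.eval x = fT a b (U1.eval x * x) (U1.eval x + x * V1.eval x) (V1.eval x) := by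
    intro x; rw [ht]; unfold fT; simp
  have hue : ∀ x, u.eval x = fW (U1.eval x * x) (U1.eval x + x * V1.eval x) (V1.eval x) := by
    intro x; rw [hu]; unfold fW; simp
  -- the values at a point
  have key : ∀ (x y : F) (h : (CV a b).toAffine.Nonsingular x y), ∃ μ ν : F, μ ≠ 0 ∧ ν ≠ 0 ∧
      hx ((k + 2) • (Affine.Point.some x y h : Pt a b)) * (μ * U0.eval x) = ν * s.eval x ∧
      hx ((k + 2) • (Affine.Point.some x y h : Pt a b)) * (μ * V0.eval x) +
        μ * U0.eval x * hz ((k + 2) • (Affine.Point.some x y h : Pt a b)) = ν * t.eval x ∧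
      hz ((k + 2) • (Affine.Point.some x y h : Pt a b)) * (μ * V0.eval x) = ν * u.eval x := by
    intro x y h
    obtain ⟨μ0, hμ0, ha0, hb0⟩ := he0 x y h
    obtain ⟨μ1, hμ1, ha1, hb1⟩ := he1 x y h
    set P : Pt a b := Affine.Point.some x y h with hP
    have e1 : (k + 1) • P + P = (k + 2) • P := (succ_nsmul P (k + 1)).symm
    have e2 : (k + 1) • P - P = k • P := by rw [succ_nsmul, add_sub_cancel_right]
    obtain ⟨c, hc, g1, g2, g3⟩ := hAS F h20 a b hD ((k + 1) • P) P
    have hxP : hx P = x := rfl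
    have hzP : hz P = 1 := rfl
    rw [e1, e2, ha0, ha1, hb1, hxP, hzP] at g1
    rw [e1, e2, ha0, hb0, ha1, hb1, hxP, hzP] at g2
    rw [e1, e2, hb0, ha1, hb1, hxP, hzP] at g3
    refine ⟨μ0, c * μ1 ^ 2, hμ0, mul_ne_zero hc (pow_ne_zero 2 hμ1), ?_, ?_, ?_⟩
    · rw [g1, hse]; unfold fS; ring
    · rw [g2, hte]; unfold fT; ring
    · rw [g3, hue]; unfold fW; ring
  -- the polynomial identity
  have hpoly : u * U0 ^ 2 - t * (U0 * V0) + s * V0 ^ 2 = 0 := by
    apply Polynomial.funext
    intro x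
    obtain ⟨y, hy⟩ := IsAlgClosed.exists_pow_nat_eq (x ^ 3 + a * x + b) (n := 2) (by norm_num)
    have h : (CV a b).toAffine.Nonsingular x y := (nonsingular_iff hD).2 hy
    obtain ⟨μ, ν, hμ, hν, g1, g2, g3⟩ := key x y h
    rw [eval_zero]
    simp only [eval_add, eval_sub, eval_mul, eval_pow]
    have h3 : ν * (u.eval x * U0.eval x ^ 2 - t.eval x * (U0.eval x * V0.eval x) +
        s.eval x * V0.eval x ^ 2) = 0 := by
      have : ν * (u.eval x * U0.eval x ^ 2 - t.eval x * (U0.eval x * V0.eval x) +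
        s.eval x * V0.eval x ^ 2) = (ν * u.eval x) * U0.eval x ^ 2 -
          (ν * t.eval x) * (U0.eval x * V0.eval x) + (ν * s.eval x) * V0.eval x ^ 2 := by ring
      rw [this, ← g1, ← g2, ← g3]
      ring
    exact (mul_eq_zero.1 h3).resolve_left hν
  obtain ⟨α, β, hsα, htα, huβ⟩ := hFAC F U0 V0 s t u hc0 hpoly
  obtain ⟨c1, c2, c3, hcan⟩ := hCAN F h20 a b hD U1 V1 hc1
  rw [← hs, ← ht, ← hu] at hcan
  have hU00 : U0 ≠ 0 := by
    intro h; rw [h, degree_zero] at hU0; exact WithBot.bot_ne_coe hU0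
  refine ⟨α, β, ?_, ?_, ?_, ?_⟩
  · -- coprime
    refine ⟨c1 * U0 + c2 * V0, c2 * U0 + c3 * V0, ?_⟩
    rw [hsα, htα, huβ] at hcan
    linear_combination hcan
  · -- degree of α
    have h5 := deg_s (n := k + 1) a b hU1 hV1
    rw [← hs, hsα, degree_mul, hU0] at h5
    have hα0 : α ≠ 0 := by
      intro h; rw [h, degree_zero, WithBot.bot_add] at h5; exact WithBot.bot_ne_coe h5
    rw [degree_eq_natDegree hα0] at h5 ⊢
    have h6 : α.natDegree + k ^ 2 = 2 * (k + 1) ^ 2 + 2 := by exact_mod_cast h5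
    have h7 : α.natDegree = (k + 2) ^ 2 := by nlinarith
    rw [h7]
  · -- degree of β
    have h5 := deg_s (n := k + 1) a b hU1 hV1
    rw [← hs, hsα, degree_mul, hU0] at h5
    have hα0 : α ≠ 0 := by
      intro h; rw [h, degree_zero, WithBot.bot_add] at h5; exact WithBot.bot_ne_coe h5
    rw [degree_eq_natDegree hα0] at h5
    have h6 : α.natDegree + k ^ 2 = 2 * (k + 1) ^ 2 + 2 := by exact_mod_cast h5
    have hαV : (α * V0).degree < ((2 * (k + 1) ^ 2 + 2 : ℕ) : WithBot ℕ) := by
      by_cases hv : V0 = 0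
      · rw [hv, mul_zero, degree_zero]; exact WithBot.bot_lt_coe _
      · rw [degree_mul, degree_eq_natDegree hα0, degree_eq_natDegree hv]
        have := (natDegree_lt_iff_degree_lt hv).2 hV0
        exact_mod_cast (by omega : α.natDegree + V0.natDegree < 2 * (k + 1) ^ 2 + 2)
    have h8 : (β * U0).degree < ((2 * (k + 1) ^ 2 + 2 : ℕ) : WithBot ℕ) := by
      have h9 : β * U0 = t - α * V0 := by rw [htα]; ring
      rw [h9]
      refine lt_of_le_of_lt (degree_sub_le _ _) (max_lt ?_ hαV)
      rw [ht]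
      exact deg_t a b hU1 hV1
    by_cases hβ : β = 0
    · rw [hβ, degree_zero]; exact WithBot.bot_lt_coe _
    · rw [degree_mul, hU0, degree_eq_natDegree hβ] at h8
      rw [degree_eq_natDegree hβ]
      have h10 : β.natDegree + k ^ 2 < 2 * (k + 1) ^ 2 + 2 := by exact_mod_cast h8
      have h11 : β.natDegree < (k + 2) ^ 2 := by nlinarith
      exact_mod_cast h11
  · -- evaluation
    intro x y h
    obtain ⟨μ, ν, hμ, hν, g1, g2, g3⟩ := key x y h
    set X3 := hx ((k + 2) • (Affine.Point.some x y h : Pt a b)) with hX3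
    set Z3 := hz ((k + 2) • (Affine.Point.some x y h : Pt a b)) with hZ3
    rw [hsα, eval_mul] at g1
    rw [htα, eval_add, eval_mul, eval_mul] at g2
    rw [huβ, eval_mul] at g3
    have hne : U0.eval x ≠ 0 ∨ V0.eval x ≠ 0 := by
      by_contra hcon
      push Not at hcon
      obtain ⟨p, q, hpq⟩ := hc0
      have := congrArg (Polynomial.eval x) hpq
      rw [eval_add, eval_mul, eval_mul, hcon.1, hcon.2, mul_zero, mul_zero, add_zero,
        eval_one] at this
      exact zero_ne_one this
    have hA : (μ * X3 - ν * α.eval x) * U0.eval x = 0 := by linear_combination g1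
    have hB : (μ * Z3 - ν * β.eval x) * V0.eval x = 0 := by linear_combination g3
    have hAB : (μ * X3 - ν * α.eval x) * V0.eval x + (μ * Z3 - ν * β.eval x) * U0.eval x = 0 := by
      linear_combination g2
    have hres : μ * X3 - ν * α.eval x = 0 ∧ μ * Z3 - ν * β.eval x = 0 := by
      by_cases hU : U0.eval x = 0
      · have hV := hne.resolve_left (not_not.2 hU)
        have hB' := (mul_eq_zero.1 hB).resolve_right hV
        rw [hB', zero_mul, add_zero] at hAB
        exact ⟨(mul_eq_zero.1 hAB).resolve_right hV, hB'⟩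
      · have hA' := (mul_eq_zero.1 hA).resolve_right hU
        rw [hA', zero_mul, zero_add] at hAB
        exact ⟨hA', (mul_eq_zero.1 hAB).resolve_right hU⟩
    refine ⟨ν / μ, div_ne_zero hν hμ, ?_, ?_⟩
    · field_simp
      linear_combination hres.1
    · field_simp
      linear_combination hres.2

end step

/-- multiplication by `n` -/
theorem mulK (F : Type) [Field F] [IsAlgClosed F] [DecidableEq F] (h20 : (2 : F) ≠ 0) (a b : F)
    (hD : Disc a b) (n : ℕ) (hn : 1 ≤ n) : ∃ U V : Polynomial F, IsCoprime U V ∧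
    U.natDegree = n ^ 2 ∧ V.natDegree < n ^ 2 ∧
    ∀ (x y : F) (h : (CV a b).toAffine.Nonsingular x y), ∃ μ : F, μ ≠ 0 ∧
      hx (n • (Affine.Point.some x y h : Pt a b)) = μ * U.eval x ∧
      hz (n • (Affine.Point.some x y h : Pt a b)) = μ * V.eval x := by
  have hAS : S_AS := Pool.Agent.W342.FM.AS.main
  have hCAN : S_CAN := Pool.Agent.W696.FM.Can.main
  have hFAC : S_FAC := Pool.Agent.W125.FM.Fac.main
  have hind : ∀ k : ℕ, ∃ U0 V0 U1 V1 : F[X], Gd a b k U0 V0 ∧ Gd a b (k + 1) U1 V1 := by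
    intro k
    induction k with
    | zero => exact ⟨1, 0, X, 1, gd_zero a b, gd_one a b⟩
    | succ k ih =>
      obtain ⟨U0, V0, U1, V1, h0, h1⟩ := ih
      obtain ⟨U2, V2, h2⟩ := gd_step h20 hAS hCAN hFAC hD h0 h1
      exact ⟨U1, V1, U2, V2, h1, h2⟩
  obtain ⟨U, V, -, -, ⟨h1, h2, h3, h4⟩, -⟩ := hind n
  refine ⟨U, V, h1, natDegree_eq_of_degree_eq_some h2, ?_, h4⟩
  by_cases hV : V = 0
  · rw [hV, natDegree_zero]; positivity
  · exact (natDegree_lt_iff_degree_lt hV).2 h3


open scoped Classical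

theorem tor : S_TOR := Pool.Agent.W303.FM.Tor.main
  (Pool.Agent.W239.FM.MUL.main Pool.Agent.W342.FM.AS.main Pool.Agent.W696.FM.Can.main
    Pool.Agent.W125.FM.Fac.main) Pool.Agent.W45.FM.FIB.main

section
variable {F : Type} [Field F] [IsAlgClosed F] {a b : F}

/-- the points over an algebraically closed field form a divisible group -/
theorem divG (h20 : (2 : F) ≠ 0) (hDL : Disc a b) {n : ℕ} (hn : 1 ≤ n) (P : Pt a b) :
    ∃ R, n • R = P := by
  rcases P with _ | ⟨c, d, h⟩
  · exact ⟨0, nsmul_zero n⟩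
  · obtain ⟨U, V, hUV, hU, hV, H⟩ := mulK F h20 a b hDL n hn
    have hdeg : (U - C c * V).natDegree = n ^ 2 := by
      rw [natDegree_sub_eq_left_of_natDegree_lt ((natDegree_C_mul_le _ _).trans_lt (by omega)), hU]
    have hn2 : 0 < n ^ 2 := by positivity
    have h1 : (U - C c * V).degree ≠ 0 := by
      intro h2
      have := natDegree_eq_of_degree_eq_some (n := 0) h2
      omega
    obtain ⟨x, hx1⟩ := IsAlgClosed.exists_root _ h1
    rw [IsRoot.def, eval_sub, eval_mul, eval_C, sub_eq_zero] at hx1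
    obtain ⟨y, hy⟩ : ∃ y : F, y ^ 2 = x ^ 3 + a * x + b :=
      IsAlgClosed.exists_pow_nat_eq _ (by norm_num)
    have hR := (nonsingular_iff hDL).2 hy
    obtain ⟨μ, hμ, h2, h3⟩ := H x y hR
    have hV0 : V.eval x ≠ 0 := by
      intro h4
      rw [h4, mul_zero] at hx1
      obtain ⟨s, t, hst⟩ := hUV
      have := congrArg (eval x) hst
      rw [eval_add, eval_mul, eval_mul, h4, hx1, mul_zero, mul_zero, add_zero, eval_one] at this
      exact zero_ne_one this
    rcases hnR : n • (Affine.Point.some x y hR : Pt a b) with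
      _ | ⟨x', y', h'⟩
    · rw [hnR] at h3
      have h4 : (0 : F) = μ * V.eval x := h3
      exact absurd h4.symm (mul_ne_zero hμ hV0)
    · rw [hnR] at h2 h3
      have h4 : x' = μ * U.eval x := h2
      have h5 : (1 : F) = μ * V.eval x := h3
      have h6 : x' = c := by rw [h4, hx1]; linear_combination (-c) * h5
      subst h6
      rcases pt_eq_or h h' with h7 | h7
      · exact ⟨_, by rw [hnR, h7]⟩
      · exact ⟨-Affine.Point.some x y hR, by rw [smul_neg, hnR, h7, neg_neg]⟩

/-- the number of the points of order dividing `n` -/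
theorem card_tors_lt (h20 : (2 : F) ≠ 0) (hDL : Disc a b) {n : ℕ} (hn : 1 ≤ n) :
    {P : Pt a b | n • P = 0}.Finite ∧ {P : Pt a b | n • P = 0}.ncard < 2 * n ^ 2 := by
  obtain ⟨U, V, hUV, hU, hV, H⟩ := mulK F h20 a b hDL n hn
  have hV0 : V ≠ 0 := by
    rintro rfl
    rw [isCoprime_zero_right] at hUV
    have := natDegree_eq_zero_of_isUnit hUV
    rw [hU] at this
    have : 0 < n ^ 2 := by positivity
    omega
  have hx : ∀ x : F, ∃ y : F, y ^ 2 = x ^ 3 + a * x + b := fun x =>
    IsAlgClosed.exists_pow_nat_eq _ (by norm_num)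
  choose g hg using hx
  have hg' : ∀ x, Eqn a b x (-g x) := fun x => by unfold Eqn; rw [neg_sq]; exact hg x
  let f1 : F → Pt a b := fun x => Affine.Point.some x (g x) ((nonsingular_iff hDL).2 (hg x))
  let f2 : F → Pt a b := fun x => Affine.Point.some x (-g x) ((nonsingular_iff hDL).2 (hg' x))
  set R := V.roots.toFinset with hR
  set T : Finset (Pt a b) := insert 0 (R.image f1 ∪ R.image f2) with hT
  have hsub : {P : Pt a b | n • P = 0} ⊆ T := by
    intro P hP
    rcases P with _ | ⟨x, y, h⟩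
    · exact Finset.mem_insert_self _ _
    · have hP' : n • (Affine.Point.some x y h : Pt a b) = 0 := hP
      obtain ⟨μ, hμ, -, h3⟩ := H x y h
      rw [hP'] at h3
      have h4 : (0 : F) = μ * V.eval x := h3
      have h5 : V.eval x = 0 := (mul_eq_zero.1 h4.symm).resolve_left hμ
      have h6 : x ∈ R := by
        rw [hR, Multiset.mem_toFinset, mem_roots hV0]
        exact h5
      refine Finset.mem_insert_of_mem (Finset.mem_union.2 ?_)
      rcases pt_eq_or ((nonsingular_iff hDL).2 (hg x)) h with h7 | h7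
      · left
        exact Finset.mem_image.2 ⟨x, h6, h7.symm⟩
      · right
        refine Finset.mem_image.2 ⟨x, h6, ?_⟩
        rw [h7]
        exact (neg_some' _ _).symm
  have hc : T.card < 2 * n ^ 2 := by
    have h1 : R.card ≤ V.natDegree := (Multiset.toFinset_card_le _).trans (card_roots' _)
    have h2 : T.card ≤ (R.image f1 ∪ R.image f2).card + 1 := Finset.card_insert_le _ _
    have h3 := Finset.card_union_le (R.image f1) (R.image f2)
    have h4 : (R.image f1).card ≤ R.card := Finset.card_image_le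
    have h5 : (R.image f2).card ≤ R.card := Finset.card_image_le
    omega
  refine ⟨T.finite_toSet.subset hsub, ?_⟩
  have h1 := Set.ncard_le_ncard hsub T.finite_toSet
  rw [Set.ncard_coe_finset] at h1
  omega

end

end Pool.Agent.H92P
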