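import Pool.Agent.H92P.BiaTP
import Pool.Agent.H92.Multi

/-!
# Nonzero central values for characters of `p`-power order, and several forms at once
-/

set_option autoImplicit false
set_option linter.unusedSectionVars false

namespace Pool.Agent.H92P

open Finset NumberField IsDedekindDomain Filter Topology
open Pool.Agent.K4H55.BI Pool.Agent.K4H55.CX
open Pool.Agent.H92
open scoped ComplexConjugate

section one

variable {K : Type} [Field K] [NumberField K] [hP : IsPrincipalIdealRing (𝓞 K)] {σ : K →+* ℂ}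
  {δ : K} {n : 𝓞 K} {c : Ideal (𝓞 K) → ℂ}

/-- the central value of the twist by a character -/
lemma chr_nep {p : ℕ} (h : IQ K σ δ) (hf : BF σ δ n c) {T : Finset (HeightOneSpectrum (𝓞 K))}
    {χ : 𝓞 K → ℂ} (hχ : CP T χ) (hT : ∀ v ∈ T, Adp p n c v) (hne : H92.val h c T (br χ) ≠ 0) :
    ∃ G : ℂ → ℂ, Differentiable ℂ G ∧ (∀ s : ℂ, 2 < s.re → HasProd (efx n c χ s) (G s)) ∧
      G 1 ≠ 0 := by
  classical
  have hfam : Fam (T.image gen) := fam_adp hT
  obtain ⟨G, h1, h2, h3⟩ := value_x h hf hfam hχ.hc hχ.unit fun v hv => (hT v hv).2.1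
  refine ⟨G, h1, h2, ?_⟩
  have e : ∑ x ∈ rs (ordK h) (md (T.image gen)), conj (χ x) *
      fv (ordK h) (fun x => c (Ideal.span {x})) ((ordK h).ι x /
        (ordK h).ι (md (T.image gen))) = H92.val h c T (br χ) := by
    unfold H92.val stX
    refine Finset.sum_congr rfl fun x _ => ?_
    by_cases hx : ∀ p ∈ T.image gen, ¬ p ∣ x
    · rw [cop_one_of hx, one_mul]
      rfl
    · push Not at hx
      obtain ⟨p, hp, hd⟩ := hx
      have h0 : br χ x = 0 := hχ.hc.br.zero x p hp hd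
      have h0' : conj (χ x) = 0 := h0
      rw [h0, h0']
      ring
  rw [h3, e]
  have hk0 : (kap (ordK h) : ℂ) ≠ 0 := by exact_mod_cast (kap_pos (ordK h)).ne'
  exact div_ne_zero (mul_ne_zero (div_ne_zero hk0 (gx_ne (ordK h) hfam hχ.hc.br)) hne)
    (nu_ne (ordK h))



end one

section ram

variable {K : Type} [Field K] [NumberField K] [hP : IsPrincipalIdealRing (𝓞 K)]

/-- the theorem of Ramsey type for the property `N` of the characters -/
def RamPp (p b d : ℕ) (A : HeightOneSpectrum (𝓞 K) → Prop)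
    (N : Finset (HeightOneSpectrum (𝓞 K)) → (𝓞 K → ℂ) → Prop) : Prop :=
  ∃ L : ℕ → ℕ, ∀ (X : Type) [CommGroup X] (T : X → Finset (HeightOneSpectrum (𝓞 K)))
      (χ : X → 𝓞 K → ℂ), CGp T χ → (∀ g : X, g ^ p ^ b = 1) → (∀ g, ∀ v ∈ T g, A v) →
      ∀ (τ : Fin d → X →* X) (g : ℕ → X),
      ∃ B : ℕ → Finset ℕ, (∀ k, (B k).Nonempty ∧ B k ⊆ Ico (L k) (L (k + 1))) ∧
      ∀ x ∈ clo τ g B, N (T x) (χ x)

lemma ramPp_true (p b d : ℕ) : RamPp p b d (fun _ : HeightOneSpectrum (𝓞 K) => True)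
    (fun _ _ => True) :=
  ⟨fun k => k, fun X _ T χ _ _ _ τ g => ⟨fun k => {k}, fun k => ⟨singleton_nonempty k, by simp⟩,
    fun _ _ => trivial⟩⟩

lemma ramPp_and {p b d : ℕ} {A A' : HeightOneSpectrum (𝓞 K) → Prop}
    {N N' : Finset (HeightOneSpectrum (𝓞 K)) → (𝓞 K → ℂ) → Prop} (h : RamPp p b d A N)
    (h' : RamPp p b d A' N') : RamPp p b d (fun v => A v ∧ A' v) (fun T χ => N T χ ∧ N' T χ) := by
  classical
  obtain ⟨L, hL⟩ := h
  obtain ⟨L', hL'⟩ := h'
  refine ⟨fun k => L (L' k), fun X _ T χ hχ hX hA τ g => ?_⟩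
  obtain ⟨B, hB1, hB2⟩ := hL X T χ hχ hX (fun g v hv => (hA g v hv).1) τ g
  obtain ⟨B', hB1', hB2'⟩ := hL' X T χ hχ hX (fun g v hv => (hA g v hv).2) τ
    fun k => ∏ j ∈ B k, g j
  have hLlt : ∀ k, L k < L (k + 1) := by
    intro k
    obtain ⟨x, hx⟩ := (hB1 k).1
    have h5 := mem_Ico.1 ((hB1 k).2 hx)
    omega
  have hLm : StrictMono L := strictMono_nat_of_lt_succ hLlt
  have hdis : ∀ i j, i ≠ j → Disjoint (B i) (B j) := by
    have h1 : ∀ i j, i < j → Disjoint (B i) (B j) := by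
      intro i j hij
      rw [disjoint_left]
      intro x hx hx'
      have h2 := mem_Ico.1 ((hB1 i).2 hx)
      have h3 := mem_Ico.1 ((hB1 j).2 hx')
      have h4 := hLm.monotone (by omega : i + 1 ≤ j)
      omega
    intro i j hij
    rcases lt_or_gt_of_ne hij with h2 | h2
    · exact h1 i j h2
    · exact (h1 j i h2).symm
  have hprod : ∀ k, ∏ j ∈ (B' k).biUnion B, g j = ∏ i ∈ B' k, ∏ j ∈ B i, g j := fun k =>
    prod_biUnion fun i _ j _ hij => hdis i j hij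
  refine ⟨fun k => (B' k).biUnion B, fun k => ⟨?_, ?_⟩, fun x hx => ?_⟩
  · obtain ⟨i, hi⟩ := (hB1' k).1
    obtain ⟨j, hj⟩ := (hB1 i).1
    exact ⟨j, mem_biUnion.2 ⟨i, hi, hj⟩⟩
  · intro j hj
    obtain ⟨i, hi, hji⟩ := mem_biUnion.1 hj
    have h1 := mem_Ico.1 ((hB1' k).2 hi)
    have h2 := mem_Ico.1 ((hB1 i).2 hji)
    have h3 := hLm.monotone h1.1
    have h4 := hLm.monotone (by omega : i + 1 ≤ L' (k + 1))
    exact mem_Ico.2 ⟨h3.trans h2.1, lt_of_lt_of_le h2.2 h4⟩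
  · have h1 : x ∈ clo τ (fun k => ∏ j ∈ B k, g j) B' := by
      unfold clo at hx ⊢
      simp only [hprod] at hx
      exact hx
    refine ⟨hB2 x ?_, hB2' x h1⟩
    refine (?_ : clo τ (fun k => ∏ j ∈ B k, g j) B' ≤ clo τ g B) h1
    unfold clo
    rw [Subgroup.closure_le]
    rintro _ ⟨i, k, rfl⟩
    beta_reduce
    rw [map_prod]
    exact Subgroup.prod_mem _ fun l _ => Subgroup.subset_closure ⟨i, l, rfl⟩

lemma ramPp_mono {p b d : ℕ} {A A' : HeightOneSpectrum (𝓞 K) → Prop}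
    {N N' : Finset (HeightOneSpectrum (𝓞 K)) → (𝓞 K → ℂ) → Prop} (h : RamPp p b d A N)
    (hA : ∀ v, A' v → A v) (hN : ∀ T χ, N T χ → N' T χ) : RamPp p b d A' N' := by
  obtain ⟨L, hL⟩ := h
  refine ⟨L, fun X _ T χ hχ hX hA' τ g => ?_⟩
  obtain ⟨B, hB1, hB2⟩ := hL X T χ hχ hX (fun g v hv => hA v (hA' g v hv)) τ g
  exact ⟨B, hB1, fun x hx => hN _ _ (hB2 x hx)⟩

theorem ramPp_all {p b d : ℕ} {m : ℕ} (A : Fin m → HeightOneSpectrum (𝓞 K) → Prop)
    (N : Fin m → Finset (HeightOneSpectrum (𝓞 K)) → (𝓞 K → ℂ) → Prop)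
    (h : ∀ i, RamPp p b d (A i) (N i)) :
    RamPp p b d (fun v => ∀ i, A i v) (fun T χ => ∀ i, N i T χ) := by
  induction m with
  | zero => exact ramPp_mono (ramPp_true p b d) (fun _ _ => trivial) fun _ _ _ i => i.elim0
  | succ m ih =>
    have h1 := ih (fun i => A i.castSucc) (fun i => N i.castSucc) fun i => h i.castSucc
    refine ramPp_mono (ramPp_and h1 (h (Fin.last m))) (fun v hv => ⟨fun i => hv _, hv _⟩)
      fun T χ hT i => ?_
    refine Fin.lastCases ?_ (fun j => ?_) i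
    · exact hT.2
    · exact hT.1 j

end ram

end Pool.Agent.H92P
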