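import Pool.Graph.R_seed8.Y304.CT.Emb
import Pool.Graph.R_seed8.H901R3.MS.Defs

/-! The residue field of the algebraic closure of the completion `K_v` and the action of the Galois
group on it. -/

set_option autoImplicit false
set_option linter.all false

namespace Pool.Agent.H92P

open NumberField IsDedekindDomain Pool.Agent.H901R3.MS Polynomial
open Pool.Agent.Y304.CT (V N sp_mul N_int N_one)
open scoped Classical NNReal

section

variable {K : Type} [Field K] [NumberField K] (v : HeightOneSpectrum (𝓞 K))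

/-- the algebraic closure of `K_v` -/
abbrev Om : Type := AlgebraicClosure (v.adicCompletion K)

/-- the Galois group -/
abbrev Gv : Type := Om v ≃ₐ[v.adicCompletion K] Om v

variable {v}

lemma V_act (τ : Gv v) (x : Om v) : V v (τ x) = V v x := by
  apply NNReal.eq
  show spectralNorm (v.adicCompletion K) (Om v) (τ x) = spectralNorm (v.adicCompletion K) (Om v) x
  exact (spectralNorm_eq_of_equiv τ x).symm

variable (v)

/-- the valuation ring -/
noncomputable def OA : Subring (Om v) where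
  carrier := {x | V v x ≤ 1}
  mul_mem' := by
    intro x y hx hy
    simp only [Set.mem_ofPred_eq] at hx hy ⊢
    rw [map_mul]
    exact mul_le_one' hx hy
  one_mem' := by simp
  add_mem' := by
    intro x y hx hy
    simp only [Set.mem_ofPred_eq] at hx hy ⊢
    exact (Valuation.map_add _ x y).trans (max_le hx hy)
  zero_mem' := by simp
  neg_mem' := by
    intro x hx
    simp only [Set.mem_ofPred_eq] at hx ⊢
    rwa [Valuation.map_neg]

variable {v}

lemma mem_OA {x : Om v} : x ∈ OA v ↔ V v x ≤ 1 := Iff.rfl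

lemma isUnit_OA {x : OA v} : IsUnit x ↔ V v (x : Om v) = 1 := by
  constructor
  · rintro ⟨u, rfl⟩
    have h1 : V v ((u : OA v) : Om v) ≤ 1 := (u : OA v).2
    have h2 : V v (((u⁻¹ : (OA v)ˣ) : OA v) : Om v) ≤ 1 := ((u⁻¹ : (OA v)ˣ) : OA v).2
    have h3 : V v ((u : OA v) : Om v) * V v (((u⁻¹ : (OA v)ˣ) : OA v) : Om v) = 1 := by
      rw [← map_mul, ← Subring.coe_mul, ← Units.val_mul, mul_inv_cancel, Units.val_one,
        Subring.coe_one, map_one]
    apply le_antisymm h1
    rw [← h3]
    exact mul_le_of_le_one_right' h2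
  · intro h
    have h0 : (x : Om v) ≠ 0 := by
      intro h0
      rw [h0, map_zero] at h
      exact zero_ne_one h
    refine IsUnit.of_mul_eq_one (⟨(x : Om v)⁻¹, ?_⟩ : OA v) ?_
    · rw [mem_OA, map_inv₀, h, inv_one]
    · apply Subtype.ext
      rw [Subring.coe_mul, Subring.coe_one]
      exact mul_inv_cancel₀ h0

instance locOA : IsLocalRing (OA v) := by
  refine IsLocalRing.of_nonunits_add ?_
  intro x y hx hy
  rw [mem_nonunits_iff, isUnit_OA] at hx hy ⊢
  have h1 : V v (x : Om v) < 1 := lt_of_le_of_ne x.2 hx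
  have h2 : V v (y : Om v) < 1 := lt_of_le_of_ne y.2 hy
  rw [Subring.coe_add]
  exact ((Valuation.map_add _ _ _).trans_lt (max_lt h1 h2)).ne

variable (v)

/-- the residue field -/
abbrev kk : Type := IsLocalRing.ResidueField (OA v)

variable {v}

lemma residue_eq_zero {x : OA v} : IsLocalRing.residue (OA v) x = 0 ↔ V v (x : Om v) < 1 := by
  rw [IsLocalRing.residue_eq_zero_iff, IsLocalRing.mem_maximalIdeal, mem_nonunits_iff, isUnit_OA]
  exact ⟨fun h => lt_of_le_of_ne x.2 h, fun h => h.ne⟩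

variable (v)

/-- the place -/
noncomputable def vv : Place (Om v) (kk v) where
  A := OA v
  ρ := IsLocalRing.residue (OA v)
  inv_of_notMem := by
    intro x hx
    rw [mem_OA, not_le] at hx
    have h1 : V v x⁻¹ < 1 := by
      rw [map_inv₀]
      exact inv_lt_one_of_one_lt₀ hx
    exact ⟨h1.le, residue_eq_zero.2 h1⟩
  inv_of_ne := by
    intro x hx
    rw [Ne, residue_eq_zero, not_lt] at hx
    rw [mem_OA, map_inv₀]
    exact inv_le_one_of_one_le₀ hx

variable {v}

lemma mem_vv {x : Om v} : x ∈ (vv v).A ↔ V v x ≤ 1 := Iff.rfl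

lemma r_eq_zero {x : Om v} (hx : V v x ≤ 1) : (vv v).r x = 0 ↔ V v x < 1 := by
  rw [(vv v).r_of hx]
  exact residue_eq_zero

lemma r_eq_iff {x y : Om v} (hx : V v x ≤ 1) (hy : V v y ≤ 1) :
    (vv v).r x = (vv v).r y ↔ V v (x - y) < 1 := by
  rw [← sub_eq_zero, ← (vv v).r_sub hx hy]
  exact r_eq_zero ((vv v).A.sub_mem hx hy)

lemma r_surj (c : kk v) : ∃ x : Om v, V v x ≤ 1 ∧ (vv v).r x = c := by
  obtain ⟨x, hx⟩ := IsLocalRing.residue_surjective (R := OA v) c
  exact ⟨x, x.2, by rw [(vv v).r_of x.2]; exact hx⟩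

lemma r_act {x y : Om v} (τ : Gv v) (hx : V v x ≤ 1) (hy : V v y ≤ 1)
    (h : (vv v).r x = (vv v).r y) : (vv v).r (τ x) = (vv v).r (τ y) := by
  rw [r_eq_iff (by rwa [V_act]) (by rwa [V_act]), ← map_sub, V_act]
  exact (r_eq_iff hx hy).1 h

/-- an element that is integral over the valuation ring is in it -/
lemma norm_le_of_monic {P : (OA v)[X]} (hP : P.Monic) {x : Om v}
    (hx : eval₂ (OA v).subtype x P = 0) : V v x ≤ 1 := by
  have h1 : IsIntegral (V v).integer x := ⟨P, hP, hx⟩
  exact (Valuation.integer.integers (V v)).mem_of_integral h1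

instance algkk : IsAlgClosed (kk v) := by
  refine IsAlgClosed.of_exists_root _ fun p hp hirr => ?_
  have hl : p ∈ lifts (IsLocalRing.residue (OA v)) := by
    rw [lifts_iff_coeff_lifts]
    intro n
    exact IsLocalRing.residue_surjective _
  obtain ⟨P, h1, h2, h3⟩ := lifts_and_natDegree_eq_and_monic hl hp
  have hdeg : (P.map (OA v).subtype).degree ≠ 0 := by
    rw [h3.degree_map, degree_eq_natDegree h3.ne_zero, h2]
    have := hirr.natDegree_pos
    exact_mod_cast this.ne'
  obtain ⟨x, hx⟩ := IsAlgClosed.exists_root (P.map (OA v).subtype) hdeg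
  rw [IsRoot.def, eval_map] at hx
  have hx1 := norm_le_of_monic h3 hx
  refine ⟨IsLocalRing.residue (OA v) ⟨x, hx1⟩, ?_⟩
  rw [← h1, eval_map, eval₂_hom]
  have h5 : P.eval (⟨x, hx1⟩ : OA v) = 0 := by
    apply Subtype.ext
    have h6 : (OA v).subtype (P.eval (⟨x, hx1⟩ : OA v)) = eval₂ (OA v).subtype x P := by
      rw [← eval₂_hom]
      rfl
    rw [hx] at h6
    exact h6
  rw [h5, map_zero]

/-- the element `τ` on the valuation ring -/
noncomputable def tO (τ : Gv v) : OA v →+* OA v where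
  toFun x := ⟨τ x, by rw [mem_OA, V_act]; exact x.2⟩
  map_one' := Subtype.ext (map_one τ)
  map_mul' x y := Subtype.ext (map_mul τ _ _)
  map_zero' := Subtype.ext (map_zero τ)
  map_add' x y := Subtype.ext (map_add τ _ _)

instance (τ : Gv v) : IsLocalHom (tO τ) := by
  refine ⟨fun x hx => ?_⟩
  rw [isUnit_OA] at hx ⊢
  rw [← hx]
  exact (V_act τ _).symm

/-- the action on the residue field -/
noncomputable def ra (τ : Gv v) : kk v →+* kk v := IsLocalRing.ResidueField.map (tO τ)

lemma ra_r (τ : Gv v) {x : Om v} (hx : V v x ≤ 1) : ra τ ((vv v).r x) = (vv v).r (τ x) := by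
  rw [(vv v).r_of hx, (vv v).r_of (show τ x ∈ (vv v).A by rw [mem_vv, V_act]; exact hx)]
  exact IsLocalRing.ResidueField.map_residue (tO τ) ⟨x, hx⟩

lemma ra_one (c : kk v) : ra (1 : Gv v) c = c := by
  obtain ⟨x, hx, rfl⟩ := r_surj c
  rw [ra_r _ hx]
  rfl

lemma ra_mul (σ τ : Gv v) (c : kk v) : ra (σ * τ) c = ra σ (ra τ c) := by
  obtain ⟨x, hx, rfl⟩ := r_surj c
  rw [ra_r _ hx, ra_r _ hx, ra_r _ (by rwa [V_act])]
  rfl

end

end Pool.Agent.H92P
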