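import Pool.Graph.R_seed8.R425.Av
import Pool.Agent.H92P.Res
import Pool.Agent.H92P.Lang

/-! The Galois group of `K_v` on the residue field: Frobenius elements at finite level. -/

set_option autoImplicit false
set_option linter.all false

namespace Pool.Agent.H92P

open NumberField IsDedekindDomain Pool.Agent.H901R3.MS Polynomial
open Pool.Agent.Y304.CT (V N sp_mul N_int N_one)
open scoped Classical NNReal

section

variable {K : Type} [Field K] [NumberField K] {v : HeightOneSpectrum (𝓞 K)}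

lemma V_alg (y : v.adicCompletion K) :
    ((V v (algebraMap (v.adicCompletion K) (Om v) y) : ℝ≥0) : ℝ) = ‖y‖ :=
  spectralNorm_extends y

/-- the elements of `K` in `Om v` -/
noncomputable def e0 (v : HeightOneSpectrum (𝓞 K)) : K →+* Om v :=
  (algebraMap (v.adicCompletion K) (Om v)).comp (algebraMap K (v.adicCompletion K))

lemma e0_fix (τ : Gv v) (x : K) : τ (e0 v x) = e0 v x := τ.commutes _

lemma V_e0 (x : 𝓞 K) : V v (e0 v x) ≤ 1 := by
  have h := N_int v (e0 v) x
  exact h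

lemma V_e0_lt {x : 𝓞 K} : V v (e0 v x) < 1 ↔ x ∈ v.asIdeal := by
  rw [← FinitePlace.norm_lt_one_iff_mem K v x, ← NNReal.coe_lt_coe]
  have h := V_alg (v := v) (algebraMap K (v.adicCompletion K) (x : K))
  have h' : ((V v (e0 v x) : ℝ≥0) : ℝ) = ‖algebraMap K (v.adicCompletion K) (x : K)‖ := h
  rw [h']
  rfl

/-- the homomorphism to the residue field -/
noncomputable def r0 (v : HeightOneSpectrum (𝓞 K)) : 𝓞 K →+* kk v where
  toFun x := (vv v).r (e0 v x)
  map_one' := by
    have e : e0 v ((1 : 𝓞 K) : K) = 1 := (congrArg (e0 v) (map_one (algebraMap (𝓞 K) K))).trans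
      (map_one _)
    rw [e, (vv v).r_one]
  map_mul' x y := by
    have e : e0 v ((x * y : 𝓞 K) : K) = e0 v x * e0 v y :=
      (congrArg (e0 v) (map_mul (algebraMap (𝓞 K) K) x y)).trans (map_mul _ _ _)
    rw [e, (vv v).r_mul (V_e0 x) (V_e0 y)]
  map_zero' := by
    have e : e0 v ((0 : 𝓞 K) : K) = 0 := (congrArg (e0 v) (map_zero (algebraMap (𝓞 K) K))).trans
      (map_zero _)
    rw [e, (vv v).r_zero]
  map_add' x y := by
    have e : e0 v ((x + y : 𝓞 K) : K) = e0 v x + e0 v y :=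
      (congrArg (e0 v) (map_add (algebraMap (𝓞 K) K) x y)).trans (map_add _ _ _)
    rw [e, (vv v).r_add (V_e0 x) (V_e0 y)]

lemma r0_apply (x : 𝓞 K) : r0 v x = (vv v).r (e0 v x) := rfl

lemma r0_eq_zero {x : 𝓞 K} : r0 v x = 0 ↔ x ∈ v.asIdeal := by
  rw [r0_apply, r_eq_zero (V_e0 x), V_e0_lt]

lemma ra_r0 (τ : Gv v) (x : 𝓞 K) : ra τ (r0 v x) = r0 v x := by
  rw [r0_apply, ra_r τ (V_e0 x), e0_fix]

/-- the order of the residue field -/
noncomputable abbrev qv (v : HeightOneSpectrum (𝓞 K)) : ℕ := Ideal.absNorm v.asIdeal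

lemma qv_ex (v : HeightOneSpectrum (𝓞 K)) : ∃ p₀ f : ℕ, p₀.Prime ∧ CharP (kk v) p₀ ∧
    qv v = p₀ ^ f ∧ 0 < f ∧ (∀ x : 𝓞 K, x ^ qv v - x ∈ v.asIdeal) := by
  haveI : v.asIdeal.IsMaximal := v.isMaximal
  haveI : Finite (𝓞 K ⧸ v.asIdeal) := Ideal.finiteQuotientOfFreeOfNeBot v.asIdeal v.ne_bot
  letI := Fintype.ofFinite (𝓞 K ⧸ v.asIdeal)
  letI : Field (𝓞 K ⧸ v.asIdeal) := Ideal.Quotient.field v.asIdeal
  obtain ⟨p₀, hp₀⟩ := CharP.exists (𝓞 K ⧸ v.asIdeal)
  obtain ⟨f, hp, hf⟩ := FiniteField.card (𝓞 K ⧸ v.asIdeal) p₀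
  have hq : qv v = Fintype.card (𝓞 K ⧸ v.asIdeal) := by
    show Ideal.absNorm v.asIdeal = _
    rw [Ideal.absNorm_apply, Submodule.cardQuot_apply, Nat.card_eq_fintype_card]
  have hinj : Function.Injective (Ideal.Quotient.lift v.asIdeal (r0 v) fun x hx =>
    r0_eq_zero.2 hx) := RingHom.injective _
  refine ⟨p₀, f, hp, charP_of_injective_ringHom hinj p₀, by rw [hq, hf], f.pos, fun x => ?_⟩
  rw [← Ideal.Quotient.eq_zero_iff_mem, map_sub, map_pow, hq, FiniteField.pow_card, sub_self]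

lemma one_lt_qv (v : HeightOneSpectrum (𝓞 K)) : 1 < qv v := by
  obtain ⟨p₀, f, hp, hc, hq, hf, -⟩ := qv_ex v
  rw [hq]
  exact Nat.one_lt_pow hf.ne' hp.one_lt

/-- the Frobenius map of the residue field -/
noncomputable def fr (v : HeightOneSpectrum (𝓞 K)) : kk v →+* kk v :=
  letI : ExpChar (kk v) (qv_ex v).choose :=
    @ExpChar.prime _ _ _ (qv_ex v).choose_spec.choose_spec.1
      (qv_ex v).choose_spec.choose_spec.2.1
  iterateFrobenius (kk v) (qv_ex v).choose (qv_ex v).choose_spec.choose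

lemma fr_apply (c : kk v) : fr v c = c ^ qv v := by
  letI : ExpChar (kk v) (qv_ex v).choose :=
    @ExpChar.prime _ _ _ (qv_ex v).choose_spec.choose_spec.1
      (qv_ex v).choose_spec.choose_spec.2.1
  have h := iterateFrobenius_def (R := kk v) (qv_ex v).choose (qv_ex v).choose_spec.choose c
  rw [(qv_ex v).choose_spec.choose_spec.2.2.1]
  exact h

lemma r0_pow (x : 𝓞 K) : r0 v x ^ qv v = r0 v x := by
  obtain ⟨p₀, f, hp, hc, hq, hf, h⟩ := qv_ex v
  rw [← sub_eq_zero, ← map_pow, ← map_sub]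
  exact r0_eq_zero.2 (h x)

/-- the elements of the residue field of `K_v` -/
lemma r0_surj {c : kk v} (hc : c ^ qv v = c) : ∃ x : 𝓞 K, r0 v x = c := by
  haveI : v.asIdeal.IsMaximal := v.isMaximal
  haveI : Finite (𝓞 K ⧸ v.asIdeal) := Ideal.finiteQuotientOfFreeOfNeBot v.asIdeal v.ne_bot
  letI := Fintype.ofFinite (𝓞 K ⧸ v.asIdeal)
  have hq : qv v = Fintype.card (𝓞 K ⧸ v.asIdeal) := by
    show Ideal.absNorm v.asIdeal = _
    rw [Ideal.absNorm_apply, Submodule.cardQuot_apply, Nat.card_eq_fintype_card]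
  set g := Ideal.Quotient.lift v.asIdeal (r0 v) fun x hx => r0_eq_zero.2 hx with hg
  have hinj : Function.Injective g := by
    letI : Field (𝓞 K ⧸ v.asIdeal) := Ideal.Quotient.field v.asIdeal
    exact RingHom.injective _
  have hne : (X ^ qv v - X : (kk v)[X]) ≠ 0 :=
    FiniteField.X_pow_card_sub_X_ne_zero _ (one_lt_qv v)
  set S : Finset (kk v) := Finset.univ.image g with hS
  set T : Finset (kk v) := (X ^ qv v - X : (kk v)[X]).roots.toFinset with hT
  have hTm : ∀ x : kk v, x ∈ T ↔ x ^ qv v = x := by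
    intro x
    rw [hT, Multiset.mem_toFinset, mem_roots hne, IsRoot.def, eval_sub, eval_pow, eval_X,
      sub_eq_zero]
  have h1 : S ⊆ T := by
    intro x hx
    rw [hS, Finset.mem_image] at hx
    obtain ⟨z, -, rfl⟩ := hx
    obtain ⟨y, rfl⟩ := Ideal.Quotient.mk_surjective z
    rw [hTm]
    exact r0_pow y
  have h2 : S.card = qv v := by
    rw [hS, Finset.card_image_of_injective _ hinj, Finset.card_univ, hq]
  have h3 : T.card ≤ qv v := by
    refine (Multiset.toFinset_card_le _).trans ((card_roots' _).trans ?_)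
    exact (natDegree_sub_le_of_le (natDegree_X_pow_le _) natDegree_X_le).trans
      (by rw [max_eq_left (one_lt_qv v).le])
  have h4 : S = T := Finset.eq_of_subset_of_card_le h1 (by rw [h2]; exact h3)
  have h5 : c ∈ S := by rw [h4, hTm]; exact hc
  rw [hS, Finset.mem_image] at h5
  obtain ⟨z, -, hz⟩ := h5
  obtain ⟨y, rfl⟩ := Ideal.Quotient.mk_surjective z
  exact ⟨y, hz⟩

lemma ra_fix {c : kk v} (hc : c ^ qv v = c) (τ : Gv v) : ra τ c = c := by
  obtain ⟨x, rfl⟩ := r0_surj hc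
  exact ra_r0 τ x

/-- residues of elements of `K_v` -/
lemma r_alg {y : v.adicCompletion K} (hy : V v (algebraMap (v.adicCompletion K) (Om v) y) ≤ 1) :
    (vv v).r (algebraMap (v.adicCompletion K) (Om v) y) ^ qv v =
      (vv v).r (algebraMap (v.adicCompletion K) (Om v) y) := by
  have h1 : ‖y‖ ≤ 1 := by
    rw [← V_alg]
    exact_mod_cast hy
  obtain ⟨a, ha⟩ := Pool.Agent.R425.exists_approxO v y (Valued.toNormedField.norm_le_one_iff.mp h1)
  have h2 : V v (algebraMap (v.adicCompletion K) (Om v) y - e0 v a) < 1 := by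
    have h3 : ‖y - algebraMap K (v.adicCompletion K) (a : K)‖ < 1 :=
      Valued.toNormedField.norm_lt_one_iff.mpr ha
    rw [← V_alg] at h3
    have h4 : V v (algebraMap (v.adicCompletion K) (Om v)
        (y - algebraMap K (v.adicCompletion K) (a : K))) < 1 := by exact_mod_cast h3
    rwa [map_sub] at h4
  rw [(r_eq_iff hy (V_e0 a)).2 h2]
  exact r0_pow a

end

end Pool.Agent.H92P
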