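import Pool.Agent.H92P.Res2

/-! The Galois group of `K_v` on the residue field: Frobenius elements at finite level. -/

set_option autoImplicit false
set_option linter.all false

namespace Pool.Agent.H92P

open NumberField IsDedekindDomain Pool.Agent.H901R3.MS Polynomial
open Pool.Agent.Y304.CT (V N sp_mul N_int N_one)
open scoped Classical NNReal

section

variable {K : Type} [Field K] [NumberField K] {v : HeightOneSpectrum (𝓞 K)}

lemma ms_lift {α : Type} (P : α → Prop) (s : Multiset α) (h : ∀ w ∈ s, P w) :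
    ∃ s' : Multiset {x // P x}, s'.map (fun w : {x // P x} => (w : α)) = s := by
  refine ⟨s.pmap Subtype.mk h, ?_⟩
  rw [Multiset.map_pmap, Multiset.pmap_eq_map, Multiset.map_id']

/-- the reduction of the minimal polynomial -/
lemma exists_red (z : Om v) (hz : V v z ≤ 1) : ∃ g : (kk v)[X], g.Monic ∧ g.map (fr v) = g ∧
    g.eval ((vv v).r z) = 0 ∧ ∀ c, g.eval c = 0 → ∃ σ : Gv v, ra σ ((vv v).r z) = c := by
  haveI : CharZero (v.adicCompletion K) := algebraRat.charZero _
  set f := minpoly (v.adicCompletion K) z with hf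
  have hint : IsIntegral (v.adicCompletion K) z := Algebra.IsIntegral.isIntegral z
  have hmon : (f.map (algebraMap (v.adicCompletion K) (Om v))).Monic :=
    (minpoly.monic hint).map _
  set s := (f.map (algebraMap (v.adicCompletion K) (Om v))).roots with hs
  have hroot : ∀ w ∈ s, ∃ σ : Gv v, σ z = w := by
    intro w hw
    rw [hs, mem_roots hmon.ne_zero, IsRoot.def, eval_map_algebraMap] at hw
    have h1 : IsConjRoot (v.adicCompletion K) z w := (isConjRoot_iff_aeval_eq_zero hint).2 hw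
    obtain ⟨σ, hσ⟩ := isConjRoot_iff_exists_algEquiv.1 h1
    exact ⟨σ.symm, by rw [← hσ]; exact σ.symm_apply_apply w⟩
  have hsA : ∀ w ∈ s, V v w ≤ 1 := by
    intro w hw
    obtain ⟨σ, rfl⟩ := hroot w hw
    rw [V_act]
    exact hz
  have hprod : f.map (algebraMap (v.adicCompletion K) (Om v)) =
      (s.map (fun w => X - C w)).prod :=
    (IsAlgClosed.splits _).eq_prod_roots_of_monic hmon
  -- the polynomial over the valuation ring
  obtain ⟨s', hs'⟩ : ∃ s' : Multiset (OA v), s'.map (fun w : OA v => (w : Om v)) = s :=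
    ms_lift (fun x => x ∈ OA v) s (fun w hw => mem_OA.2 (hsA w hw))
  have hmem : ∀ w : OA v, w ∈ s' → (w : Om v) ∈ s := by
    intro w hw
    rw [← hs']
    exact Multiset.mem_map_of_mem _ hw
  have hmem' : ∀ w : OA v, (w : Om v) ∈ s → w ∈ s' := by
    intro w hw
    rw [← hs', Multiset.mem_map] at hw
    obtain ⟨w', hw', e⟩ := hw
    rwa [← Subtype.ext e]
  set F : (OA v)[X] := (s'.map (fun w : OA v => X - C w)).prod with hF
  have hFm : F.Monic := monic_multiset_prod_of_monic _ _ fun w _ => monic_X_sub_C w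
  have hF1 : F.map (OA v).subtype = f.map (algebraMap (v.adicCompletion K) (Om v)) := by
    have e1 : s.map (fun w => X - C w) = s'.map (fun w : OA v => X - C (w : Om v)) := by
      conv_lhs => rw [← hs']
      rw [Multiset.map_map]
      rfl
    rw [hprod, hF, Polynomial.map_multiset_prod, Multiset.map_map, e1]
    congr 1
    refine Multiset.map_congr rfl fun w _ => ?_
    simp only [Function.comp, Polynomial.map_sub, map_X, map_C]
    rfl
  have hF2 : F.map (IsLocalRing.residue (OA v)) =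
      (s'.map (fun w : OA v => X - C ((vv v).r (w : Om v)))).prod := by
    rw [hF, Polynomial.map_multiset_prod, Multiset.map_map]
    congr 1
    refine Multiset.map_congr rfl fun w _ => ?_
    simp only [Function.comp, Polynomial.map_sub, map_X, map_C]
    congr 2
    exact ((vv v).r_of w.2).symm
  refine ⟨F.map (IsLocalRing.residue (OA v)), hFm.map _, ?_, ?_, ?_⟩
  · ext n
    rw [coeff_map, coeff_map, fr_apply]
    have h1 := congrArg (fun P => P.coeff n) hF1
    simp only [coeff_map] at h1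
    have h2 : IsLocalRing.residue (OA v) (F.coeff n) = (vv v).r ((F.coeff n : OA v) : Om v) :=
      ((vv v).r_of (F.coeff n).2).symm
    have h3 : ((F.coeff n : OA v) : Om v) = algebraMap (v.adicCompletion K) (Om v) (f.coeff n) := h1
    rw [h2, h3]
    apply r_alg
    rw [← h3]
    exact (F.coeff n).2
  · rw [hF2, eval_multiset_prod, Multiset.prod_eq_zero_iff, Multiset.map_map, Multiset.mem_map]
    have hzs : z ∈ s := by
      rw [hs, mem_roots hmon.ne_zero, IsRoot.def, eval_map_algebraMap]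
      exact minpoly.aeval _ _
    have hzs' : (⟨z, hz⟩ : OA v) ∈ s' := hmem' _ hzs
    exact ⟨⟨z, hz⟩, hzs', by simp⟩
  · intro c hc
    rw [hF2, eval_multiset_prod, Multiset.prod_eq_zero_iff, Multiset.map_map, Multiset.mem_map] at hc
    obtain ⟨w, hw, h1⟩ := hc
    simp only [Function.comp, eval_sub, eval_X, eval_C] at h1
    obtain ⟨σ, hσ⟩ := hroot w (hmem w hw)
    refine ⟨σ, ?_⟩
    rw [ra_r σ hz, hσ]
    exact (sub_eq_zero.1 h1).symm

lemma eval_fr {g : (kk v)[X]} (hg : g.map (fr v) = g) {c : kk v} (hc : g.eval c = 0) :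
    g.eval (c ^ qv v) = 0 := by
  rw [← fr_apply]
  conv_lhs => rw [← hg]
  rw [eval_map, eval₂_at_apply, hc, map_zero]

/-- **Frobenius elements, one residue** -/
lemma frob_one (c : kk v) : ∃ σ : Gv v, ra σ c = c ^ qv v := by
  obtain ⟨z, hz, rfl⟩ := r_surj c
  obtain ⟨g, -, hg, h0, h⟩ := exists_red z hz
  exact h _ (eval_fr hg h0)

lemma eval_fr_pow {g : (kk v)[X]} (hg : g.map (fr v) = g) {c : kk v} (hc : g.eval c = 0) (i : ℕ) :
    g.eval (c ^ qv v ^ i) = 0 := by
  induction i with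
  | zero => rwa [pow_zero, pow_one]
  | succ i ih =>
    rw [pow_succ, pow_mul]
    exact eval_fr hg ih

lemma fr_pow_inj (i : ℕ) {c d : kk v} (h : c ^ qv v ^ i = d ^ qv v ^ i) : c = d := by
  induction i with
  | zero => rwa [pow_zero, pow_one, pow_one] at h
  | succ i ih =>
    rw [pow_succ, pow_mul, pow_mul, ← fr_apply, ← fr_apply] at h
    exact ih ((fr v).injective h)

/-- every element of the residue field is in a finite field -/
lemma exists_period (c : kk v) : ∃ m : ℕ, 0 < m ∧ c ^ qv v ^ m = c := by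
  obtain ⟨z, hz, rfl⟩ := r_surj c
  obtain ⟨g, hm, hg, h0, -⟩ := exists_red z hz
  set c := (vv v).r z
  let f : ℕ → g.roots.toFinset := fun i => ⟨c ^ qv v ^ i, by
    rw [Multiset.mem_toFinset, mem_roots hm.ne_zero]
    exact eval_fr_pow hg h0 i⟩
  obtain ⟨i, j, hij, hf⟩ := Finite.exists_ne_map_eq_of_infinite f
  have hf' : c ^ qv v ^ i = c ^ qv v ^ j := congrArg Subtype.val hf
  wlog hlt : i < j generalizing i j with H
  · exact H j i hij.symm hf.symm hf'.symm (by omega)
  refine ⟨j - i, by omega, ?_⟩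
  apply fr_pow_inj i
  rw [← pow_mul, ← pow_add, Nat.sub_add_cancel hlt.le]
  exact hf'.symm

lemma period_mul {c : kk v} {m : ℕ} (h : c ^ qv v ^ m = c) (n : ℕ) : c ^ qv v ^ (m * n) = c := by
  induction n with
  | zero => rw [mul_zero, pow_zero, pow_one]
  | succ n ih => rw [mul_add, mul_one, pow_add, pow_mul, ih, h]

/-- the group acts on the residue field by powers of the Frobenius map -/
lemma pow_one' (τ : Gv v) {c : kk v} {m : ℕ} (hm : 0 < m) (h : c ^ qv v ^ m = c) :
    ∃ j : ℕ, ra τ c = c ^ qv v ^ j := by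
  set g : (kk v)[X] := ∏ j ∈ Finset.range m, (X - C (c ^ qv v ^ j)) with hgd
  have hg : g.map (fr v) = g := by
    rw [hgd, Polynomial.map_prod]
    have e1 : ∀ j, Polynomial.map (fr v) (X - C (c ^ qv v ^ j)) = X - C (c ^ qv v ^ (j + 1)) := by
      intro j
      rw [Polynomial.map_sub, map_X, map_C, fr_apply, ← pow_mul, ← pow_succ]
    rw [Finset.prod_congr rfl fun j _ => e1 j]
    obtain ⟨m', rfl⟩ : ∃ m', m = m' + 1 := ⟨m - 1, by omega⟩
    rw [Finset.prod_range_succ, Finset.prod_range_succ', h, pow_zero, pow_one]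
  have hgn : ∀ n, ra τ (g.coeff n) = g.coeff n := by
    intro n
    apply ra_fix
    rw [← fr_apply]
    have h1 := congrArg (fun P => P.coeff n) hg
    simpa only [coeff_map] using h1
  have hgτ : g.map (ra τ) = g := by
    ext n
    rw [coeff_map, hgn]
  have h0 : g.eval c = 0 := by
    rw [hgd, eval_prod]
    refine Finset.prod_eq_zero (Finset.mem_range.2 hm) ?_
    rw [pow_zero, pow_one]
    simp
  have h1 : g.eval (ra τ c) = 0 := by
    conv_lhs => rw [← hgτ]
    rw [eval_map, eval₂_at_apply, h0, map_zero]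
  rw [hgd, eval_prod, Finset.prod_eq_zero_iff] at h1
  obtain ⟨j, -, hj⟩ := h1
  rw [eval_sub, eval_X, eval_C, sub_eq_zero] at hj
  exact ⟨j, hj⟩

/-- finite sets of residues -/
lemma exists_gen (S : Finset (kk v)) : ∃ (ζ : kk v) (m : ℕ), 0 < m ∧ ζ ^ qv v ^ m = ζ ∧
    ∀ x ∈ S, x = 0 ∨ ∃ i : ℕ, x = ζ ^ i := by
  obtain ⟨p₀, f, hp, hc, hq, hf, -⟩ := qv_ex v
  choose per hper hper' using exists_period (v := v)
  set m := ∏ x ∈ S, per x with hm
  have hm0 : 0 < m := Finset.prod_pos fun x _ => hper x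
  have hS : ∀ x ∈ S, x ^ qv v ^ m = x := by
    intro x hx
    obtain ⟨n, hn⟩ := Finset.dvd_prod_of_mem per hx
    rw [hm, hn]
    exact period_mul (hper' x) n
  have hqm : 1 < qv v ^ m := Nat.one_lt_pow hm0.ne' (one_lt_qv v)
  set M := qv v ^ m - 1 with hM
  have hM1 : qv v ^ m = M + 1 := by omega
  have hqz : ((qv v ^ m : ℕ) : kk v) = 0 := by
    have h1 : ((p₀ : ℕ) : kk v) = 0 := CharP.cast_eq_zero _ _
    rw [hq]
    push_cast
    rw [h1, zero_pow hf.ne', zero_pow hm0.ne']
  haveI : NeZero ((M : ℕ) : kk v) := ⟨by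
    intro h0
    rw [hM1] at hqz
    push_cast at hqz
    rw [h0, zero_add] at hqz
    exact one_ne_zero hqz⟩
  haveI := IsSepClosed.hasEnoughRootsOfUnity (kk v) M
  obtain ⟨ζ, hζ⟩ := HasEnoughRootsOfUnity.exists_primitiveRoot (kk v) M
  haveI : NeZero M := ⟨by omega⟩
  refine ⟨ζ, m, hm0, ?_, fun x hx => ?_⟩
  · rw [hM1, pow_succ, hζ.pow_eq_one, one_mul]
  · by_cases hx0 : x = 0
    · exact Or.inl hx0
    · right
      have h1 := hS x hx
      rw [hM1, pow_succ] at h1
      have h2 : x ^ M = 1 := mul_right_cancel₀ hx0 (h1.trans (one_mul x).symm)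
      obtain ⟨i, -, hi⟩ := hζ.eq_pow_of_pow_eq_one h2
      exact ⟨i, hi.symm⟩

/-- **Frobenius elements** -/
theorem frob_ex (S : Finset (kk v)) : ∃ σ : Gv v, ∀ x ∈ S, ra σ x = x ^ qv v := by
  obtain ⟨ζ, m, hm, h1, h2⟩ := exists_gen S
  obtain ⟨σ, hσ⟩ := frob_one ζ
  refine ⟨σ, fun x hx => ?_⟩
  rcases h2 x hx with rfl | ⟨i, rfl⟩
  · rw [map_zero, zero_pow (by have := one_lt_qv v; omega)]
  · rw [map_pow, hσ, ← pow_mul, ← pow_mul, mul_comm]

theorem pow_ex (S : Finset (kk v)) (τ : Gv v) : ∃ j : ℕ, ∀ x ∈ S, ra τ x = x ^ qv v ^ j := by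
  obtain ⟨ζ, m, hm, h1, h2⟩ := exists_gen S
  obtain ⟨j, hj⟩ := pow_one' τ hm h1
  refine ⟨j, fun x hx => ?_⟩
  rcases h2 x hx with rfl | ⟨i, rfl⟩
  · rw [map_zero, zero_pow (pow_ne_zero _ (by have := one_lt_qv v; omega))]
  · rw [map_pow, hj, ← pow_mul, ← pow_mul, mul_comm]

end

end Pool.Agent.H92P
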