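import Pool.Agent.H92P.Loc5
import Pool.Graph.R_seed8.H64R2.DD_MWK
import Pool.Graph.R_seed8.Y667.BKP.Main

/-!
# The points and the Tate-Shafarevich group over Galois extensions of degree a power of the odd prime `p`
-/

set_option autoImplicit false
set_option linter.all false

open NumberField IsDedekindDomain WithZero WeierstrassCurve Polynomial
open scoped Classical

namespace Pool.Agent.H92P

open Pool.Agent.TH115.GD (act ak rs LocTriv)
open Pool.Agent.E8helper21 (tors_of_card castPt)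
open Pool.Agent.H901R3.MS

/-! ### Mordell-Weil -/

theorem mw_fg {K : Type} [Field K] [NumberField K] (a b : K) (hab : 4 * a ^ 3 + 27 * b ^ 2 ≠ 0) :
    AddGroup.FG (⟨0, 0, 0, a, b⟩ : WeierstrassCurve K).toAffine.Point := by
  let P : Cubic K := ⟨1, 0, a, b⟩
  let L : Type := P.toPoly.SplittingField
  have : NumberField L := NumberField.of_module_finite K L
  have ha : P.a ≠ 0 := one_ne_zero
  have hsp : Splits (P.toPoly.map (algebraMap K L)) := SplittingField.splits P.toPoly
  obtain ⟨x, y, z, h3⟩ := (Cubic.splits_iff_roots_eq_three ha).1 hsp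
  have hdisc : P.discr ≠ 0 := by
    have h : P.discr = -(4 * a ^ 3 + 27 * b ^ 2) := by
      simp only [Cubic.discr, P]
      ring
    rw [h, neg_ne_zero]
    exact hab
  obtain ⟨hxy, hxz, hyz⟩ := (Cubic.discr_ne_zero_iff_roots_ne ha h3).1 hdisc
  have hb := Cubic.b_eq_three_roots ha h3
  have hc := Cubic.c_eq_three_roots ha h3
  have hd := Cubic.d_eq_three_roots ha h3
  simp only [P, map_one, map_zero, one_mul] at hb hc hd
  have hK : AddGroup.FG (Pool.Agent.H437R2.Man.MW.crv (-x) (-y) (-z)).toAffine.Point :=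
    Pool.Agent.H437R2.Man.MW.pt_fg (fun h => hxy (neg_injective h)) (fun h => hxz (neg_injective h))
      (fun h => hyz (neg_injective h))
  have heq : (Pool.Agent.H437R2.Man.MW.crv (-x) (-y) (-z)).toAffine =
      ((⟨0, 0, 0, a, b⟩ : WeierstrassCurve K).baseChange L).toAffine := by
    apply WeierstrassCurve.ext
    · change (0 : L) = algebraMap K L 0
      rw [map_zero]
    · change -x + -y + -z = algebraMap K L 0
      rw [map_zero]
      linear_combination -hb
    · change (0 : L) = algebraMap K L 0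
      rw [map_zero]
    · change -x * -y + -x * -z + -y * -z = algebraMap K L a
      linear_combination -hc
    · change -x * -y * -z = algebraMap K L b
      linear_combination -hd
  have hK' : AddGroup.FG ((⟨0, 0, 0, a, b⟩ : WeierstrassCurve K).baseChange L).toAffine.Point :=
    Pool.Agent.H64R2.DDMWK.fg_of_eq heq hK
  have hinj := WeierstrassCurve.Affine.Point.map_injective
    (W' := (⟨0, 0, 0, a, b⟩ : WeierstrassCurve K).toAffine) (Algebra.ofId K L)
  exact Pool.Agent.H64R2.DDMWK.fg_of_inj _ hinj hK'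

/-! ### The number of points modulo `v` -/

section pts

variable {k : Type} [Field k] [NumberField k]

/-- the number of the affine points over the residue field -/
noncomputable def pts (a b : 𝓞 k) (v : HeightOneSpectrum (𝓞 k)) : ℕ :=
  Nat.card {x : (𝓞 k ⧸ v.asIdeal) × (𝓞 k ⧸ v.asIdeal) //
    x.2 ^ 2 = x.1 ^ 3 + (Ideal.Quotient.mk v.asIdeal a) * x.1 + (Ideal.Quotient.mk v.asIdeal b)}

theorem card_pts {F : Type} [Field F] [Finite F] {a b : F} (hD : Disc a b) :
    Finite (Pt a b) ∧ Nat.card (Pt a b) =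
      Nat.card {x : F × F // x.2 ^ 2 = x.1 ^ 3 + a * x.1 + b} + 1 := by
  let e : Pt a b ≃ Option {x : F × F // x.2 ^ 2 = x.1 ^ 3 + a * x.1 + b} :=
    { toFun := fun P => match P with
        | .zero => none
        | .some x y h => some ⟨(x, y), eqn_of h⟩
      invFun := fun Q => match Q with
        | none => .zero
        | some P => .some P.1.1 P.1.2 ((nonsingular_iff hD).2 P.2)
      left_inv := by
        intro P
        rcases P with _ | ⟨x, y, h⟩
        · rfl
        · rfl
      right_inv := by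
        intro Q
        rcases Q with _ | ⟨⟨x, y⟩, h⟩
        · rfl
        · rfl }
  haveI : Finite {x : F × F // x.2 ^ 2 = x.1 ^ 3 + a * x.1 + b} := inferInstance
  refine ⟨Finite.of_equiv _ e.symm, ?_⟩
  rw [Nat.card_congr e, Finite.card_option]

theorem hR_of' {p : ℕ} (hp : p.Prime) {a b : 𝓞 k} {v : HeightOneSpectrum (𝓞 k)}
    (hd : 2 * (4 * a ^ 3 + 27 * b ^ 2) ∉ v.asIdeal) (h : ¬ p ∣ pts a b v + 1) (Q : PR v a b)
    (hQ : FrE v a b Q = Q) (hpQ : p • Q = 0) : Q = 0 := by
  haveI : v.asIdeal.IsMaximal := v.isMaximal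
  letI : Field (𝓞 k ⧸ v.asIdeal) := Ideal.Quotient.field v.asIdeal
  haveI : Finite (𝓞 k ⧸ v.asIdeal) := Ideal.finiteQuotientOfFreeOfNeBot v.asIdeal v.ne_bot
  set A : 𝓞 k ⧸ v.asIdeal := Ideal.Quotient.mk v.asIdeal a with hA
  set B : 𝓞 k ⧸ v.asIdeal := Ideal.Quotient.mk v.asIdeal b with hB
  let φ : (𝓞 k ⧸ v.asIdeal) →+* kk v :=
    Ideal.Quotient.lift v.asIdeal (r0 v) (fun x hx => r0_eq_zero.2 hx)
  have hφ : ∀ x : 𝓞 k, φ (Ideal.Quotient.mk v.asIdeal x) = r0 v x := fun x => rfl
  have hφa : φ A = r0 v a := rfl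
  have hφb : φ B = r0 v b := rfl
  have hD : Disc A B := by
    intro h0
    apply disc_kk hd
    rw [← hφa, ← hφb]
    have := congrArg φ h0
    simpa only [map_mul, map_add, map_pow, map_ofNat, map_zero] using this
  obtain ⟨hfin, hcard⟩ := card_pts hD
  -- the point over the residue field
  obtain ⟨Q₀, rfl⟩ : ∃ Q₀ : Pt A B, pmg φ hφa hφb Q₀ = Q := by
    rcases Q with _ | ⟨x, y, g⟩
    · exact ⟨0, map_zero _⟩
    · obtain ⟨g', e⟩ := FrE_some g
      rw [e, Affine.Point.some.injEq] at hQ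
      obtain ⟨X, hX⟩ := r0_surj hQ.1
      obtain ⟨Y, hY⟩ := r0_surj hQ.2
      have g' : (CV (r0 v a) (r0 v b)).toAffine.Nonsingular
          (φ (Ideal.Quotient.mk v.asIdeal X)) (φ (Ideal.Quotient.mk v.asIdeal Y)) := by
        rw [hφ, hφ, hX, hY]; exact g
      refine ⟨Affine.Point.some (Ideal.Quotient.mk v.asIdeal X) (Ideal.Quotient.mk v.asIdeal Y)
        (ns_descg φ hφa hφb g'), ?_⟩
      rw [pmg_some φ hφa hφb _ g', Affine.Point.some.injEq]
      exact ⟨hX, hY⟩
  have hpQ : p • Q₀ = 0 := by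
    apply pmg_inj φ hφa hφb
    rw [map_nsmul, hpQ, map_zero]
  have h0 : Q₀ = 0 := by
    refine tors_of_card hp ?_ hpQ
    rw [hcard]
    exact h
  rw [h0, map_zero]

end pts

/-- the curve `y² = x³ + a x + b` over an extension -/
abbrev cu {k : Type} [Field k] [NumberField k] (F : Type) [Field F] [Algebra k F] (a b : 𝓞 k) :
    WeierstrassCurve F := ⟨0, 0, 0, algebraMap k F a, algebraMap k F b⟩

section up

variable {k K : Type} [Field k] [NumberField k] [Field K] [NumberField K] [Algebra k K]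

theorem cu_map (a b : 𝓞 k) : (VC a b).map (algebraMap k K) = cu K a b := by
  ext
  · exact map_zero _
  · exact map_zero _
  · exact map_zero _
  · rfl
  · rfl

theorem cu_self (a b : 𝓞 k) : VC a b = cu k a b := rfl

lemma cast_fin {F : Type} [Field F] {W W' : WeierstrassCurve F} (h : W = W')
    (hf : Finite W.toAffine.Point) : Finite W'.toAffine.Point := by
  subst h; exact hf

lemma cast_card {F : Type} [Field F] {W W' : WeierstrassCurve F} (h : W = W') :
    Nat.card W.toAffine.Point = Nat.card W'.toAffine.Point := by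
  subst h; rfl

/-- no elements of `p`-power order -/
lemma sha_pow' {B : Type} [AddCommGroup B] {p : ℕ} (h : ∀ s : B, p • s = 0 → s = 0) (j : ℕ)
    (s : B) (hs : (p ^ j : ℕ) • s = 0) : s = 0 := by
  induction j generalizing s with
  | zero => rwa [pow_zero, one_smul] at hs
  | succ j ih =>
    apply h
    apply ih
    rw [smul_smul, ← pow_succ]
    exact hs

/-- **Points over Galois extensions of degree a power of the odd prime `p`.** -/
theorem fin_upP [IsGalois k K] {p n : ℕ} (hp : p.Prime) (hp2 : p ≠ 2)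
    (hn : Module.finrank k K = p ^ n) {a b : 𝓞 k} (hΔ : 4 * a ^ 3 + 27 * b ^ 2 ≠ 0)
    (hfin : Finite (cu k a b).toAffine.Point) (hc : ¬ p ∣ Nat.card (cu k a b).toAffine.Point)
    (hSha : ∀ s : Pool.Agent.TH841.NF.D.Sha (cu k a b), p • s = 0 → s = 0)
    (hψ : ∀ v : HeightOneSpectrum (𝓞 k), 2 * p * (4 * a ^ 3 + 27 * b ^ 2) ∈ v.asIdeal →
      Nonempty (K →ₐ[k] v.adicCompletion k))
    (hram : ∀ w : HeightOneSpectrum (𝓞 K),
      2 * p * (4 * a ^ 3 + 27 * b ^ 2) ∉ (w.under (𝓞 k)).asIdeal →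
      ¬ p ∣ pts a b (w.under (𝓞 k)) + 1 ∨
      ∀ x : k, w.valuation K (algebraMap k K x) = (w.under (𝓞 k)).valuation k x) :
    (Finite (cu K a b).toAffine.Point ∧ ¬ p ∣ Nat.card (cu K a b).toAffine.Point) ∧
    (∀ (j : ℕ) (s : Pool.Agent.TH841.NF.D.Sha (cu K a b)), (p ^ j : ℕ) • s = 0 → s = 0) ∧
    ∀ x : Pool.Agent.Y667.BKP.H1f p (cu K a b), x = 0 := by
  have e0 : (VC a b).baseChange k = VC a b := by
    show (VC a b).map (algebraMap k k) = VC a b
    rw [Algebra.algebraMap_self, WeierstrassCurve.map_id]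
  have e1 : (VC a b).baseChange K = cu K a b := cu_map a b
  have hL : LocP K (VC a b) p := by
    rintro g hlc hmul ⟨Q, hQ⟩ hloc v
    by_cases hv : 2 * p * (4 * a ^ 3 + 27 * b ^ 2) ∈ v.asIdeal
    · obtain ⟨ψ⟩ := hψ v hv
      exact loc_split' (VC a b) ψ g hloc
    · have hd : 2 * (4 * a ^ 3 + 27 * b ^ 2) ∉ v.asIdeal := fun h => hv (by
        have e : (2 * p * (4 * a ^ 3 + 27 * b ^ 2) : 𝓞 k) =
            2 * (4 * a ^ 3 + 27 * b ^ 2) * p := by ring
        rw [e]
        exact v.asIdeal.mul_mem_right _ h)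
      have hpv : (p : 𝓞 k) ∉ v.asIdeal := fun h => hv (by
        have e : (2 * p * (4 * a ^ 3 + 27 * b ^ 2) : 𝓞 k) =
            p * (2 * (4 * a ^ 3 + 27 * b ^ 2)) := by ring
        rw [e]
        exact v.asIdeal.mul_mem_right _ h)
      refine loc_good hp hn hd hpv ?_ g hmul hQ hloc
      by_cases hr : ¬ p ∣ pts a b v + 1
      · exact Or.inl fun Q hQ hpQ => hR_of' hp hd hr Q hQ hpQ
      · right
        rintro w rfl x
        rcases hram w hv with h | h
        · exact absurd h hr
        · exact h x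
  have hmw : AddGroup.FG (Pool.Agent.TH115.GD.Pt (VC a b) K) := by
    refine Pool.Agent.H64R2.DDMWK.fg_of_eq e1.symm (mw_fg _ _ ?_)
    intro h
    apply hΔ
    have h2 : algebraMap k K ((4 * a ^ 3 + 27 * b ^ 2 : 𝓞 k) : k) = 0 := by
      rw [← h]
      push_cast
      simp only [map_mul, map_add, map_pow, map_ofNat]
    have h3 := (map_eq_zero (algebraMap k K)).1 h2
    exact_mod_cast h3
  obtain ⟨h1, h2, h3⟩ := arith_up hp hp2 hn hmw hSha (cast_fin e0.symm hfin)
    (by rw [← cast_card e0.symm]; exact hc) hL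
  rw [cu_map] at h1
  have h4 : Finite (cu K a b).toAffine.Point := cast_fin e1 h2
  refine ⟨⟨h4, by rw [← cast_card e1]; exact h3⟩, fun j s hs => sha_pow' h1 j s hs, ?_⟩
  refine Pool.Agent.Y667.BKP.h1f_zero hp h4 0 fun j x hx => ?_
  rw [pow_zero, one_smul]
  exact sha_pow' h1 j x hx

end up

end Pool.Agent.H92P
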